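import Mathlib

/-!
Reduction of points of the upper half plane.
-/

set_option autoImplicit false

namespace Pool.Agent.NH26.HC

open UpperHalfPlane ModularGroup Matrix.SpecialLinearGroup

open scoped MatrixGroups Modular

/-- every point of the upper half plane is equivalent to one of the fundamental domain -/
theorem reduce (z : ℂ) (hz : 0 < z.im) : ∃ (p q r s : ℤ) (w : ℂ), p * s - q * r = 1 ∧ 0 < w.im ∧
    3 ≤ 4 * w.im ^ 2 ∧ |w.re| ≤ 1 / 2 ∧ 1 ≤ w.re ^ 2 + w.im ^ 2 ∧ (r * w + s : ℂ) ≠ 0 ∧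
      (r * w + s) * z = p * w + q := by
  set Z : ℍ := ⟨z, hz⟩ with hZ
  obtain ⟨g, hg⟩ := exists_smul_mem_fd Z
  have h1 := three_le_four_mul_im_sq_of_mem_fd hg
  have hw := UpperHalfPlane.coe_specialLinearGroup_apply g Z
  have hdet := g.det_coe
  rw [Matrix.det_fin_two] at hdet
  have hden : ((g 1 0 : ℤ) : ℂ) * z + ((g 1 1 : ℤ) : ℂ) ≠ 0 := by
    intro h0
    have h1 := congrArg Complex.re h0
    have h2 := congrArg Complex.im h0
    simp at h1 h2
    have hc : (g 1 0) = 0 := by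
      rcases h2 with h2 | h2
      · exact_mod_cast h2
      · exact absurd h2 hz.ne'
    rw [hc] at h1 hdet
    have hd : (g 1 1) = 0 := by
      simpa using h1
    rw [hd] at hdet
    simp at hdet
  have hw2 : ((g • Z : ℍ) : ℂ) * (((g 1 0 : ℤ) : ℂ) * z + ((g 1 1 : ℤ) : ℂ)) =
      ((g 0 0 : ℤ) : ℂ) * z + ((g 0 1 : ℤ) : ℂ) := by
    rw [hw]
    simp only [hZ, algebraMap_int_eq, eq_intCast, Complex.ofReal_intCast]
    exact div_mul_cancel₀ _ hden
  have hdet' : ((g 0 0 : ℤ) : ℂ) * ((g 1 1 : ℤ) : ℂ) - ((g 0 1 : ℤ) : ℂ) * ((g 1 0 : ℤ) : ℂ) = 1 := by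
    exact_mod_cast hdet
  set w : ℂ := ((g • Z : ℍ) : ℂ) with hwd
  have hwim : 0 < w.im := (g • Z).im_pos
  refine ⟨g 1 1, -(g 0 1), -(g 1 0), g 0 0, w, ?_, hwim, ?_, hg.2, ?_, ?_, ?_⟩
  · linear_combination hdet
  · exact h1
  · have := hg.1
    rw [Complex.normSq_apply] at this
    nlinarith [this]
  · push_cast
    intro h0
    have : (((g 1 0 : ℤ) : ℂ) * z + ((g 1 1 : ℤ) : ℂ)) * (-((g 1 0 : ℤ) : ℂ) * w + ((g 0 0 : ℤ) : ℂ)) =
        1 := by
      linear_combination (-((g 1 0 : ℤ) : ℂ)) * hw2 + hdet'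
    rw [h0, mul_zero] at this
    exact zero_ne_one this
  · push_cast
    linear_combination -hw2

end Pool.Agent.NH26.HC
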