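import Mathlib
import Pool.Agent.NH26.HC.Red

/-!
Binary cubic forms `a X³ + 3 b X² Y + 3 c X Y² + d Y³`: finitely many classes of given discriminant.
-/

set_option autoImplicit false

namespace Pool.Agent.NH26.HC

section ring

variable {R : Type*} [CommRing R]

/-- the value of a cubic form -/
def cu (a b c d u v : R) : R := a * u ^ 3 + 3 * b * u ^ 2 * v + 3 * c * u * v ^ 2 + d * v ^ 3

/-- the discriminant -/
def di (a b c d : R) : R :=
  a ^ 2 * d ^ 2 - 6 * a * b * c * d + 4 * a * c ^ 3 + 4 * b ^ 3 * d - 3 * b ^ 2 * c ^ 2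

/-- the Hessian -/
def he (a b c d u v : R) : R :=
  (b ^ 2 - a * c) * u ^ 2 + (b * c - a * d) * (u * v) + (c ^ 2 - b * d) * v ^ 2

/-- the cubic covariant -/
def gg (a b c d u v : R) : R :=
  (a ^ 2 * d - 3 * a * b * c + 2 * b ^ 3) * u ^ 3 + 3 * (a * b * d + b ^ 2 * c - 2 * a * c ^ 2) * u ^ 2 * v
    - 3 * (a * c * d + b * c ^ 2 - 2 * b ^ 2 * d) * u * v ^ 2 -
    (a * d ^ 2 - 3 * b * c * d + 2 * c ^ 3) * v ^ 3

theorem syz (a b c d u v : R) :
    gg a b c d u v ^ 2 - di a b c d * cu a b c d u v ^ 2 = 4 * he a b c d u v ^ 3 := by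
  unfold gg di cu he; ring

/-- second coefficient of the transformed form -/
def cb (a b c d p q r s : R) : R :=
  a * p ^ 2 * q + b * (p ^ 2 * s + 2 * p * r * q) + c * (2 * p * r * s + r ^ 2 * q) + d * r ^ 2 * s

theorem he_tr (a b c d p q r s : R) :
    cb a b c d p q r s ^ 2 - cu a b c d p r * cb a b c d q p s r =
      (p * s - q * r) ^ 2 * he a b c d p r := by
  unfold cb cu he; ring

theorem hec_tr (a b c d p q r s : R) :
    cb a b c d p q r s * cb a b c d q p s r - cu a b c d p r * cu a b c d q s =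
      (p * s - q * r) ^ 2 * (2 * (b ^ 2 - a * c) * p * q + (b * c - a * d) * (p * s + q * r) +
        2 * (c ^ 2 - b * d) * r * s) := by
  unfold cb cu; ring

theorem cu_tr (a b c d p q r s X Y : R) :
    cu (cu a b c d p r) (cb a b c d p q r s) (cb a b c d q p s r) (cu a b c d q s) X Y =
      cu a b c d (p * X + q * Y) (r * X + s * Y) := by
  unfold cb cu; ring

theorem di_tr (a b c d p q r s : R) :
    di (cu a b c d p r) (cb a b c d p q r s) (cb a b c d q p s r) (cu a b c d q s) =
      (p * s - q * r) ^ 6 * di a b c d := by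
  unfold cb cu di; ring

theorem he_eq_of (a b c d p q r s : R) (h : p * s - q * r = 1) :
    he (cu a b c d p r) (cb a b c d p q r s) (cb a b c d q p s r) (cu a b c d q s) s (-r) =
      b ^ 2 - a * c := by
  have h1 := he_tr (cu a b c d p r) (cb a b c d p q r s) (cb a b c d q p s r) (cu a b c d q s)
    s (-q) (-r) p
  have h2 : s * p - -q * -r = (1 : R) := by linear_combination h
  rw [h2, one_pow, one_mul] at h1
  rw [← h1]
  have hs : p * s = 1 + q * r := by linear_combination h
  have e1 : cb (cu a b c d p r) (cb a b c d p q r s) (cb a b c d q p s r) (cu a b c d q s)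
      s (-q) (-r) p = (p * s - q * r) ^ 3 * b := by
    unfold cb cu; ring
  have e2 : cb (cu a b c d p r) (cb a b c d p q r s) (cb a b c d q p s r) (cu a b c d q s)
      (-q) s p (-r) = (p * s - q * r) ^ 3 * c := by
    unfold cb cu; ring
  have e3 : cu (cu a b c d p r) (cb a b c d p q r s) (cb a b c d q p s r) (cu a b c d q s)
      s (-r) = (p * s - q * r) ^ 3 * a := by
    unfold cb cu; ring
  rw [e1, e2, e3, h]
  ring

theorem cu_eq_of (a b c d p q r s : R) (h : p * s - q * r = 1) :
    cu (cu a b c d p r) (cb a b c d p q r s) (cb a b c d q p s r) (cu a b c d q s) s (-r) = a := by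
  have e3 : cu (cu a b c d p r) (cb a b c d p q r s) (cb a b c d q p s r) (cu a b c d q s)
      s (-r) = (p * s - q * r) ^ 3 * a := by
    unfold cb cu; ring
  rw [e3, h]; ring

end ring

end Pool.Agent.NH26.HC
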