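import Mathlib
import Pool.Agent.NH26.HC.Cubic

/-!
Binary cubic forms of given nonzero discriminant: every integral form is equivalent to a bounded one.
-/

set_option autoImplicit false

namespace Pool.Agent.NH26.HC

open Complex

/-- a real form of positive discriminant has a root in the upper half plane -/
theorem exists_root_pos (a b c d : ℝ) (h : 0 < di a b c d) :
    ∃ z : ℂ, 0 < z.im ∧ cu (a : ℂ) b c d z 1 = 0 := by
  -- a quadratic polynomial with negative discriminant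
  have quad : ∀ A B C : ℝ, A ≠ 0 → B ^ 2 - 4 * A * C < 0 →
      ∃ z : ℂ, 0 < z.im ∧ (A : ℂ) * z ^ 2 + B * z + C = 0 := by
    intro A B C hA hD
    set D : ℝ := -(B ^ 2 - 4 * A * C) with hDd
    have hD0 : 0 < D := by rw [hDd]; linarith
    have hs : Real.sqrt D ^ 2 = D := Real.sq_sqrt hD0.le
    have hsp : 0 < Real.sqrt D := Real.sqrt_pos.2 hD0
    have key : ∀ t : ℝ, t ^ 2 = D → (A : ℂ) * ((-B + t * I) / (2 * A)) ^ 2 +
        B * ((-B + t * I) / (2 * A)) + C = 0 := by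
      intro t ht
      have hAc : (A : ℂ) ≠ 0 := by exact_mod_cast hA
      have ht' : (t : ℂ) ^ 2 = 4 * A * C - B ^ 2 := by
        rw [← ofReal_pow, ht, hDd]; push_cast; ring
      field_simp
      have hI : I ^ 2 = -1 := I_sq
      linear_combination (t : ℂ) ^ 2 * hI - ht'
    have him : ∀ t : ℝ, ((-B + t * I) / (2 * A) : ℂ).im = t / (2 * A) := by
      intro t
      have : ((-B + t * I) / (2 * A) : ℂ) = ((-B / (2 * A) : ℝ) : ℂ) + ((t / (2 * A) : ℝ) : ℂ) * I := by
        push_cast; ring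
      rw [this, Complex.add_im, Complex.ofReal_im, Complex.mul_I_im, Complex.ofReal_re, zero_add]
    rcases lt_or_gt_of_ne hA with h1 | h1
    · refine ⟨(-B + (-Real.sqrt D : ℝ) * I) / (2 * A), ?_, key _ (by rw [neg_sq, hs])⟩
      rw [him]
      exact div_pos_of_neg_of_neg (by linarith) (by linarith)
    · refine ⟨(-B + (Real.sqrt D : ℝ) * I) / (2 * A), ?_, key _ hs⟩
      rw [him]; positivity
  rcases eq_or_ne a 0 with ha | ha
  · subst ha
    have h1 : di 0 b c d = b ^ 2 * (4 * b * d - 3 * c ^ 2) := by unfold di; ring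
    rw [h1] at h
    have hb : b ≠ 0 := by rintro rfl; simp at h
    have h2 : 0 < 4 * b * d - 3 * c ^ 2 := by
      by_contra hcon
      push Not at hcon
      nlinarith [sq_nonneg b]
    obtain ⟨z, hz, hz0⟩ := quad (3 * b) (3 * c) d (by simpa using hb) (by nlinarith)
    refine ⟨z, hz, ?_⟩
    unfold cu
    push_cast at hz0 ⊢
    linear_combination hz0
  · -- a complex root
    obtain ⟨r, hr⟩ : ∃ r : ℂ, cu (a : ℂ) b c d r 1 = 0 := by
      set P : Polynomial ℂ := Polynomial.C (a : ℂ) * Polynomial.X ^ 3 +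
        Polynomial.C (3 * b : ℂ) * Polynomial.X ^ 2 + Polynomial.C (3 * c : ℂ) * Polynomial.X +
        Polynomial.C (d : ℂ) with hP
      have hdeg : P.degree = 3 := Polynomial.degree_cubic (by exact_mod_cast ha)
      obtain ⟨r, hr⟩ := IsAlgClosed.exists_root P (by rw [hdeg]; decide)
      refine ⟨r, ?_⟩
      rw [Polynomial.IsRoot, hP] at hr
      simp only [Polynomial.eval_add, Polynomial.eval_mul, Polynomial.eval_C, Polynomial.eval_pow,
        Polynomial.eval_X] at hr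
      unfold cu
      linear_combination hr
    rcases lt_trichotomy r.im 0 with h1 | h1 | h1
    · refine ⟨(starRingEnd ℂ) r, by simpa using h1, ?_⟩
      have := congrArg (starRingEnd ℂ) hr
      unfold cu at this ⊢
      simpa [map_ofNat] using this
    · -- a real root
      have hrr : r = (r.re : ℂ) := by
        apply Complex.ext <;> simp [h1]
      set ρ := r.re with hρ
      rw [hrr] at hr
      have hreal : cu a b c d ρ 1 = 0 := by
        unfold cu at hr ⊢
        exact_mod_cast hr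
      have hfac : -27 * di a b c d = ((3 * b + a * ρ) ^ 2 - 4 * a * (3 * c + 3 * b * ρ + a * ρ ^ 2)) *
          (3 * a * ρ ^ 2 + 6 * b * ρ + 3 * c) ^ 2 := by
        have hd : d = -(a * ρ ^ 3 + 3 * b * ρ ^ 2 + 3 * c * ρ) := by
          unfold cu at hreal; linear_combination hreal
        rw [hd]; unfold di; ring
      have hneg : (3 * b + a * ρ) ^ 2 - 4 * a * (3 * c + 3 * b * ρ + a * ρ ^ 2) < 0 := by
        by_contra hcon
        push Not at hcon
        have : 0 ≤ -27 * di a b c d := by rw [hfac]; positivity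
        linarith
      obtain ⟨z, hz, hz0⟩ := quad a (3 * b + a * ρ) (3 * c + 3 * b * ρ + a * ρ ^ 2) ha hneg
      refine ⟨z, hz, ?_⟩
      have e : cu (a : ℂ) b c d z 1 = (z - ρ) * ((a : ℂ) * z ^ 2 + ((3 * b + a * ρ : ℝ) : ℂ) * z +
          ((3 * c + 3 * b * ρ + a * ρ ^ 2 : ℝ) : ℂ)) + cu (a : ℂ) b c d ρ 1 := by
        unfold cu; push_cast; ring
      rw [e, hz0, hr]; ring
    · exact ⟨r, h1, hr⟩

/-- bounds for a form with a root in the fundamental domain -/
theorem bound_pos (a b c d : ℤ) (M : ℝ) (hM : ((di a b c d : ℤ) : ℝ) ≤ M) (hM1 : 1 ≤ M)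
    (w : ℂ) (hw : 0 < w.im) (hw3 : 3 ≤ 4 * w.im ^ 2) (hre : |w.re| ≤ 1 / 2)
    (h0 : cu (a : ℂ) b c d w 1 = 0) (hne : di a b c d ≠ 0) :
    |(a : ℝ)| ≤ 1000 * M ^ 2 ∧ |(b : ℝ)| ≤ 1000 * M ^ 2 ∧ |(c : ℝ)| ≤ 1000 * M ^ 2 ∧
      |(d : ℝ)| ≤ 1000 * M ^ 2 := by
  set σ := w.re with hσ
  set τ := w.im with hτ
  have hww : w ^ 2 = 2 * σ * w - ((σ ^ 2 + τ ^ 2 : ℝ) : ℂ) := by
    apply Complex.ext
    · simp [sq, ← hσ, ← hτ]; ring
    · simp [sq, ← hσ, ← hτ]; ring
  set ρ : ℝ := σ ^ 2 + τ ^ 2 with hρ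
  set q : ℝ := 3 * b + 2 * σ * a with hq
  have hlin : ((3 * c - ρ * a + 2 * σ * q : ℝ) : ℂ) * w + ((d - ρ * q : ℝ) : ℂ) = 0 := by
    unfold cu at h0
    have h3 : w ^ 3 = w * w ^ 2 := by ring
    rw [hww] at h3
    rw [h3] at h0
    push_cast at h0 hww ⊢
    rw [hq]
    push_cast
    linear_combination h0 - (3 * (b : ℂ) + 2 * σ * a) * hww
  have him := congrArg Complex.im hlin
  have hre' := congrArg Complex.re hlin
  simp only [Complex.add_im, Complex.mul_im, Complex.ofReal_re, Complex.ofReal_im, zero_mul,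
    add_zero, Complex.zero_im, Complex.add_re, Complex.mul_re, Complex.zero_re, sub_zero] at him hre'
  have hc : 3 * (c : ℝ) = ρ * a - 2 * σ * q := by
    have : 3 * (c : ℝ) - ρ * a + 2 * σ * q = 0 := by
      rcases mul_eq_zero.1 him with h | h
      · exact h
      · exact absurd h hw.ne'
    linarith
  have hd : (d : ℝ) = ρ * q := by
    have : 3 * (c : ℝ) - ρ * a + 2 * σ * q = 0 := by linarith
    rw [this, zero_mul, zero_add] at hre'
    linarith
  have hb : 3 * (b : ℝ) = q - 2 * σ * a := by rw [hq]; ring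
  -- the discriminant
  set N : ℝ := (a * σ + q) ^ 2 + (a * τ) ^ 2 with hN
  have hdisc : 27 * ((di a b c d : ℤ) : ℝ) = 4 * τ ^ 2 * N ^ 2 := by
    have e : 27 * ((di a b c d : ℤ) : ℝ) = 27 * a ^ 2 * d ^ 2 - 18 * a * (3 * b) * (3 * c) * d +
        4 * a * (3 * (c : ℝ)) ^ 3 + 4 * (3 * (b : ℝ)) ^ 3 * d - (3 * (b : ℝ)) ^ 2 * (3 * (c : ℝ)) ^ 2 := by
      unfold di; push_cast; ring
    rw [e, hb, hc, hd, hN, hρ]
    ring
  have hN0 : 0 ≤ N := by positivity
  have hMN : 4 * τ ^ 2 * N ^ 2 ≤ 27 * M := by linarith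
  have hτ2 : 3 / 4 ≤ τ ^ 2 := by linarith
  have hNM : N ^ 2 ≤ 9 * M := by
    have : 3 * N ^ 2 ≤ 4 * τ ^ 2 * N ^ 2 := by nlinarith [sq_nonneg N]
    linarith
  have hN9 : N ≤ 9 * M := by
    by_contra hcon
    push Not at hcon
    nlinarith
  have hσ2 : σ ^ 2 ≤ 1 / 4 := by
    have := sq_le_sq' (abs_le.1 hre).1 (abs_le.1 hre).2
    linarith
  have ha2 : (a : ℝ) ^ 2 ≤ 12 * M := by
    have : (a : ℝ) ^ 2 * τ ^ 2 ≤ 9 * M := by nlinarith [sq_nonneg (a * σ + q)]
    nlinarith [sq_nonneg (a : ℝ)]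
  have haq : (a * σ + q) ^ 2 ≤ 9 * M := by nlinarith [sq_nonneg (a * τ)]
  have hq2 : q ^ 2 ≤ 24 * M := by
    have h1 : q = (a * σ + q) - a * σ := by ring
    have h2 : q ^ 2 ≤ 2 * (a * σ + q) ^ 2 + 2 * (a * σ) ^ 2 := by
      nlinarith [sq_nonneg ((a * σ + q) + a * σ)]
    have h3 : (a * σ) ^ 2 ≤ (a : ℝ) ^ 2 * (1 / 4) := by
      rw [mul_pow]; exact mul_le_mul_of_nonneg_left hσ2 (sq_nonneg _)
    linarith
  -- the imaginary part is bounded
  have hτM : τ ^ 2 ≤ 27 * M := by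
    rcases eq_or_ne a 0 with ha | ha
    · have hq1 : 1 ≤ q ^ 2 := by
        have hb0 : b ≠ 0 := by
          rintro rfl
          apply hne
          rw [ha]; unfold di; ring
        have h1 : q = 3 * b := by rw [hq, ha]; push_cast; ring
        have h2 : (1 : ℝ) ≤ (b : ℝ) ^ 2 := by
          have : (1 : ℤ) ≤ b ^ 2 := by
            have := Int.one_le_abs hb0
            rw [← sq_abs]; nlinarith
          exact_mod_cast this
        rw [h1]; nlinarith
      have hNq : N = q ^ 2 := by rw [hN, ha]; push_cast; ring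
      rw [hNq] at hMN
      have : (1 : ℝ) ≤ (q ^ 2) ^ 2 := by nlinarith
      nlinarith [sq_nonneg τ]
    · have ha1 : (1 : ℝ) ≤ (a : ℝ) ^ 2 := by
        have : (1 : ℤ) ≤ a ^ 2 := by
          have := Int.one_le_abs ha
          rw [← sq_abs]; nlinarith
        exact_mod_cast this
      have hNt : τ ^ 2 ≤ N := by
        rw [hN]; nlinarith [sq_nonneg (a * σ + q), sq_nonneg τ]
      have h1 : (τ ^ 2) ^ 2 ≤ N ^ 2 := by
        apply pow_le_pow_left₀ (sq_nonneg _) hNt
      have h2 : 4 * τ ^ 2 * (τ ^ 2) ^ 2 ≤ 27 * M := by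
        refine le_trans ?_ hMN
        exact mul_le_mul_of_nonneg_left h1 (by positivity)
      by_contra hcon
      push Not at hcon
      nlinarith [sq_nonneg τ, mul_pos (show (0:ℝ) < 27 * M by linarith) (show (0:ℝ) < 27 * M by linarith)]
  have hρM : ρ ≤ 28 * M := by rw [hρ]; nlinarith
  have hρ0 : 0 ≤ ρ := by positivity
  have habs : ∀ t K : ℝ, 1 ≤ K → t ^ 2 ≤ K → |t| ≤ K := by
    intro t K hK h
    have : |t| ^ 2 ≤ K ^ 2 := by rw [sq_abs]; nlinarith
    exact le_of_sq_le_sq this (by linarith) |> fun h => h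
  have hA := habs a (12 * M) (by linarith) ha2
  have hQ := habs q (24 * M) (by linarith) hq2
  have hσ1 : |2 * σ| ≤ 1 := by
    rw [abs_mul, abs_of_pos (by norm_num : (0:ℝ) < 2)]; linarith
  have hM2 : M ≤ M ^ 2 := by nlinarith
  have hB : |3 * (b : ℝ)| ≤ 36 * M := by
    rw [hb]
    calc |q - 2 * σ * a| ≤ |q| + |2 * σ * a| := abs_sub _ _
      _ ≤ 24 * M + 1 * (12 * M) := by
        rw [abs_mul]
        exact add_le_add hQ (mul_le_mul hσ1 hA (abs_nonneg _) zero_le_one)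
      _ = 36 * M := by ring
  have hC : |3 * (c : ℝ)| ≤ 28 * M * (12 * M) + 24 * M := by
    rw [hc]
    calc |ρ * a - 2 * σ * q| ≤ |ρ * a| + |2 * σ * q| := abs_sub _ _
      _ ≤ 28 * M * (12 * M) + 1 * (24 * M) := by
        rw [abs_mul, abs_mul (2 * σ), abs_of_nonneg hρ0]
        exact add_le_add (mul_le_mul hρM hA (abs_nonneg _) (by linarith))
          (mul_le_mul hσ1 hQ (abs_nonneg _) zero_le_one)
      _ = 28 * M * (12 * M) + 24 * M := by ring
  have hD : |(d : ℝ)| ≤ 28 * M * (24 * M) := by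
    rw [hd, abs_mul, abs_of_nonneg hρ0]
    exact mul_le_mul hρM hQ (abs_nonneg _) (by linarith)
  rw [abs_mul, abs_of_pos (by norm_num : (0:ℝ) < 3)] at hB hC
  refine ⟨by nlinarith, by nlinarith, by nlinarith, by nlinarith⟩

end Pool.Agent.NH26.HC
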