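import Mathlib
import Pool.Agent.NH26.HC.CubicRed

/-!
Binary cubic forms of given nonzero discriminant: every integral form is equivalent to a bounded one
with nonzero leading coefficient.
-/

set_option autoImplicit false

namespace Pool.Agent.NH26.HC

open Complex

/-- the root of a positive definite quadratic form -/
theorem quad_root (A B C : ℝ) (hA : 0 < A) (hD : B ^ 2 - 4 * A * C < 0) :
    ∃ z : ℂ, 0 < z.im ∧ (A : ℂ) * z ^ 2 + B * z + C = 0 := by
  set D : ℝ := -(B ^ 2 - 4 * A * C) with hDd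
  have hD0 : 0 < D := by rw [hDd]; linarith
  have hs : Real.sqrt D ^ 2 = D := Real.sq_sqrt hD0.le
  have hsp : 0 < Real.sqrt D := Real.sqrt_pos.2 hD0
  refine ⟨(-B + (Real.sqrt D : ℝ) * I) / (2 * A), ?_, ?_⟩
  · have : ((-B + (Real.sqrt D : ℝ) * I) / (2 * A) : ℂ) =
        ((-B / (2 * A) : ℝ) : ℂ) + ((Real.sqrt D / (2 * A) : ℝ) : ℂ) * I := by
      push_cast; ring
    rw [this, Complex.add_im, Complex.ofReal_im, Complex.mul_I_im, Complex.ofReal_re, zero_add]
    positivity
  · have hAc : (A : ℂ) ≠ 0 := by exact_mod_cast hA.ne'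
    have ht' : ((Real.sqrt D : ℝ) : ℂ) ^ 2 = 4 * A * C - B ^ 2 := by
      rw [← ofReal_pow, hs, hDd]; push_cast; ring
    field_simp
    have hI : I ^ 2 = -1 := I_sq
    linear_combination ((Real.sqrt D : ℝ) : ℂ) ^ 2 * hI - ht'

theorem he_trXY {R : Type*} [CommRing R] (a b c d p q r s X Y : R) :
    he (cu a b c d p r) (cb a b c d p q r s) (cb a b c d q p s r) (cu a b c d q s) X Y =
      (p * s - q * r) ^ 2 * he a b c d (p * X + q * Y) (r * X + s * Y) := by
  unfold he cb cu; ring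

theorem abs_le_of_sq_le {n : ℤ} {K : ℝ} (h : (n : ℝ) ^ 2 ≤ K) : |(n : ℝ)| ≤ K := by
  refine le_trans ?_ h
  have : |n| ≤ n ^ 2 := by
    rcases eq_or_ne n 0 with h | h
    · rw [h]; simp
    · have h1 := Int.one_le_abs h
      rw [← sq_abs]
      nlinarith
  exact_mod_cast this

/-- bounds for a form of negative discriminant with reduced Hessian -/
theorem bound_neg (a b c d : ℤ) (M : ℝ) (hM : -((di a b c d : ℤ) : ℝ) ≤ M)
    (hneg : di a b c d < 0) (h0 : 0 < b ^ 2 - a * c)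
    (h1 : |b * c - a * d| ≤ b ^ 2 - a * c) (h2 : b ^ 2 - a * c ≤ c ^ 2 - b * d) :
    |(a : ℝ)| ≤ 1000 * M ^ 3 ∧ |(b : ℝ)| ≤ 1000 * M ^ 3 ∧ |(c : ℝ)| ≤ 1000 * M ^ 3 ∧
      |(d : ℝ)| ≤ 1000 * M ^ 3 := by
  set A : ℝ := ((b ^ 2 - a * c : ℤ) : ℝ) with hA
  set B : ℝ := ((b * c - a * d : ℤ) : ℝ) with hB
  set C : ℝ := ((c ^ 2 - b * d : ℤ) : ℝ) with hC
  set Δ : ℝ := -((di a b c d : ℤ) : ℝ) with hΔ
  have hΔ1 : 1 ≤ Δ := by
    have : (1 : ℤ) ≤ -di a b c d := by omega
    rw [hΔ]; exact_mod_cast this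
  have hM1 : 1 ≤ M := hΔ1.trans hM
  have hA1 : 1 ≤ A := by rw [hA]; exact_mod_cast h0
  have hBA : |B| ≤ A := by rw [hA, hB]; exact_mod_cast h1
  have hAC : A ≤ C := by rw [hA, hC]; exact_mod_cast h2
  have hdisc : 4 * A * C - B ^ 2 = Δ := by
    rw [hA, hB, hC, hΔ]; unfold di; push_cast; ring
  have hB2 : B ^ 2 ≤ A ^ 2 := by
    have := sq_le_sq' (abs_le.1 hBA).1 (abs_le.1 hBA).2
    exact this
  have hACM : 3 * (A * C) ≤ M := by nlinarith
  have hC3 : 3 * C ≤ M := by nlinarith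
  have hA3 : 3 * A ≤ M := by linarith
  -- values
  have val : ∀ u v : ℤ, ((cu a b c d u v : ℤ) : ℝ) ^ 2 ≤ 4 * (he (a : ℝ) b c d u v) ^ 3 := by
    intro u v
    have h := syz (a : ℝ) b c d u v
    have hdi : di (a : ℝ) b c d = -Δ := by rw [hΔ]; unfold di; push_cast; ring
    rw [hdi] at h
    have hcu : ((cu a b c d u v : ℤ) : ℝ) = cu (a : ℝ) b c d u v := by unfold cu; push_cast; ring
    rw [hcu]
    nlinarith [sq_nonneg (gg (a : ℝ) b c d u v), sq_nonneg (cu (a : ℝ) b c d u v)]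
  have hev : ∀ u v : ℝ, he (a : ℝ) b c d u v = A * u ^ 2 + B * (u * v) + C * v ^ 2 := by
    intro u v
    rw [hA, hB, hC]; unfold he; push_cast; ring
  have hM3 : ∀ t : ℝ, 0 ≤ t → t ≤ M → 4 * t ^ 3 ≤ 4 * M ^ 3 := by
    intro t ht htM
    have := pow_le_pow_left₀ ht htM 3
    linarith
  have hBl := abs_le.1 hBA
  have va := val 1 0
  have vd := val 0 1
  have v1 := val 1 1
  have v2 := val 1 (-1)
  have fa : he (a : ℝ) b c d ((1 : ℤ) : ℝ) ((0 : ℤ) : ℝ) = A := by rw [hev]; push_cast; ring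
  have fd : he (a : ℝ) b c d ((0 : ℤ) : ℝ) ((1 : ℤ) : ℝ) = C := by rw [hev]; push_cast; ring
  have f1 : he (a : ℝ) b c d ((1 : ℤ) : ℝ) ((1 : ℤ) : ℝ) = A + B + C := by
    rw [hev]; push_cast; ring
  have f2 : he (a : ℝ) b c d ((1 : ℤ) : ℝ) ((-1 : ℤ) : ℝ) = A - B + C := by
    rw [hev]; push_cast; ring
  have ea : cu a b c d 1 0 = a := by unfold cu; ring
  have ed : cu a b c d 0 1 = d := by unfold cu; ring
  have e1 : cu a b c d 1 1 = a + 3 * b + 3 * c + d := by unfold cu; ring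
  have e2 : cu a b c d 1 (-1) = a - 3 * b + 3 * c - d := by unfold cu; ring
  rw [ea, fa] at va
  rw [ed, fd] at vd
  rw [e1, f1] at v1
  rw [e2, f2] at v2
  have ka := abs_le_of_sq_le (va.trans (hM3 _ (by nlinarith) (by nlinarith)))
  have kd := abs_le_of_sq_le (vd.trans (hM3 _ (by nlinarith) (by nlinarith)))
  have k1 := abs_le_of_sq_le (v1.trans (hM3 _ (by nlinarith) (by nlinarith)))
  have k2 := abs_le_of_sq_le (v2.trans (hM3 _ (by nlinarith) (by nlinarith)))
  push_cast at k1 k2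
  have hM30 : (0 : ℝ) ≤ M ^ 3 := by positivity
  rw [abs_le] at ka kd k1 k2
  refine ⟨?_, ?_, ?_, ?_⟩ <;> rw [abs_le] <;> constructor <;> linarith [ka.1, ka.2, kd.1, kd.2,
    k1.1, k1.2, k2.1, k2.2]

/-- **Reduction of binary cubic forms.** -/
theorem cubic_reduce (a b c d : ℤ) (hne : di a b c d ≠ 0) (M : ℝ)
    (hM : |((di a b c d : ℤ) : ℝ)| ≤ M) :
    ∃ (a0 b0 c0 d0 u v : ℤ), IsCoprime u v ∧ di a0 b0 c0 d0 = di a b c d ∧
      cu a0 b0 c0 d0 u v = a ∧ he a0 b0 c0 d0 u v = b ^ 2 - a * c ∧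
      |(a0 : ℝ)| ≤ 1000 * M ^ 3 ∧ |(b0 : ℝ)| ≤ 1000 * M ^ 3 ∧ |(c0 : ℝ)| ≤ 1000 * M ^ 3 ∧
      |(d0 : ℝ)| ≤ 1000 * M ^ 3 := by
  have hM1 : 1 ≤ M := by
    have : (1 : ℤ) ≤ |di a b c d| := Int.one_le_abs hne
    refine le_trans ?_ hM
    exact_mod_cast this
  have hM2 : M ^ 2 ≤ M ^ 3 := pow_le_pow_right₀ hM1 (by norm_num)
  have conc : ∀ p q r s : ℤ, p * s - q * r = 1 → IsCoprime s (-r) := by
    intro p q r s h
    exact ⟨p, q, by linear_combination h⟩
  rcases lt_or_gt_of_ne hne with hlt | hgt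
  · -- negative discriminant
    have hdi : di a b c d = (b * c - a * d) ^ 2 - 4 * (b ^ 2 - a * c) * (c ^ 2 - b * d) := by
      unfold di; ring
    have h0 : 0 < b ^ 2 - a * c := by
      have hs := syz a b c d 1 0
      have e1 : he a b c d 1 0 = b ^ 2 - a * c := by unfold he; ring
      have e2 : cu a b c d 1 0 = a := by unfold cu; ring
      rw [e1, e2] at hs
      have h3 : 0 ≤ (b ^ 2 - a * c) ^ 3 := by nlinarith [sq_nonneg (gg a b c d 1 0), sq_nonneg a]
      have h4 : 0 ≤ b ^ 2 - a * c := by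
        by_contra hcon
        push Not at hcon
        have : (b ^ 2 - a * c) ^ 3 < 0 := by
          have := Odd.pow_neg (n := 3) (by decide) hcon
          exact this
        linarith
      rcases h4.lt_or_eq with h5 | h5
      · exact h5
      · rw [← h5] at hdi
        nlinarith [sq_nonneg (b * c - a * d)]
    have h0R : (0 : ℝ) < ((b ^ 2 - a * c : ℤ) : ℝ) := by exact_mod_cast h0
    obtain ⟨z, hz, hz0⟩ := quad_root ((b ^ 2 - a * c : ℤ) : ℝ) ((b * c - a * d : ℤ) : ℝ)
      ((c ^ 2 - b * d : ℤ) : ℝ) h0R (by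
        have : (((b * c - a * d) ^ 2 - 4 * (b ^ 2 - a * c) * (c ^ 2 - b * d) : ℤ) : ℝ) < 0 := by
          rw [← hdi]; exact_mod_cast hlt
        push_cast at this ⊢
        linarith)
    obtain ⟨p, q, r, s, w, hdet, hw, hw3, hre, hw1, hrs, hzw⟩ := reduce z hz
    set a0 := cu a b c d p r with ha0
    set b0 := cb a b c d p q r s with hb0
    set c0 := cb a b c d q p s r with hc0
    set d0 := cu a b c d q s with hd0
    have hdisc : di a0 b0 c0 d0 = di a b c d := by
      rw [ha0, hb0, hc0, hd0, di_tr, hdet]; ring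
    have hhe : he (a0 : ℂ) b0 c0 d0 w 1 = 0 := by
      have e := he_trXY (a : ℂ) b c d p q r s w 1
      have e1 : (cu (a : ℂ) b c d p r) = (a0 : ℂ) := by rw [ha0]; unfold cu; push_cast; ring
      have e2 : (cb (a : ℂ) b c d p q r s) = (b0 : ℂ) := by rw [hb0]; unfold cb; push_cast; ring
      have e3 : (cb (a : ℂ) b c d q p s r) = (c0 : ℂ) := by rw [hc0]; unfold cb; push_cast; ring
      have e4 : (cu (a : ℂ) b c d q s) = (d0 : ℂ) := by rw [hd0]; unfold cu; push_cast; ring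
      rw [e1, e2, e3, e4] at e
      rw [e, mul_one, mul_one, ← hzw]
      have h5 : he (a : ℂ) b c d ((r * w + s) * z) (r * w + s) = (r * w + s) ^ 2 *
          ((((b ^ 2 - a * c : ℤ) : ℝ) : ℂ) * z ^ 2 + ((b * c - a * d : ℤ) : ℝ) * z +
            ((c ^ 2 - b * d : ℤ) : ℝ)) := by
        unfold he; push_cast; ring
      rw [h5, hz0]; ring
    -- real and imaginary parts
    have hh0 : 0 < b0 ^ 2 - a0 * c0 := by
      have e := he_tr a b c d p q r s
      rw [hdet, one_pow, one_mul] at e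
      rw [← ha0, ← hb0, ← hc0] at e
      rw [e]
      -- positive definite
      have e6 : 4 * (b ^ 2 - a * c) * he a b c d p r =
          (2 * (b ^ 2 - a * c) * p + (b * c - a * d) * r) ^ 2 - di a b c d * r ^ 2 := by
        rw [hdi]; unfold he; ring
      have e7 : 0 < (2 * (b ^ 2 - a * c) * p + (b * c - a * d) * r) ^ 2 - di a b c d * r ^ 2 := by
        rcases eq_or_ne r 0 with hr | hr
        · have hp : p ≠ 0 := by
            rintro rfl
            rw [hr] at hdet
            simp at hdet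
          rw [hr]
          have : 0 < (2 * (b ^ 2 - a * c) * p) ^ 2 := by
            have : 2 * (b ^ 2 - a * c) * p ≠ 0 := mul_ne_zero (by positivity) hp
            positivity
          nlinarith
        · have : 0 < r ^ 2 := by positivity
          nlinarith [sq_nonneg (2 * (b ^ 2 - a * c) * p + (b * c - a * d) * r)]
      by_contra hcon
      push Not at hcon
      have : 4 * (b ^ 2 - a * c) * he a b c d p r ≤ 0 := by
        apply mul_nonpos_of_nonneg_of_nonpos (by positivity) hcon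
      linarith
    set A : ℝ := ((b0 ^ 2 - a0 * c0 : ℤ) : ℝ) with hA
    set B : ℝ := ((b0 * c0 - a0 * d0 : ℤ) : ℝ) with hB
    set C : ℝ := ((c0 ^ 2 - b0 * d0 : ℤ) : ℝ) with hC
    have hA0 : 0 < A := by rw [hA]; exact_mod_cast hh0
    have hq : (A : ℂ) * w ^ 2 + B * w + C = 0 := by
      rw [← hhe, hA, hB, hC]; unfold he; push_cast; ring
    have him := congrArg Complex.im hq
    have hrr := congrArg Complex.re hq
    simp [sq] at him hrr
    have hB' : B = -(2 * A * w.re) := by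
      have : w.im * (B + 2 * A * w.re) = 0 := by linear_combination him
      rcases mul_eq_zero.1 this with h | h
      · exact absurd h hw.ne'
      · linarith
    have hC' : C = A * (w.re ^ 2 + w.im ^ 2) := by
      have : C = -(A * (w.re * w.re - w.im * w.im) + B * w.re) := by linarith
      rw [this, hB']; ring
    have hb1 : |b0 * c0 - a0 * d0| ≤ b0 ^ 2 - a0 * c0 := by
      have : |B| ≤ A := by
        rw [hB', abs_neg, abs_mul, abs_of_pos (by linarith : 0 < 2 * A)]
        nlinarith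
      rw [hA, hB] at this
      exact_mod_cast this
    have hb2 : b0 ^ 2 - a0 * c0 ≤ c0 ^ 2 - b0 * d0 := by
      have : A ≤ C := by rw [hC']; nlinarith
      rw [hA, hC] at this
      exact_mod_cast this
    have hbd := bound_neg a0 b0 c0 d0 M (by
      rw [hdisc]; exact (neg_le_abs _).trans hM) (by rw [hdisc]; exact hlt) hh0 hb1 hb2
    exact ⟨a0, b0, c0, d0, s, -r, conc p q r s hdet, hdisc, cu_eq_of a b c d p q r s hdet,
      he_eq_of a b c d p q r s hdet, hbd.1, hbd.2.1, hbd.2.2.1, hbd.2.2.2⟩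
  · -- positive discriminant
    have hgtR : 0 < di (a : ℝ) b c d := by
      have : (0 : ℝ) < ((di a b c d : ℤ) : ℝ) := by exact_mod_cast hgt
      have e : ((di a b c d : ℤ) : ℝ) = di (a : ℝ) b c d := by unfold di; push_cast; ring
      rwa [e] at this
    obtain ⟨z, hz, hz0⟩ := exists_root_pos (a : ℝ) b c d hgtR
    obtain ⟨p, q, r, s, w, hdet, hw, hw3, hre, hw1, hrs, hzw⟩ := reduce z hz
    set a0 := cu a b c d p r with ha0
    set b0 := cb a b c d p q r s with hb0
    set c0 := cb a b c d q p s r with hc0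
    set d0 := cu a b c d q s with hd0
    have hdisc : di a0 b0 c0 d0 = di a b c d := by
      rw [ha0, hb0, hc0, hd0, di_tr, hdet]; ring
    have hroot : cu (a0 : ℂ) b0 c0 d0 w 1 = 0 := by
      have e := cu_tr (a : ℂ) b c d p q r s w 1
      have e1 : (cu (a : ℂ) b c d p r) = (a0 : ℂ) := by rw [ha0]; unfold cu; push_cast; ring
      have e2 : (cb (a : ℂ) b c d p q r s) = (b0 : ℂ) := by rw [hb0]; unfold cb; push_cast; ring
      have e3 : (cb (a : ℂ) b c d q p s r) = (c0 : ℂ) := by rw [hc0]; unfold cb; push_cast; ring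
      have e4 : (cu (a : ℂ) b c d q s) = (d0 : ℂ) := by rw [hd0]; unfold cu; push_cast; ring
      rw [e1, e2, e3, e4] at e
      rw [e, mul_one, mul_one, ← hzw]
      have h5 : cu (a : ℂ) b c d ((r * w + s) * z) (r * w + s) = (r * w + s) ^ 3 *
          cu (a : ℂ) b c d z 1 := by
        unfold cu; ring
      rw [h5]
      have h6 : cu (a : ℂ) b c d z 1 = 0 := by simpa using hz0
      rw [h6]; ring
    have hbd := bound_pos a0 b0 c0 d0 M (by rw [hdisc]; exact (le_abs_self _).trans hM) hM1 w hw hw3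
      hre hroot (by rw [hdisc]; exact hne)
    refine ⟨a0, b0, c0, d0, s, -r, conc p q r s hdet, hdisc, cu_eq_of a b c d p q r s hdet,
      he_eq_of a b c d p q r s hdet, ?_, ?_, ?_, ?_⟩
    · exact hbd.1.trans (by linarith)
    · exact hbd.2.1.trans (by linarith)
    · exact hbd.2.2.1.trans (by linarith)
    · exact hbd.2.2.2.trans (by linarith)

end Pool.Agent.NH26.HC
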