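import Mathlib

/-!
Points of `y² = x³ + D m²` and `y² = x³ + D m³` with coprime `x`, `y` come from binary cubic and
quartic forms of bounded invariants.
-/

set_option autoImplicit false

namespace Pool.Agent.NH26.HC

/-- `x` is prime to `m` if `x`, `y` are coprime and `y² - x³` is divisible by `m` -/
theorem coprime_xm {x y m k : ℤ} (hxy : IsCoprime x y) (h : y ^ 2 - x ^ 3 = k * m) :
    IsCoprime x m := by
  have h1 : IsCoprime x (y ^ 2) := hxy.pow_right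
  have h2 : y ^ 2 = k * m + x * x ^ 2 := by linear_combination h
  rw [h2] at h1
  have h3 : IsCoprime x (k * m) := by
    have := IsCoprime.add_mul_left_right_iff (x := x) (y := k * m) (z := x ^ 2)
    exact this.1 h1
  exact h3.of_mul_right_right

/-- the parameter `r` modulo `N` -/
theorem exists_r {x y N : ℤ} (hx : IsCoprime x N) (h : N ∣ y ^ 2 - x ^ 3) :
    ∃ r : ℤ, N ∣ r * x - y ∧ N ∣ r ^ 2 - x ∧ N ∣ r ^ 3 - 3 * x * r + 2 * y ∧
      N ∣ r ^ 4 - 6 * x * r ^ 2 + 8 * y * r - 3 * x ^ 2 := by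
  obtain ⟨a, b, hab⟩ := hx
  have h1 : N ∣ (a * y) * x - y := ⟨-b * y, by linear_combination y * hab⟩
  set r := a * y with hr
  have h2 : N ∣ x ^ 2 * (r ^ 2 - x) := by
    obtain ⟨s, hs⟩ := h1
    obtain ⟨t, ht⟩ := h
    exact ⟨s * (r * x + y) + t, by linear_combination (r * x + y) * hs + ht⟩
  have hc : IsCoprime N (x ^ 2) := (IsCoprime.pow_right ⟨b, a, by linear_combination hab⟩)
  have h3 : N ∣ r ^ 2 - x := hc.dvd_of_dvd_mul_left h2
  obtain ⟨s, hs⟩ := h1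
  obtain ⟨t, ht⟩ := h3
  refine ⟨r, ⟨s, hs⟩, ⟨t, ht⟩, ⟨r * t - 2 * s, ?_⟩, ⟨(r ^ 2 + 3 * x) * t - 8 * r * s, ?_⟩⟩
  · linear_combination r * ht - 2 * hs
  · linear_combination (r ^ 2 + 3 * x) * ht - 8 * r * hs

/-- the cubic form of a point of `y² = x³ + D m²` -/
theorem cubic_form {x y m D : ℤ} (hx : IsCoprime x m) (hm : m ≠ 0)
    (h : y ^ 2 - x ^ 3 = D * m ^ 2) :
    ∃ b c d : ℤ, b ^ 2 - m * c = x ∧ m ^ 2 * d - 3 * m * b * c + 2 * b ^ 3 = 2 * y ∧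
      m ^ 2 * d ^ 2 - 6 * m * b * c * d + 4 * m * c ^ 3 + 4 * b ^ 3 * d - 3 * b ^ 2 * c ^ 2 =
        4 * D := by
  obtain ⟨r, -, h2, h3, -⟩ := exists_r (N := m ^ 2) hx.pow_right ⟨D, by rw [h]; ring⟩
  obtain ⟨t, ht⟩ := h2
  obtain ⟨d, hd⟩ := h3
  refine ⟨r, m * t, d, ?_, ?_, ?_⟩
  · linear_combination ht
  · linear_combination 3 * r * ht - hd
  · have hm2 : m ^ 2 ≠ 0 := pow_ne_zero _ hm
    apply mul_left_cancel₀ hm2
    have hx' : x = r ^ 2 - m ^ 2 * t := by linear_combination -ht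
    have hy' : 2 * y = m ^ 2 * d - r ^ 3 + 3 * x * r := by linear_combination hd
    have h4 : (2 * y) ^ 2 - 4 * x ^ 3 = 4 * D * m ^ 2 := by linear_combination 4 * h
    rw [hy', hx'] at h4
    linear_combination h4

/-- the quartic form of a point of `y² = x³ + D m³` -/
theorem quartic_form {x y m D : ℤ} (hx : IsCoprime x m) (hm : m ≠ 0)
    (h : y ^ 2 - x ^ 3 = D * m ^ 3) :
    ∃ b c d e : ℤ, b ^ 2 - m * c = x ∧ m ^ 2 * d - 3 * m * b * c + 2 * b ^ 3 = 2 * y ∧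
      m * e - 4 * b * d + 3 * c ^ 2 = 0 ∧
      m * c * e + 2 * b * c * d - m * d ^ 2 - b ^ 2 * e - c ^ 3 = -4 * D := by
  obtain ⟨r, -, h2, h3, h4⟩ := exists_r (N := m ^ 3) hx.pow_right ⟨D, by rw [h]; ring⟩
  obtain ⟨t, ht⟩ := h2
  obtain ⟨d, hd⟩ := h3
  obtain ⟨e, he⟩ := h4
  have hx' : x = r ^ 2 - m ^ 3 * t := by linear_combination -ht
  have hy' : 2 * y = m ^ 3 * d - r ^ 3 + 3 * x * r := by linear_combination hd
  have hm3 : m ^ 3 ≠ 0 := pow_ne_zero _ hm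
  have hI : m * e - 4 * r * (m * d) + 3 * (m ^ 2 * t) ^ 2 = 0 := by
    apply mul_left_cancel₀ (pow_ne_zero 2 hm)
    rw [mul_zero]
    have : m ^ 3 * e = r ^ 4 - 6 * x * r ^ 2 + 4 * (2 * y) * r - 3 * x ^ 2 := by
      linear_combination -he
    rw [hy', hx'] at this
    linear_combination this
  refine ⟨r, m ^ 2 * t, m * d, e, ?_, ?_, hI, ?_⟩
  · linear_combination ht
  · linear_combination 3 * r * ht - hd
  · apply mul_left_cancel₀ hm3
    have h5 : (2 * y) ^ 2 - 4 * x ^ 3 = 4 * D * m ^ 3 := by linear_combination 4 * h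
    rw [hy', hx'] at h5
    linear_combination m ^ 2 * (m * (m ^ 2 * t) - r ^ 2) * hI - h5

end Pool.Agent.NH26.HC
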