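import Mathlib
import Pool.Agent.NH26.HC.Cubic
import Pool.Agent.Y670.RD.Rid

/-!
Ridout's theorem for values of binary forms, with shears.
-/

set_option autoImplicit false

namespace Pool.Agent.NH26.HC

open Polynomial Finset Pool.Agent.Y670.RD

/-- the size of the part of `n` prime to `T` -/
noncomputable def tp (T : Finset ℕ) (n : ℤ) : ℝ := |(n : ℝ)| * ∏ p ∈ T, (padicNorm p (n : ℚ) : ℝ)

theorem sqf_of (g : ℤ[X]) (h : ∀ z : ℂ, aeval z g = 0 → aeval z (derivative g) ≠ 0) :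
    Squarefree (g.map (Int.castRingHom ℚ)) := by
  have hs : (g.map (Int.castRingHom ℚ)).Separable := by
    unfold Separable
    rw [Polynomial.isCoprime_iff_aeval_ne_zero_of_isAlgClosed ℚ ℂ]
    intro z
    by_contra hcon
    push Not at hcon
    have e1 : aeval z (g.map (Int.castRingHom ℚ)) = aeval z g := by
      have := Polynomial.aeval_map_algebraMap (R := ℤ) ℚ z g
      simpa using this
    have e2 : aeval z (derivative (g.map (Int.castRingHom ℚ))) = aeval z (derivative g) := by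
      rw [derivative_map]
      have := Polynomial.aeval_map_algebraMap (R := ℤ) ℚ z (derivative g)
      simpa using this
    rw [e1, e2] at hcon
    exact h z hcon.1 hcon.2
  exact hs.squarefree

/-- the bound for a form, from the bound for a sheared form -/
theorem shear_bound (T : Finset ℕ) (Φ : ℤ → ℤ → ℤ) (j : ℤ) (e : ℝ) (he : 0 ≤ e) (κ : ℝ) (hκ : 0 < κ)
    (h : ∀ s t : ℤ, IsCoprime s t → Φ s (j * s + t) ≠ 0 →
      κ * (max |(s : ℝ)| |(t : ℝ)|) ^ e ≤ tp T (Φ s (j * s + t))) :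
    ∃ κ' : ℝ, 0 < κ' ∧ ∀ s t : ℤ, IsCoprime s t → Φ s t ≠ 0 →
      κ' * (max |(s : ℝ)| |(t : ℝ)|) ^ e ≤ tp T (Φ s t) := by
  have hj : (0 : ℝ) < 1 + |(j : ℝ)| := by positivity
  refine ⟨κ * ((1 + |(j : ℝ)|) ^ e)⁻¹, by positivity, fun s t hst hne => ?_⟩
  have h1 : j * s + (t - j * s) = t := by ring
  have hc : IsCoprime s (t - j * s) := by
    have := (IsCoprime.add_mul_left_right_iff (x := s) (y := t) (z := -j)).2 hst
    rwa [show t + s * -j = t - j * s by ring] at this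
  have h2 := h s (t - j * s) hc (by rw [h1]; exact hne)
  rw [h1] at h2
  refine le_trans ?_ h2
  have h3 : max |(s : ℝ)| |(t : ℝ)| ≤ (1 + |(j : ℝ)|) * max |(s : ℝ)| |((t - j * s : ℤ) : ℝ)| := by
    have hm1 := le_max_left |(s : ℝ)| |((t - j * s : ℤ) : ℝ)|
    have hm2 := le_max_right |(s : ℝ)| |((t - j * s : ℤ) : ℝ)|
    set m := max |(s : ℝ)| |((t - j * s : ℤ) : ℝ)|
    have hm0 : 0 ≤ m := (abs_nonneg _).trans hm1
    refine max_le ?_ ?_
    · nlinarith [abs_nonneg (j : ℝ)]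
    · have : (t : ℝ) = ((t - j * s : ℤ) : ℝ) + j * s := by push_cast; ring
      rw [this]
      calc |((t - j * s : ℤ) : ℝ) + j * s| ≤ |((t - j * s : ℤ) : ℝ)| + |(j : ℝ) * s| := abs_add_le _ _
        _ = |((t - j * s : ℤ) : ℝ)| + |(j : ℝ)| * |(s : ℝ)| := by rw [abs_mul]
        _ ≤ m + |(j : ℝ)| * m := by
          have := mul_le_mul_of_nonneg_left hm1 (abs_nonneg (j : ℝ))
          linarith
        _ = (1 + |(j : ℝ)|) * m := by ring
  have h4 := Real.rpow_le_rpow (le_max_of_le_left (abs_nonneg _)) h3 he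
  rw [Real.mul_rpow hj.le (le_max_of_le_left (abs_nonneg _))] at h4
  calc κ * ((1 + |(j : ℝ)|) ^ e)⁻¹ * (max |(s : ℝ)| |(t : ℝ)|) ^ e
      ≤ κ * ((1 + |(j : ℝ)|) ^ e)⁻¹ * ((1 + |(j : ℝ)|) ^ e *
        (max |(s : ℝ)| |((t - j * s : ℤ) : ℝ)|) ^ e) := by
        apply mul_le_mul_of_nonneg_left h4 (by positivity)
    _ = κ * (max |(s : ℝ)| |((t - j * s : ℤ) : ℝ)|) ^ e := by
        have : (1 + |(j : ℝ)|) ^ e ≠ 0 := by positivity
        field_simp

/-- the polynomial of a cubic form -/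
noncomputable def gc (a b c d : ℤ) : ℤ[X] := C a * X ^ 3 + C (3 * b) * X ^ 2 + C (3 * c) * X + C d

theorem gc_deg (a b c d : ℤ) (ha : a ≠ 0) : (gc a b c d).natDegree = 3 := by
  unfold gc
  compute_degree!

theorem gc_fv (a b c d s t : ℤ) : fv 3 (gc a b c d) s t = cu a b c d s t := by
  unfold fv gc cu
  simp only [sum_range_succ, range_zero, sum_empty, coeff_add, coeff_C_mul, coeff_X_pow, coeff_X,
    coeff_C]
  norm_num
  ring

theorem gc_sqf (a b c d : ℤ) (h : di a b c d ≠ 0) :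
    Squarefree ((gc a b c d).map (Int.castRingHom ℚ)) := by
  apply sqf_of
  intro z h1 h2
  apply h
  simp only [gc, map_add, map_mul, map_pow, aeval_X, aeval_C, derivative_mul,
    derivative_X_pow, derivative_X, derivative_C] at h1 h2
  simp at h1 h2
  have h3 : (a : ℂ) * z ^ 2 + 2 * b * z + c = 0 := by
    linear_combination (1 / 3 : ℂ) * h2
  have h4 : ((di a b c d : ℤ) : ℂ) = 0 := by
    unfold di
    push_cast
    have e : (a : ℂ) ^ 2 * d ^ 2 - 6 * a * b * c * d + 4 * a * c ^ 3 + 4 * b ^ 3 * d -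
        3 * b ^ 2 * c ^ 2 = (a : ℂ) ^ 2 * (a * z ^ 3 + 3 * b * z ^ 2 + 3 * c * z + d) ^ 2 -
          6 * a * (a * z + b) * (a * z ^ 2 + 2 * b * z + c) *
            (a * z ^ 3 + 3 * b * z ^ 2 + 3 * c * z + d) +
          4 * a * (a * z ^ 2 + 2 * b * z + c) ^ 3 +
          4 * (a * z + b) ^ 3 * (a * z ^ 3 + 3 * b * z ^ 2 + 3 * c * z + d) -
          3 * (a * z + b) ^ 2 * (a * z ^ 2 + 2 * b * z + c) ^ 2 := by ring
    rw [e, h1, h3]
    ring
  exact_mod_cast h4

/-- a cubic form of nonzero discriminant does not vanish at some `(1, j)` -/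
theorem cu_ne (a b c d : ℤ) (h : di a b c d ≠ 0) : ∃ j : ℤ, cu a b c d 1 j ≠ 0 := by
  by_contra hcon
  push Not at hcon
  have h0 := hcon 0
  have h1 := hcon 1
  have h2 := hcon (-1)
  have h3 := hcon 2
  unfold cu at h0 h1 h2 h3
  have ha : a = 0 := by linear_combination h0
  have hd : d = 0 := by omega
  have hb : b = 0 := by omega
  have hc : c = 0 := by omega
  apply h
  rw [ha, hb, hc, hd]
  unfold di
  ring

/-- **Ridout for a cubic form** -/
theorem rid_cu (a b c d : ℤ) (h : di a b c d ≠ 0) (T : Finset ℕ) (hT : ∀ p ∈ T, p.Prime) (ε : ℝ)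
    (hε : 0 < ε) (hε1 : ε ≤ 1) :
    ∃ κ : ℝ, 0 < κ ∧ ∀ s t : ℤ, IsCoprime s t → cu a b c d s t ≠ 0 →
      κ * (max |(s : ℝ)| |(t : ℝ)|) ^ (1 - ε) ≤ tp T (cu a b c d s t) := by
  obtain ⟨j, hj⟩ := cu_ne a b c d h
  set a' := cu a b c d 1 j with ha'
  set b' := cb a b c d 1 0 j 1 with hb'
  set c' := cb a b c d 0 1 1 j with hc'
  set d' := cu a b c d 0 1 with hd'
  have hdi : di a' b' c' d' ≠ 0 := by
    have := di_tr a b c d 1 0 j 1
    rw [← ha', ← hb', ← hc', ← hd'] at this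
    rw [this]
    simpa using h
  obtain ⟨κ, hκ, hb⟩ := rid_form' (gc a' b' c' d') (gc_sqf _ _ _ _ hdi)
    (by rw [gc_deg _ _ _ _ hj]; norm_num) T hT ε hε
  refine shear_bound T (fun s t => cu a b c d s t) j (1 - ε) (by linarith) κ hκ ?_
  intro s t hst hne
  have e1 : cu a b c d s (j * s + t) = cu a' b' c' d' s t := by
    have := cu_tr a b c d 1 0 j 1 s t
    rw [← ha', ← hb', ← hc', ← hd'] at this
    rw [this]
    congr 1
    ring
    ring
  have := hb s t hst
  rw [gc_deg _ _ _ _ hj, gc_fv, ← e1] at this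
  have h3 := this hne
  unfold tp
  have e2 : ((3 : ℕ) : ℝ) - 2 - ε = 1 - ε := by norm_num
  rw [e2] at h3
  exact h3

end Pool.Agent.NH26.HC
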