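import Mathlib
import Pool.Agent.NH26.HC.Param
import Pool.Agent.NH26.HC.CubicRed2
import Pool.Agent.NH26.HC.Sqf

/-!
`y² - x³ = D M²` with `x` prime to `M` and `D` bounded.
-/

set_option autoImplicit false

namespace Pool.Agent.NH26.HC

open Finset

/-- a uniform constant over a finite set -/
theorem unif {α : Type*} {S : Set α} (hS : S.Finite) (P : ℝ → α → Prop)
    (hm : ∀ c c' a, 0 < c' → c' ≤ c → P c a → P c' a)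
    (h : ∀ a ∈ S, ∃ c, 0 < c ∧ P c a) : ∃ c, 0 < c ∧ ∀ a ∈ S, P c a := by
  induction S, hS using Set.Finite.induction_on with
  | empty => exact ⟨1, one_pos, fun a ha => absurd ha (Set.notMem_empty a)⟩
  | insert _ _ ih =>
    obtain ⟨c1, hc1, h1⟩ := ih (fun a ha => h a (Set.mem_insert_of_mem _ ha))
    obtain ⟨c2, hc2, h2⟩ := h _ (Set.mem_insert _ _)
    refine ⟨min c1 c2, lt_min hc1 hc2, fun a ha => ?_⟩
    rcases Set.mem_insert_iff.1 ha with h3 | h3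
    · rw [h3]
      exact hm c2 _ _ (lt_min hc1 hc2) (min_le_right _ _) h2
    · exact hm c1 _ _ (lt_min hc1 hc2) (min_le_left _ _) (h1 a h3)

theorem pow6 {X Y C Z e : ℝ} (hX : 0 ≤ X) (hC : 0 < C) (hZ : 0 ≤ Z) (he : 0 ≤ e)
    (h1 : X ≤ C * Z ^ 6) (h2 : Y ≤ C * Z ^ 6) :
    (max X Y) ^ (e / 6) ≤ C ^ (e / 6) * Z ^ e := by
  have h3 : max X Y ≤ C * Z ^ 6 := max_le h1 h2
  have h4 := Real.rpow_le_rpow (le_max_of_le_left hX) h3 (by positivity : 0 ≤ e / 6)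
  rw [Real.mul_rpow hC.le (by positivity), ← Real.rpow_natCast, ← Real.rpow_mul hZ] at h4
  have e1 : ((6 : ℕ) : ℝ) * (e / 6) = e := by push_cast; ring
  rwa [e1] at h4

theorem finite_box4 (K : ℝ) : {f : ℤ × ℤ × ℤ × ℤ | |(f.1 : ℝ)| ≤ K ∧ |(f.2.1 : ℝ)| ≤ K ∧
    |(f.2.2.1 : ℝ)| ≤ K ∧ |(f.2.2.2 : ℝ)| ≤ K}.Finite := by
  apply Set.Finite.subset (s := (Set.Icc (-⌊K⌋) ⌊K⌋) ×ˢ ((Set.Icc (-⌊K⌋) ⌊K⌋) ×ˢ
    ((Set.Icc (-⌊K⌋) ⌊K⌋) ×ˢ (Set.Icc (-⌊K⌋) ⌊K⌋))))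
  · exact (Set.finite_Icc _ _).prod ((Set.finite_Icc _ _).prod
      ((Set.finite_Icc _ _).prod (Set.finite_Icc _ _)))
  · have key : ∀ n : ℤ, |(n : ℝ)| ≤ K → n ∈ Set.Icc (-⌊K⌋) ⌊K⌋ := by
      intro n hn
      have : ((|n| : ℤ) : ℝ) ≤ K := by push_cast; exact hn
      have h1 : |n| ≤ ⌊K⌋ := Int.le_floor.2 this
      exact ⟨(abs_le.1 h1).1, (abs_le.1 h1).2⟩
    rintro ⟨a, b, c, d⟩ ⟨h1, h2, h3, h4⟩
    exact ⟨key _ h1, key _ h2, key _ h3, key _ h4⟩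

theorem cu_le (a b c d s t : ℤ) (K : ℝ) (ha : |(a : ℝ)| ≤ K) (hb : |(b : ℝ)| ≤ K)
    (hc : |(c : ℝ)| ≤ K) (hd : |(d : ℝ)| ≤ K) :
    |((cu a b c d s t : ℤ) : ℝ)| ≤ 8 * K * (max |(s : ℝ)| |(t : ℝ)|) ^ 3 := by
  have hs := le_max_left |(s : ℝ)| |(t : ℝ)|
  have ht := le_max_right |(s : ℝ)| |(t : ℝ)|
  set Z := max |(s : ℝ)| |(t : ℝ)|
  have hZ : 0 ≤ Z := (abs_nonneg _).trans hs
  have hK : 0 ≤ K := (abs_nonneg _).trans ha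
  have m1 : |(a : ℝ) * s ^ 3| ≤ K * Z ^ 3 := by
    rw [abs_mul, abs_pow]
    exact mul_le_mul ha (pow_le_pow_left₀ (abs_nonneg _) hs 3) (by positivity) hK
  have m2 : |(b : ℝ) * (s ^ 2 * t)| ≤ K * Z ^ 3 := by
    rw [abs_mul, abs_mul, abs_pow, pow_succ Z 2]
    exact mul_le_mul hb (mul_le_mul (pow_le_pow_left₀ (abs_nonneg _) hs 2) ht (abs_nonneg _)
      (by positivity)) (by positivity) hK
  have m3 : |(c : ℝ) * (t ^ 2 * s)| ≤ K * Z ^ 3 := by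
    rw [abs_mul, abs_mul, abs_pow, pow_succ Z 2]
    exact mul_le_mul hc (mul_le_mul (pow_le_pow_left₀ (abs_nonneg _) ht 2) hs (abs_nonneg _)
      (by positivity)) (by positivity) hK
  have m4 : |(d : ℝ) * t ^ 3| ≤ K * Z ^ 3 := by
    rw [abs_mul, abs_pow]
    exact mul_le_mul hd (pow_le_pow_left₀ (abs_nonneg _) ht 3) (by positivity) hK
  unfold cu
  push_cast
  rw [abs_le] at m1 m2 m3 m4 ⊢
  constructor <;> nlinarith [m1.1, m1.2, m2.1, m2.2, m3.1, m3.2, m4.1, m4.2]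

theorem he_le (a b c d s t : ℤ) (K : ℝ) (ha : |(a : ℝ)| ≤ K) (hb : |(b : ℝ)| ≤ K)
    (hc : |(c : ℝ)| ≤ K) (hd : |(d : ℝ)| ≤ K) :
    |((he a b c d s t : ℤ) : ℝ)| ≤ 6 * K ^ 2 * (max |(s : ℝ)| |(t : ℝ)|) ^ 2 := by
  have hs := le_max_left |(s : ℝ)| |(t : ℝ)|
  have ht := le_max_right |(s : ℝ)| |(t : ℝ)|
  set Z := max |(s : ℝ)| |(t : ℝ)|
  have hZ : 0 ≤ Z := (abs_nonneg _).trans hs
  have hK : 0 ≤ K := (abs_nonneg _).trans ha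
  have pr : ∀ u v : ℤ, |(u : ℝ)| ≤ K → |(v : ℝ)| ≤ K → |(u : ℝ) * v| ≤ K ^ 2 := by
    intro u v hu hv
    rw [abs_mul, sq]
    exact mul_le_mul hu hv (abs_nonneg _) hK
  have c1 : |(b : ℝ) ^ 2 - a * c| ≤ 2 * K ^ 2 := by
    have h1 := pr b b hb hb
    have h2 := pr a c ha hc
    rw [abs_le] at h1 h2 ⊢
    constructor <;> nlinarith
  have c2 : |(b : ℝ) * c - a * d| ≤ 2 * K ^ 2 := by
    have h1 := pr b c hb hc
    have h2 := pr a d ha hd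
    rw [abs_le] at h1 h2 ⊢
    constructor <;> nlinarith
  have c3 : |(c : ℝ) ^ 2 - b * d| ≤ 2 * K ^ 2 := by
    have h1 := pr c c hc hc
    have h2 := pr b d hb hd
    rw [abs_le] at h1 h2 ⊢
    constructor <;> nlinarith
  have m1 : |((b : ℝ) ^ 2 - a * c) * s ^ 2| ≤ 2 * K ^ 2 * Z ^ 2 := by
    rw [abs_mul, abs_pow]
    exact mul_le_mul c1 (pow_le_pow_left₀ (abs_nonneg _) hs 2) (by positivity) (by positivity)
  have m2 : |((b : ℝ) * c - a * d) * (s * t)| ≤ 2 * K ^ 2 * Z ^ 2 := by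
    rw [abs_mul, abs_mul, sq Z]
    exact mul_le_mul c2 (mul_le_mul hs ht (abs_nonneg _) hZ) (by positivity) (by positivity)
  have m3 : |((c : ℝ) ^ 2 - b * d) * t ^ 2| ≤ 2 * K ^ 2 * Z ^ 2 := by
    rw [abs_mul, abs_pow]
    exact mul_le_mul c3 (pow_le_pow_left₀ (abs_nonneg _) ht 2) (by positivity) (by positivity)
  unfold he
  push_cast
  rw [abs_le] at m1 m2 m3 ⊢
  constructor <;> nlinarith [m1.1, m1.2, m2.1, m2.2, m3.1, m3.2]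

/-- the bound of `y` -/
theorem y_le {x y k : ℤ} {C1 C2 Z : ℝ} (h : y ^ 2 - x ^ 3 = k) (hZ : 0 ≤ Z) (hC1 : 0 ≤ C1)
    (h1 : |(x : ℝ)| ≤ C1 * Z ^ 2) (h2 : |(k : ℝ)| ≤ C2 * Z ^ 6) :
    |(x : ℝ)| ^ 3 ≤ (C1 ^ 3 + C2) * Z ^ 6 ∧ (y : ℝ) ^ 2 ≤ (C1 ^ 3 + C2) * Z ^ 6 := by
  have h3 : |(x : ℝ)| ^ 3 ≤ (C1 * Z ^ 2) ^ 3 := pow_le_pow_left₀ (abs_nonneg _) h1 3
  have h4 : (y : ℝ) ^ 2 = (x : ℝ) ^ 3 + k := by
    have : ((y ^ 2 - x ^ 3 : ℤ) : ℝ) = k := by rw [h]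
    push_cast at this
    linarith
  have h5 : (x : ℝ) ^ 3 ≤ |(x : ℝ)| ^ 3 := by
    rw [← abs_pow]; exact le_abs_self _
  have h6 : (0 : ℝ) ≤ C2 * Z ^ 6 := (abs_nonneg _).trans h2
  have h7 := le_abs_self (k : ℝ)
  constructor <;> nlinarith

/-- **the case of squares** -/
theorem core2 (T : Finset ℕ) (hT : ∀ p ∈ T, p.Prime) (ε : ℝ) (hε : 0 < ε) (hε1 : ε ≤ 1)
    (B : ℝ) :
    ∃ κ : ℝ, 0 < κ ∧ ∀ x y M D : ℤ, D ≠ 0 → |(D : ℝ)| ≤ B → M ≠ 0 → IsCoprime x M →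
      y ^ 2 - x ^ 3 = D * M ^ 2 →
      κ * (max (|(x : ℝ)| ^ 3) ((y : ℝ) ^ 2)) ^ ((1 - ε) / 6) ≤ tp T M := by
  set Mx : ℝ := 4 * max B 1 with hMx
  set K : ℝ := 1000 * Mx ^ 3 with hK
  have hMx0 : 0 < Mx := by positivity
  have hK0 : 0 < K := by positivity
  set S : Set (ℤ × ℤ × ℤ × ℤ) := {f : ℤ × ℤ × ℤ × ℤ | (|(f.1 : ℝ)| ≤ K ∧ |(f.2.1 : ℝ)| ≤ K ∧
    |(f.2.2.1 : ℝ)| ≤ K ∧ |(f.2.2.2 : ℝ)| ≤ K) ∧ di f.1 f.2.1 f.2.2.1 f.2.2.2 ≠ 0} with hS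
  have hSf : S.Finite := (finite_box4 K).subset (fun f hf => hf.1)
  obtain ⟨κ, hκ, hb⟩ := unif hSf (fun κ f => ∀ s t : ℤ, IsCoprime s t →
    cu f.1 f.2.1 f.2.2.1 f.2.2.2 s t ≠ 0 →
      κ * (max |(s : ℝ)| |(t : ℝ)|) ^ (1 - ε) ≤ tp T (cu f.1 f.2.1 f.2.2.1 f.2.2.2 s t))
    (by
      intro c c' f hc' hcc h s t hst hne
      refine le_trans ?_ (h s t hst hne)
      exact mul_le_mul_of_nonneg_right hcc (Real.rpow_nonneg (le_max_of_le_left (abs_nonneg _)) _))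
    (fun f hf => rid_cu f.1 f.2.1 f.2.2.1 f.2.2.2 hf.2 T hT ε hε hε1)
  set C : ℝ := (6 * K ^ 2) ^ 3 + |B| * (8 * K) ^ 2 with hC
  have hC0 : 0 < C := by positivity
  refine ⟨κ * (C ^ ((1 - ε) / 6))⁻¹, by positivity, ?_⟩
  intro x y M D hD hDB hM hxM h
  obtain ⟨b, c, d, e1, e2, e3⟩ := cubic_form hxM hM h
  have hdi : di M b c d = 4 * D := by unfold di; exact e3
  have hdi0 : di M b c d ≠ 0 := by rw [hdi]; omega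
  obtain ⟨a0, b0, c0, d0, u, v, huv, hdisc, hcu, hhe, k1, k2, k3, k4⟩ :=
    cubic_reduce M b c d hdi0 Mx (by
      rw [hdi, hMx]
      push_cast
      rw [abs_mul]
      have : |(4 : ℝ)| = 4 := by norm_num
      rw [this]
      have := le_max_left B 1
      nlinarith)
  have hmem : ((a0, b0, c0, d0) : ℤ × ℤ × ℤ × ℤ) ∈ S :=
    ⟨⟨k1, k2, k3, k4⟩, by show di a0 b0 c0 d0 ≠ 0; rw [hdisc]; exact hdi0⟩
  have h1 := hb _ hmem u v huv (by show cu a0 b0 c0 d0 u v ≠ 0; rw [hcu]; exact hM)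
  have h1' : κ * (max |(u : ℝ)| |(v : ℝ)|) ^ (1 - ε) ≤ tp T M := by
    have e : cu a0 b0 c0 d0 u v = M := hcu
    rw [← e]
    exact h1
  set Z := max |(u : ℝ)| |(v : ℝ)| with hZ
  have hZ0 : 0 ≤ Z := le_max_of_le_left (abs_nonneg _)
  have hx1 : |(x : ℝ)| ≤ 6 * K ^ 2 * Z ^ 2 := by
    have := he_le a0 b0 c0 d0 u v K k1 k2 k3 k4
    rw [hhe, e1] at this
    exact this
  have hM1 : |(M : ℝ)| ≤ 8 * K * Z ^ 3 := by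
    have := cu_le a0 b0 c0 d0 u v K k1 k2 k3 k4
    rw [hcu] at this
    exact this
  have hk1 : |((D * M ^ 2 : ℤ) : ℝ)| ≤ |B| * (8 * K) ^ 2 * Z ^ 6 := by
    push_cast
    rw [abs_mul, abs_pow]
    have h2 : |(M : ℝ)| ^ 2 ≤ (8 * K * Z ^ 3) ^ 2 := pow_le_pow_left₀ (abs_nonneg _) hM1 2
    have h3 : |(D : ℝ)| ≤ |B| := hDB.trans (le_abs_self _)
    calc |(D : ℝ)| * |(M : ℝ)| ^ 2 ≤ |B| * (8 * K * Z ^ 3) ^ 2 :=
          mul_le_mul h3 h2 (by positivity) (abs_nonneg _)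
      _ = |B| * (8 * K) ^ 2 * Z ^ 6 := by ring
  obtain ⟨hy1, hy2⟩ := y_le h hZ0 (by positivity) hx1 hk1
  have h6 := pow6 (e := 1 - ε) (by positivity) hC0 hZ0 (by linarith) hy1 hy2
  calc κ * (C ^ ((1 - ε) / 6))⁻¹ * (max (|(x : ℝ)| ^ 3) ((y : ℝ) ^ 2)) ^ ((1 - ε) / 6)
      ≤ κ * (C ^ ((1 - ε) / 6))⁻¹ * (C ^ ((1 - ε) / 6) * Z ^ (1 - ε)) :=
        mul_le_mul_of_nonneg_left h6 (by positivity)
    _ = κ * Z ^ (1 - ε) := by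
        have : C ^ ((1 - ε) / 6) ≠ 0 := by positivity
        field_simp
    _ ≤ tp T M := h1'

end Pool.Agent.NH26.HC
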