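import Mathlib
import Pool.Agent.NH26.HC.Red

/-!
Binary quartic forms `a X⁴ + 4 b X³ Y + 6 c X² Y² + 4 d X Y³ + e Y⁴`: covariants.
-/

set_option autoImplicit false

namespace Pool.Agent.NH26.HC

section ring

variable {R : Type*} [CommRing R]

/-- the value of a quartic form -/
def qu (a b c d e u v : R) : R :=
  a * u ^ 4 + 4 * b * u ^ 3 * v + 6 * c * u ^ 2 * v ^ 2 + 4 * d * u * v ^ 3 + e * v ^ 4

/-- the invariant of degree two -/
def qi (a b c d e : R) : R := a * e - 4 * b * d + 3 * c ^ 2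

/-- the invariant of degree three -/
def qj (a b c d e : R) : R := a * c * e + 2 * b * c * d - a * d ^ 2 - b ^ 2 * e - c ^ 3

/-- the Hessian -/
def hq (a b c d e u v : R) : R :=
  (b ^ 2 - a * c) * u ^ 4 + 2 * (b * c - a * d) * u ^ 3 * v +
    (3 * c ^ 2 - a * e - 2 * b * d) * u ^ 2 * v ^ 2 + 2 * (c * d - b * e) * u * v ^ 3 +
    (d ^ 2 - c * e) * v ^ 4

/-- the sextic covariant -/
def tq (a b c d e u v : R) : R :=
  (a ^ 2 * d - 3 * a * b * c + 2 * b ^ 3) * u ^ 6 +
    (a ^ 2 * e + 2 * a * b * d - 9 * a * c ^ 2 + 6 * b ^ 2 * c) * u ^ 5 * v +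
    5 * (a * b * e - 3 * a * c * d + 2 * b ^ 2 * d) * u ^ 4 * v ^ 2 +
    10 * (b ^ 2 * e - a * d ^ 2) * u ^ 3 * v ^ 3 -
    5 * (a * d * e - 3 * b * c * e + 2 * b * d ^ 2) * u ^ 2 * v ^ 4 -
    (a * e ^ 2 + 2 * b * d * e - 9 * c ^ 2 * e + 6 * c * d ^ 2) * u * v ^ 5 -
    (b * e ^ 2 - 3 * c * d * e + 2 * d ^ 3) * v ^ 6

theorem qsyz (a b c d e u v : R) :
    tq a b c d e u v ^ 2 = 4 * hq a b c d e u v ^ 3 -
      qi a b c d e * hq a b c d e u v * qu a b c d e u v ^ 2 - qj a b c d e * qu a b c d e u v ^ 3 := by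
  unfold tq hq qi qj qu; ring

/-- coefficients of the transformed form -/
def qb (a b c d e p q r s : R) : R :=
  a * p ^ 3 * q + b * (p ^ 3 * s + 3 * p ^ 2 * q * r) + c * (3 * p ^ 2 * r * s + 3 * p * q * r ^ 2) +
    d * (3 * p * r ^ 2 * s + q * r ^ 3) + e * r ^ 3 * s

/-- coefficients of the transformed form -/
def qc (a b c d e p q r s : R) : R :=
  a * p ^ 2 * q ^ 2 + 2 * b * (p ^ 2 * q * s + p * q ^ 2 * r) +
    c * (p ^ 2 * s ^ 2 + 4 * p * q * r * s + q ^ 2 * r ^ 2) +
    2 * d * (p * r * s ^ 2 + q * r ^ 2 * s) + e * r ^ 2 * s ^ 2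

theorem qu_tr (a b c d e p q r s X Y : R) :
    qu (qu a b c d e p r) (qb a b c d e p q r s) (qc a b c d e p q r s) (qb a b c d e q p s r)
      (qu a b c d e q s) X Y = qu a b c d e (p * X + q * Y) (r * X + s * Y) := by
  unfold qu qb qc; ring

theorem qi_tr (a b c d e p q r s : R) :
    qi (qu a b c d e p r) (qb a b c d e p q r s) (qc a b c d e p q r s) (qb a b c d e q p s r)
      (qu a b c d e q s) = (p * s - q * r) ^ 4 * qi a b c d e := by
  unfold qi qu qb qc; ring

theorem qj_tr (a b c d e p q r s : R) :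
    qj (qu a b c d e p r) (qb a b c d e p q r s) (qc a b c d e p q r s) (qb a b c d e q p s r)
      (qu a b c d e q s) = (p * s - q * r) ^ 6 * qj a b c d e := by
  unfold qj qu qb qc; ring

theorem hq_tr (a b c d e p q r s : R) :
    qb a b c d e p q r s ^ 2 - qu a b c d e p r * qc a b c d e p q r s =
      (p * s - q * r) ^ 2 * hq a b c d e p r := by
  unfold qb qu qc hq; ring

theorem qu_inv (a b c d e p q r s : R) :
    qu (qu a b c d e p r) (qb a b c d e p q r s) (qc a b c d e p q r s) (qb a b c d e q p s r)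
      (qu a b c d e q s) s (-r) = (p * s - q * r) ^ 4 * a := by
  unfold qu qb qc; ring

theorem qb_inv (a b c d e p q r s : R) :
    qb (qu a b c d e p r) (qb a b c d e p q r s) (qc a b c d e p q r s) (qb a b c d e q p s r)
      (qu a b c d e q s) s (-q) (-r) p = (p * s - q * r) ^ 4 * b := by
  unfold qu qb qc; ring

theorem qc_inv (a b c d e p q r s : R) :
    qc (qu a b c d e p r) (qb a b c d e p q r s) (qc a b c d e p q r s) (qb a b c d e q p s r)
      (qu a b c d e q s) s (-q) (-r) p = (p * s - q * r) ^ 4 * c := by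
  unfold qu qb qc; ring

theorem qu_eq_of (a b c d e p q r s : R) (h : p * s - q * r = 1) :
    qu (qu a b c d e p r) (qb a b c d e p q r s) (qc a b c d e p q r s) (qb a b c d e q p s r)
      (qu a b c d e q s) s (-r) = a := by
  rw [qu_inv, h]; ring

theorem hq_eq_of (a b c d e p q r s : R) (h : p * s - q * r = 1) :
    hq (qu a b c d e p r) (qb a b c d e p q r s) (qc a b c d e p q r s) (qb a b c d e q p s r)
      (qu a b c d e q s) s (-r) = b ^ 2 - a * c := by
  have h1 := hq_tr (qu a b c d e p r) (qb a b c d e p q r s) (qc a b c d e p q r s)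
    (qb a b c d e q p s r) (qu a b c d e q s) s (-q) (-r) p
  have h2 : s * p - -q * -r = (1 : R) := by linear_combination h
  rw [h2, one_pow, one_mul, qb_inv, qc_inv, qu_inv, h] at h1
  rw [← h1]
  ring

end ring

/-- the square of the sextic covariant -/
theorem tq_eq_of (a b c d e p q r s : ℤ) (h : p * s - q * r = 1) :
    tq (qu a b c d e p r) (qb a b c d e p q r s) (qc a b c d e p q r s) (qb a b c d e q p s r)
      (qu a b c d e q s) s (-r) ^ 2 = (a ^ 2 * d - 3 * a * b * c + 2 * b ^ 3) ^ 2 := by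
  rw [qsyz, qu_eq_of _ _ _ _ _ _ _ _ _ h, hq_eq_of _ _ _ _ _ _ _ _ _ h, qi_tr, qj_tr, h]
  unfold qi qj
  ring

end Pool.Agent.NH26.HC
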