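import Mathlib
import Pool.Agent.NH26.HC.Quartic

/-!
A point of the upper half plane attached to a real binary quartic form.
-/

set_option autoImplicit false

namespace Pool.Agent.NH26.HC

open Complex Polynomial

/-- `z` is a root -/
def PA (a b c d e : ℝ) (z : ℂ) : Prop :=
  (a : ℂ) * z ^ 4 + 4 * b * z ^ 3 + 6 * c * z ^ 2 + 4 * d * z + e = 0

/-- the form is a product of two quadratic forms apolar to `z` -/
def PB (a b c d e : ℝ) (z : ℂ) : Prop :=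
  ∃ A1 B1 C1 A2 B2 C2 : ℝ, a = A1 * A2 ∧ 2 * b = A1 * B2 + A2 * B1 ∧
    6 * c = A1 * C2 + A2 * C1 + 4 * B1 * B2 ∧ 2 * d = B1 * C2 + B2 * C1 ∧ e = C1 * C2 ∧
    A1 * (z.re ^ 2 + z.im ^ 2) + 2 * B1 * z.re + C1 = 0 ∧
    A2 * (z.re ^ 2 + z.im ^ 2) + 2 * B2 * z.re + C2 = 0

theorem quad_pt (A B C : ℝ) (hD : B ^ 2 - 4 * A * C < 0) :
    ∃ z : ℂ, 0 < z.im ∧ A * (z.re ^ 2 + z.im ^ 2) = C ∧ 2 * A * z.re = -B := by
  have hA : A ≠ 0 := by
    rintro rfl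
    nlinarith [sq_nonneg B]
  have h0 : 0 < (4 * A * C - B ^ 2) / (4 * A ^ 2) := by
    apply div_pos (by linarith) (by positivity)
  refine ⟨⟨-B / (2 * A), Real.sqrt ((4 * A * C - B ^ 2) / (4 * A ^ 2))⟩, Real.sqrt_pos.2 h0, ?_, ?_⟩
  · show A * ((-B / (2 * A)) ^ 2 + Real.sqrt ((4 * A * C - B ^ 2) / (4 * A ^ 2)) ^ 2) = C
    rw [Real.sq_sqrt h0.le]
    field_simp
    ring
  · show 2 * A * (-B / (2 * A)) = -B
    field_simp

theorem of_split (a x1 x2 x3 x4 : ℝ) (h : (x1 - x3) * (x1 - x4) * (x2 - x3) * (x2 - x4) < 0) :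
    ∃ z : ℂ, 0 < z.im ∧ PB a (-(a * (x1 + x2 + x3 + x4)) / 4)
      (a * (x1 * x2 + x1 * x3 + x1 * x4 + x2 * x3 + x2 * x4 + x3 * x4) / 6)
      (-(a * (x1 * x2 * x3 + x1 * x2 * x4 + x1 * x3 * x4 + x2 * x3 * x4)) / 4)
      (a * (x1 * x2 * x3 * x4)) z := by
  set B1 : ℝ := -(x1 + x2) / 2 with hB1
  set C1 : ℝ := x1 * x2 with hC1
  set B2 : ℝ := -(x3 + x4) / 2 with hB2
  set C2 : ℝ := x3 * x4 with hC2
  obtain ⟨z, hz, h1, h2⟩ := quad_pt (B2 - B1) (C2 - C1) (B1 * C2 - B2 * C1) (by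
    have : (C2 - C1) ^ 2 - 4 * (B2 - B1) * (B1 * C2 - B2 * C1) =
      (x1 - x3) * (x1 - x4) * (x2 - x3) * (x2 - x4) := by
      rw [hB1, hC1, hB2, hC2]; ring
    rw [this]; exact h)
  have hne : B2 - B1 ≠ 0 := by
    intro h0
    rw [h0] at h1 h2
    have h3 : C2 - C1 = 0 := by linarith
    have h4 : (C2 - C1) ^ 2 - 4 * (B2 - B1) * (B1 * C2 - B2 * C1) =
      (x1 - x3) * (x1 - x4) * (x2 - x3) * (x2 - x4) := by
      rw [hB1, hC1, hB2, hC2]; ring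
    rw [← h4, h0, h3] at h
    norm_num at h
  refine ⟨z, hz, a, a * B1, a * C1, 1, B2, C2, by ring, ?_, ?_, ?_, ?_, ?_, ?_⟩
  · rw [hB1, hB2]; ring
  · rw [hB1, hB2, hC1, hC2]; ring
  · rw [hB1, hB2, hC1, hC2]; ring
  · rw [hC1, hC2]; ring
  · apply mul_left_cancel₀ hne
    rw [mul_zero]
    linear_combination a * h1 + a * B1 * h2
  · apply mul_left_cancel₀ hne
    rw [mul_zero]
    linear_combination h1 + B2 * h2

theorem pos_im_of (a b c d e : ℝ) (z : ℂ) (hz : z.im ≠ 0)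
    (h : (a : ℂ) * z ^ 4 + 4 * b * z ^ 3 + 6 * c * z ^ 2 + 4 * d * z + e = 0) :
    ∃ w : ℂ, 0 < w.im ∧ PA a b c d e w := by
  rcases lt_or_gt_of_ne hz with h1 | h1
  · refine ⟨(starRingEnd ℂ) z, by simpa using h1, ?_⟩
    unfold PA
    have h2 := congrArg (starRingEnd ℂ) h
    have t4 : (starRingEnd ℂ) 4 = 4 := Complex.conj_ofNat 4
    have t6 : (starRingEnd ℂ) 6 = 6 := Complex.conj_ofNat 6
    simpa [t4, t6] using h2
  · exact ⟨z, h1, h⟩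

/-- a root of a polynomial of positive degree -/
theorem exists_root4 (a b c d e : ℝ) (ha : a ≠ 0) :
    ∃ z : ℂ, (a : ℂ) * z ^ 4 + b * z ^ 3 + c * z ^ 2 + d * z + e = 0 := by
  set p : ℂ[X] := C (a : ℂ) * X ^ 4 + C (b : ℂ) * X ^ 3 + C (c : ℂ) * X ^ 2 + C (d : ℂ) * X +
    C (e : ℂ) with hp
  have hac : (a : ℂ) ≠ 0 := by exact_mod_cast ha
  have hd : p.degree = 4 := by
    rw [hp]; compute_degree!
  obtain ⟨z, hz⟩ := IsAlgClosed.exists_root p (by rw [hd]; norm_num)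
  refine ⟨z, ?_⟩
  rw [hp] at hz
  simpa [IsRoot] using hz

theorem exists_root3 (a b c d : ℝ) (ha : a ≠ 0) :
    ∃ z : ℂ, (a : ℂ) * z ^ 3 + b * z ^ 2 + c * z + d = 0 := by
  set p : ℂ[X] := C (a : ℂ) * X ^ 3 + C (b : ℂ) * X ^ 2 + C (c : ℂ) * X + C (d : ℂ) with hp
  have hac : (a : ℂ) ≠ 0 := by exact_mod_cast ha
  have hd : p.degree = 3 := by
    rw [hp]; compute_degree!
  obtain ⟨z, hz⟩ := IsAlgClosed.exists_root p (by rw [hd]; norm_num)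
  refine ⟨z, ?_⟩
  rw [hp] at hz
  simpa [IsRoot] using hz

theorem exists_root2 (a b c : ℝ) (ha : a ≠ 0) :
    ∃ z : ℂ, (a : ℂ) * z ^ 2 + b * z + c = 0 := by
  set p : ℂ[X] := C (a : ℂ) * X ^ 2 + C (b : ℂ) * X + C (c : ℂ) with hp
  have hac : (a : ℂ) ≠ 0 := by exact_mod_cast ha
  have hd : p.degree = 2 := by
    rw [hp]; compute_degree!
  obtain ⟨z, hz⟩ := IsAlgClosed.exists_root p (by rw [hd]; norm_num)
  refine ⟨z, ?_⟩
  rw [hp] at hz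
  simpa [IsRoot] using hz

/-- either a nonreal root or four real roots -/
theorem roots4 (a b c d e : ℝ) (ha : a ≠ 0) :
    (∃ z : ℂ, 0 < z.im ∧ PA a b c d e z) ∨
    ∃ x1 x2 x3 x4 : ℝ, b = -(a * (x1 + x2 + x3 + x4)) / 4 ∧
      c = a * (x1 * x2 + x1 * x3 + x1 * x4 + x2 * x3 + x2 * x4 + x3 * x4) / 6 ∧
      d = -(a * (x1 * x2 * x3 + x1 * x2 * x4 + x1 * x3 * x4 + x2 * x3 * x4)) / 4 ∧
      e = a * (x1 * x2 * x3 * x4) := by
  obtain ⟨z1, hz1⟩ := exists_root4 a (4 * b) (6 * c) (4 * d) e ha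
  push_cast at hz1
  by_cases h1 : z1.im = 0
  swap
  · exact Or.inl (pos_im_of a b c d e z1 h1 hz1)
  set x1 := z1.re with hx1
  have e1 : z1 = (x1 : ℂ) := by apply Complex.ext <;> simp [hx1, h1]
  have r1 : a * x1 ^ 4 + 4 * b * x1 ^ 3 + 6 * c * x1 ^ 2 + 4 * d * x1 + e = 0 := by
    rw [e1] at hz1
    have h5 : ((a * x1 ^ 4 + 4 * b * x1 ^ 3 + 6 * c * x1 ^ 2 + 4 * d * x1 + e : ℝ) : ℂ) = 0 := by
      push_cast
      exact hz1
    exact_mod_cast h5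
  set b1 := 4 * b + a * x1 with hb1
  set c1 := 6 * c + b1 * x1 with hc1
  set d1 := 4 * d + c1 * x1 with hd1
  have r1' : e + d1 * x1 = 0 := by rw [hd1, hc1, hb1]; linear_combination r1
  obtain ⟨z2, hz2⟩ := exists_root3 a b1 c1 d1 ha
  have f2 : (a : ℂ) * z2 ^ 4 + 4 * b * z2 ^ 3 + 6 * c * z2 ^ 2 + 4 * d * z2 + e = 0 := by
    have r1c : (e : ℂ) + d1 * x1 = 0 := by exact_mod_cast r1'
    have t1 : (b1 : ℂ) = 4 * b + a * x1 := by rw [hb1]; push_cast; ring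
    have t2 : (c1 : ℂ) = 6 * c + b1 * x1 := by rw [hc1]; push_cast; ring
    have t3 : (d1 : ℂ) = 4 * d + c1 * x1 := by rw [hd1]; push_cast; ring
    linear_combination (z2 - x1) * hz2 + r1c - z2 ^ 3 * t1 - z2 ^ 2 * t2 - z2 * t3
  by_cases h2 : z2.im = 0
  swap
  · exact Or.inl (pos_im_of a b c d e z2 h2 f2)
  set x2 := z2.re with hx2
  have e2 : z2 = (x2 : ℂ) := by apply Complex.ext <;> simp [hx2, h2]
  have r2 : a * x2 ^ 3 + b1 * x2 ^ 2 + c1 * x2 + d1 = 0 := by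
    rw [e2] at hz2
    exact_mod_cast hz2
  set b2 := b1 + a * x2 with hb2
  set c2 := c1 + b2 * x2 with hc2
  have r2' : d1 + c2 * x2 = 0 := by rw [hc2, hb2]; linear_combination r2
  obtain ⟨z3, hz3⟩ := exists_root2 a b2 c2 ha
  have f3 : (a : ℂ) * z3 ^ 4 + 4 * b * z3 ^ 3 + 6 * c * z3 ^ 2 + 4 * d * z3 + e = 0 := by
    have r1c : (e : ℂ) + d1 * x1 = 0 := by exact_mod_cast r1'
    have r2c : (d1 : ℂ) + c2 * x2 = 0 := by exact_mod_cast r2'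
    have t1 : (b1 : ℂ) = 4 * b + a * x1 := by rw [hb1]; push_cast; ring
    have t2 : (c1 : ℂ) = 6 * c + b1 * x1 := by rw [hc1]; push_cast; ring
    have t3 : (d1 : ℂ) = 4 * d + c1 * x1 := by rw [hd1]; push_cast; ring
    have t4 : (b2 : ℂ) = b1 + a * x2 := by rw [hb2]; push_cast; ring
    have t5 : (c2 : ℂ) = c1 + b2 * x2 := by rw [hc2]; push_cast; ring
    linear_combination (z3 - x1) * (z3 - x2) * hz3 + r1c + (z3 - x1) * r2c - z3 ^ 3 * t1 -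
      z3 ^ 2 * t2 - z3 * t3 - (z3 - x1) * z3 ^ 2 * t4 - (z3 - x1) * z3 * t5
  by_cases h3 : z3.im = 0
  swap
  · exact Or.inl (pos_im_of a b c d e z3 h3 f3)
  set x3 := z3.re with hx3
  have e3 : z3 = (x3 : ℂ) := by apply Complex.ext <;> simp [hx3, h3]
  have r3 : a * x3 ^ 2 + b2 * x3 + c2 = 0 := by
    rw [e3] at hz3
    exact_mod_cast hz3
  right
  set x4 := -(b2 + a * x3) / a with hx4
  have r4 : a * x4 = -(b2 + a * x3) := by rw [hx4]; field_simp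
  refine ⟨x1, x2, x3, x4, ?_, ?_, ?_, ?_⟩
  · linear_combination (1 / 4) * r4
  · linear_combination (1 / 6) * (r3 - (x1 + x2 + x3) * r4)
  · linear_combination (1 / 4) * (r2' - (x1 + x2) * r3 + (x1 * x2 + x1 * x3 + x2 * x3) * r4)
  · linear_combination r1' - x1 * r2' + x1 * x2 * r3 - x1 * x2 * x3 * r4

/-- **the covariant point** -/
theorem exists_pt (a b c d e : ℝ) (ha : a ≠ 0) (h : qi a b c d e ^ 3 ≠ 27 * qj a b c d e ^ 2) :
    ∃ z : ℂ, 0 < z.im ∧ (PA a b c d e z ∨ PB a b c d e z) := by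
  rcases roots4 a b c d e ha with ⟨z, hz, h1⟩ | ⟨x1, x2, x3, x4, hb, hc, hd, he⟩
  · exact ⟨z, hz, Or.inl h1⟩
  · have hdisc : 256 * (qi a b c d e ^ 3 - 27 * qj a b c d e ^ 2) = a ^ 6 * ((x1 - x2) * (x1 - x3) *
        (x1 - x4) * (x2 - x3) * (x2 - x4) * (x3 - x4)) ^ 2 := by
      rw [hb, hc, hd, he]; unfold qi qj; ring
    set P := (x1 - x2) * (x1 - x3) * (x1 - x4) * (x2 - x3) * (x2 - x4) * (x3 - x4) with hP
    have hP0 : P ≠ 0 := by
      intro h0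
      rw [h0] at hdisc
      apply h
      have : 256 * (qi a b c d e ^ 3 - 27 * qj a b c d e ^ 2) = 0 := by rw [hdisc]; ring
      linarith
    have hneg : ((x1 - x3) * (x1 - x4) * (x2 - x3) * (x2 - x4)) *
        (((x1 - x2) * (x1 - x4) * (x3 - x2) * (x3 - x4)) *
        ((x1 - x2) * (x1 - x3) * (x4 - x2) * (x4 - x3))) = -P ^ 2 := by
      rw [hP]; ring
    have hP2 : 0 < P ^ 2 := by positivity
    have key : (x1 - x3) * (x1 - x4) * (x2 - x3) * (x2 - x4) < 0 ∨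
        (x1 - x2) * (x1 - x4) * (x3 - x2) * (x3 - x4) < 0 ∨
        (x1 - x2) * (x1 - x3) * (x4 - x2) * (x4 - x3) < 0 := by
      by_contra hcon
      push Not at hcon
      obtain ⟨t1, t2, t3⟩ := hcon
      have := mul_nonneg t1 (mul_nonneg t2 t3)
      linarith
    rcases key with t | t | t
    · obtain ⟨z, hz, h1⟩ := of_split a x1 x2 x3 x4 t
      refine ⟨z, hz, Or.inr ?_⟩
      rw [hb, hc, hd, he]
      exact h1
    · obtain ⟨z, hz, h1⟩ := of_split a x1 x3 x2 x4 t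
      refine ⟨z, hz, Or.inr ?_⟩
      rw [hb, hc, hd, he]
      convert h1 using 1 <;> ring
    · obtain ⟨z, hz, h1⟩ := of_split a x1 x4 x2 x3 t
      refine ⟨z, hz, Or.inr ?_⟩
      rw [hb, hc, hd, he]
      convert h1 using 1 <;> ring

end Pool.Agent.NH26.HC
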