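import Mathlib
import Pool.Agent.NH26.HC.QuarticPt

/-!
Reduction of binary quartic forms of given invariants.
-/

set_option autoImplicit false

namespace Pool.Agent.NH26.HC

open Complex

/-- the normalised coefficients, invariants -/
theorem norm_inv (a b c d e t s : ℝ) (hs : 0 < s) :
    qi (a * s ^ 2) (s * (a * t + b)) (a * t ^ 2 + 2 * b * t + c)
      ((a * t ^ 3 + 3 * b * t ^ 2 + 3 * c * t + d) / s)
      ((a * t ^ 4 + 4 * b * t ^ 3 + 6 * c * t ^ 2 + 4 * d * t + e) / s ^ 2) = qi a b c d e ∧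
    qj (a * s ^ 2) (s * (a * t + b)) (a * t ^ 2 + 2 * b * t + c)
      ((a * t ^ 3 + 3 * b * t ^ 2 + 3 * c * t + d) / s)
      ((a * t ^ 4 + 4 * b * t ^ 3 + 6 * c * t ^ 2 + 4 * d * t + e) / s ^ 2) = qj a b c d e := by
  unfold qi qj
  constructor
  · field_simp
    ring
  · field_simp
    ring

theorem bound_A (P Q R T M : ℝ) (h : P + T = 6 * R) (hM : 1 ≤ M) (hI : |qi P Q R Q T| ≤ M)
    (hJ : |qj P Q R Q T| ≤ M) : |P| ≤ 7 * M ∧ |Q| ≤ 7 * M ∧ |R| ≤ 7 * M ∧ |T| ≤ 7 * M := by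
  set I := qi P Q R Q T with hId
  set J := qj P Q R Q T with hJd
  have e1 : 4 * R ^ 3 - I * R + J = 0 := by
    have hT : T = 6 * R - P := by linarith
    rw [hId, hJd, hT]; unfold qi qj; ring
  have e2 : (P - T) ^ 2 + 16 * Q ^ 2 = 48 * R ^ 2 - 4 * I := by
    have hT : T = 6 * R - P := by linarith
    rw [hId, hT]; unfold qi; ring
  rw [abs_le] at hI hJ
  have hR : |R| ≤ M := by
    by_contra hcon
    push Not at hcon
    have h0 : 0 ≤ |R| := abs_nonneg R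
    have h3 : 4 * |R| ^ 3 ≤ M * |R| + M := by
      have : |4 * R ^ 3| = |I * R - J| := by
        congr 1; linarith
      rw [abs_mul, abs_pow] at this
      have h4 : |(4 : ℝ)| = 4 := by norm_num
      rw [h4] at this
      rw [this]
      calc |I * R - J| ≤ |I * R| + |J| := abs_sub _ _
        _ = |I| * |R| + |J| := by rw [abs_mul]
        _ ≤ M * |R| + M := by
          have hI' : |I| ≤ M := abs_le.2 hI
          have hJ' : |J| ≤ M := abs_le.2 hJ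
          have := mul_le_mul_of_nonneg_right hI' h0
          linarith
    nlinarith [mul_pos (by linarith : 0 < |R|) (by linarith : 0 < |R|), sq_nonneg (|R| - 1)]
  have hR2 : R ^ 2 ≤ M ^ 2 := by
    rw [← sq_abs]
    exact pow_le_pow_left₀ (abs_nonneg _) hR 2
  have h5 : (P - T) ^ 2 + 16 * Q ^ 2 ≤ 52 * M ^ 2 := by
    rw [e2]; nlinarith
  have hQ : |Q| ≤ 2 * M := by
    apply abs_le_of_sq_le_sq _ (by linarith)
    nlinarith [sq_nonneg (P - T)]
  have hPT : |P - T| ≤ 8 * M := by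
    apply abs_le_of_sq_le_sq _ (by linarith)
    nlinarith [sq_nonneg Q]
  rw [abs_le] at hR hQ hPT
  refine ⟨?_, ?_, ?_, ?_⟩ <;> rw [abs_le] <;> constructor <;> linarith [hR.1, hR.2, hQ.1, hQ.2,
    hPT.1, hPT.2]

theorem bound_B (P Q R M : ℝ) (hM : 1 ≤ M) (hI : |qi P Q R (-Q) P| ≤ M) :
    |P| ≤ 7 * M ∧ |Q| ≤ 7 * M ∧ |R| ≤ 7 * M := by
  have e1 : qi P Q R (-Q) P = P ^ 2 + 4 * Q ^ 2 + 3 * R ^ 2 := by unfold qi; ring
  rw [e1] at hI
  have h1 := (abs_le.1 hI).2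
  refine ⟨?_, ?_, ?_⟩ <;>
  · apply abs_le_of_sq_le_sq _ (by linarith)
    nlinarith [sq_nonneg P, sq_nonneg Q, sq_nonneg R]

/-- integral coefficients -/
theorem bound_int (a b c d e : ℤ) (hab : a ≠ 0 ∨ b ≠ 0) (t s M : ℝ) (hM : 1 ≤ M) (hs : 0 < s)
    (hs2 : 3 ≤ 4 * s ^ 2) (ht : |t| ≤ 1 / 2) (h1 : |(a : ℝ) * s ^ 2| ≤ 7 * M)
    (h2 : |s * (a * t + b)| ≤ 7 * M) (h3 : |a * t ^ 2 + 2 * b * t + c| ≤ 7 * M)
    (h4 : |(a * t ^ 3 + 3 * b * t ^ 2 + 3 * c * t + d) / s| ≤ 7 * M)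
    (h5 : |(a * t ^ 4 + 4 * b * t ^ 3 + 6 * c * t ^ 2 + 4 * d * t + e) / s ^ 2| ≤ 7 * M) :
    |(a : ℝ)| ≤ 1000 * M ^ 3 ∧ |(b : ℝ)| ≤ 1000 * M ^ 3 ∧ |(c : ℝ)| ≤ 1000 * M ^ 3 ∧
      |(d : ℝ)| ≤ 1000 * M ^ 3 ∧ |(e : ℝ)| ≤ 1000 * M ^ 3 := by
  have hs34 : 3 / 4 ≤ s := by nlinarith
  have hsM : s ≤ 7 * M := by
    by_cases ha : a = 0
    · have hb : b ≠ 0 := by
        rcases hab with h | h
        · exact absurd ha h
        · exact h
      have hb1 : (1 : ℝ) ≤ |(b : ℝ)| := by exact_mod_cast Int.one_le_abs hb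
      rw [ha] at h2
      have e : s * (((0 : ℤ) : ℝ) * t + b) = s * b := by push_cast; ring
      rw [e, abs_mul, abs_of_pos hs] at h2
      nlinarith
    · have ha1 : (1 : ℝ) ≤ |(a : ℝ)| := by exact_mod_cast Int.one_le_abs ha
      rw [abs_mul, abs_of_pos (by positivity : 0 < s ^ 2)] at h1
      by_contra hcon
      push Not at hcon
      nlinarith
  have hM2 : M ≤ M ^ 2 := by nlinarith
  have hM3 : M ^ 2 ≤ M ^ 3 := by nlinarith
  have ka : |(a : ℝ)| ≤ 10 * M := by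
    rw [abs_mul, abs_of_pos (by positivity : 0 < s ^ 2)] at h1
    nlinarith [abs_nonneg (a : ℝ)]
  have kb0 : |(a : ℝ) * t + b| ≤ 10 * M := by
    rw [abs_mul, abs_of_pos hs] at h2
    nlinarith [abs_nonneg ((a : ℝ) * t + b)]
  have pt : ∀ (u K : ℝ), |u| ≤ K → |u * t| ≤ K / 2 := by
    intro u K hu
    rw [abs_mul]
    nlinarith [abs_nonneg u, abs_nonneg t]
  have at1 := pt a _ ka
  have kb : |(b : ℝ)| ≤ 15 * M := by
    rw [abs_le] at kb0 at1 ⊢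
    constructor <;> linarith [kb0.1, kb0.2, at1.1, at1.2]
  have at2 := pt _ _ at1
  have at3 := pt _ _ at2
  have at4 := pt _ _ at3
  have bt1 := pt b _ kb
  have bt2 := pt _ _ bt1
  have bt3 := pt _ _ bt2
  have kc : |(c : ℝ)| ≤ 25 * M := by
    have e : (c : ℝ) = (a * t ^ 2 + 2 * b * t + c) - a * t * t - 2 * (b * t) := by ring
    rw [e]
    rw [abs_le] at h3 at2 bt1 ⊢
    constructor <;> linarith [h3.1, h3.2, at2.1, at2.2, bt1.1, bt1.2]
  have ct1 := pt c _ kc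
  have ct2 := pt _ _ ct1
  have h4' : |a * t ^ 3 + 3 * b * t ^ 2 + 3 * c * t + d| ≤ 49 * M ^ 2 := by
    rw [abs_div, abs_of_pos hs, div_le_iff₀ hs] at h4
    nlinarith
  have kd : |(d : ℝ)| ≤ 100 * M ^ 2 := by
    have e : (d : ℝ) = (a * t ^ 3 + 3 * b * t ^ 2 + 3 * c * t + d) - a * t * t * t -
      3 * (b * t * t) - 3 * (c * t) := by ring
    rw [e]
    rw [abs_le] at h4' at3 bt2 ct1 ⊢
    constructor <;> nlinarith [h4'.1, h4'.2, at3.1, at3.2, bt2.1, bt2.2, ct1.1, ct1.2]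
  have dt1 := pt d _ kd
  have h5' : |a * t ^ 4 + 4 * b * t ^ 3 + 6 * c * t ^ 2 + 4 * d * t + e| ≤ 343 * M ^ 3 := by
    have hs2' : (0 : ℝ) < s ^ 2 := by positivity
    rw [abs_div, abs_of_pos hs2', div_le_iff₀ hs2'] at h5
    have : s ^ 2 ≤ 49 * M ^ 2 := by nlinarith
    nlinarith [abs_nonneg (a * t ^ 4 + 4 * b * t ^ 3 + 6 * c * t ^ 2 + 4 * d * t + e)]
  have ke : |(e : ℝ)| ≤ 1000 * M ^ 3 := by
    have e0 : (e : ℝ) = (a * t ^ 4 + 4 * b * t ^ 3 + 6 * c * t ^ 2 + 4 * d * t + e) -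
      a * t * t * t * t - 4 * (b * t * t * t) - 6 * (c * t * t) - 4 * (d * t) := by ring
    rw [e0]
    rw [abs_le] at h5' at4 bt3 ct2 dt1 ⊢
    constructor <;> nlinarith [h5'.1, h5'.2, at4.1, at4.2, bt3.1, bt3.2, ct2.1, ct2.2,
      dt1.1, dt1.2]
  refine ⟨by nlinarith, by nlinarith, by nlinarith, by nlinarith, ke⟩

/-- bounds for a form with covariant point in the fundamental domain -/
theorem bound_pt (a b c d e : ℤ) (hne : (qi a b c d e) ^ 3 ≠ 27 * (qj a b c d e) ^ 2) (M : ℝ)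
    (hM : 1 ≤ M) (hI : |((qi a b c d e : ℤ) : ℝ)| ≤ M) (hJ : |((qj a b c d e : ℤ) : ℝ)| ≤ M)
    (w : ℂ) (hw : 0 < w.im) (hw3 : 3 ≤ 4 * w.im ^ 2) (hre : |w.re| ≤ 1 / 2)
    (h : PA (a : ℝ) b c d e w ∨ PB (a : ℝ) b c d e w) :
    |(a : ℝ)| ≤ 1000 * M ^ 3 ∧ |(b : ℝ)| ≤ 1000 * M ^ 3 ∧ |(c : ℝ)| ≤ 1000 * M ^ 3 ∧
      |(d : ℝ)| ≤ 1000 * M ^ 3 ∧ |(e : ℝ)| ≤ 1000 * M ^ 3 := by
  have hab : a ≠ 0 ∨ b ≠ 0 := by
    by_contra hcon
    push Not at hcon
    apply hne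
    rw [hcon.1, hcon.2]
    unfold qi qj
    ring
  set t := w.re with ht
  set s := w.im with hs
  obtain ⟨n1, n2⟩ := norm_inv (a : ℝ) b c d e t s hw
  set P := (a : ℝ) * s ^ 2 with hP
  set Q := s * ((a : ℝ) * t + b) with hQ
  set R := (a : ℝ) * t ^ 2 + 2 * b * t + c with hR
  set S := ((a : ℝ) * t ^ 3 + 3 * b * t ^ 2 + 3 * c * t + d) / s with hS
  set T := ((a : ℝ) * t ^ 4 + 4 * b * t ^ 3 + 6 * c * t ^ 2 + 4 * d * t + e) / s ^ 2 with hT
  have hI' : |qi P Q R S T| ≤ M := by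
    rw [n1]
    have : qi (a : ℝ) b c d e = ((qi a b c d e : ℤ) : ℝ) := by unfold qi; push_cast; ring
    rw [this]; exact hI
  have hJ' : |qj P Q R S T| ≤ M := by
    rw [n2]
    have : qj (a : ℝ) b c d e = ((qj a b c d e : ℤ) : ℝ) := by unfold qj; push_cast; ring
    rw [this]; exact hJ
  have main : |P| ≤ 7 * M ∧ |Q| ≤ 7 * M ∧ |R| ≤ 7 * M ∧ |S| ≤ 7 * M ∧ |T| ≤ 7 * M := by
    rcases h with h | h
    · -- a root
      unfold PA at h
      have hw' : w = (t : ℂ) + (s : ℂ) * I := (Complex.re_add_im w).symm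
      have hre' : (a : ℝ) * (t ^ 4 - 6 * t ^ 2 * s ^ 2 + s ^ 4) + 4 * b * (t ^ 3 - 3 * t * s ^ 2) +
          6 * c * (t ^ 2 - s ^ 2) + 4 * d * t + e = 0 ∧
          (a : ℝ) * (4 * t ^ 3 * s - 4 * t * s ^ 3) + 4 * b * (3 * t ^ 2 * s - s ^ 3) +
          6 * c * (2 * t * s) + 4 * d * s = 0 := by
        have h9 : (((a : ℝ) * (t ^ 4 - 6 * t ^ 2 * s ^ 2 + s ^ 4) +
            4 * b * (t ^ 3 - 3 * t * s ^ 2) +
            6 * c * (t ^ 2 - s ^ 2) + 4 * d * t + e : ℝ) : ℂ) +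
            (((a : ℝ) * (4 * t ^ 3 * s - 4 * t * s ^ 3) + 4 * b * (3 * t ^ 2 * s - s ^ 3) +
            6 * c * (2 * t * s) + 4 * d * s : ℝ) : ℂ) * I = 0 := by
          rw [← h, hw']
          push_cast
          have hI2 : I ^ 2 = -1 := I_sq
          have hI3 : I ^ 3 = -I := by rw [pow_succ, hI2]; ring
          have hI4 : I ^ 4 = 1 := I_pow_four
          linear_combination (-((a : ℂ) * 6 * t ^ 2 * s ^ 2 + 12 * b * t * s ^ 2 +
            6 * c * s ^ 2)) * hI2 - ((a : ℂ) * 4 * t * s ^ 3 + 4 * b * s ^ 3) * hI3 -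
            (a : ℂ) * s ^ 4 * hI4
        have r1 := congrArg Complex.re h9
        have r2 := congrArg Complex.im h9
        rw [add_re, re_ofReal_mul, ofReal_re, I_re, mul_zero, add_zero, zero_re] at r1
        rw [add_im, im_ofReal_mul, ofReal_im, I_im, mul_one, zero_add, zero_im] at r2
        exact ⟨r1, r2⟩
      obtain ⟨r1, r2⟩ := hre'
      have hQS : S = Q := by
        rw [hS, hQ, div_eq_iff hw.ne']
        have : s * (4 * ((a : ℝ) * t ^ 3 + 3 * b * t ^ 2 + 3 * c * t + d) -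
          4 * (s * ((a : ℝ) * t + b) * s)) = 0 := by linear_combination r2
        rcases mul_eq_zero.1 this with h1 | h1
        · exact absurd h1 hw.ne'
        · linarith
      have hPT : P + T = 6 * R := by
        rw [hP, hT, hR]
        field_simp
        linear_combination r1
      rw [hQS] at hI' hJ' ⊢
      obtain ⟨k1, k2, k3, k4⟩ := bound_A P Q R T M hPT hM hI' hJ'
      exact ⟨k1, k2, k3, k2, k4⟩
    · -- a product of two quadratic forms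
      obtain ⟨A1, B1, C1, A2, B2, C2, h1, h2, h3, h4, h5, h6, h7⟩ := h
      have hC1 : C1 = -(A1 * (t ^ 2 + s ^ 2) + 2 * B1 * t) := by linarith
      have hC2 : C2 = -(A2 * (t ^ 2 + s ^ 2) + 2 * B2 * t) := by linarith
      have hTP : T = P := by
        rw [hT, hP, div_eq_iff (by positivity)]
        rw [hC1, hC2] at h5 h3 h4
        linear_combination (t ^ 4 - s ^ 4) * h1 + 2 * t ^ 3 * h2 + t ^ 2 * h3 + 2 * t * h4 + h5
      have hSQ : S = -Q := by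
        rw [hS, hQ, div_eq_iff hw.ne']
        rw [hC1, hC2] at h3 h4
        linear_combination (t ^ 3 + s ^ 2 * t) * h1 + (3 / 2 * t ^ 2 + s ^ 2 / 2) * h2 +
          (1 / 2 * t) * h3 + (1 / 2) * h4
      rw [hTP, hSQ] at hI'
      rw [hTP, hSQ, abs_neg]
      obtain ⟨k1, k2, k3⟩ := bound_B P Q R M hM hI'
      exact ⟨k1, k2, k3, k2, k1⟩
  obtain ⟨k1, k2, k3, k4, k5⟩ := main
  exact bound_int a b c d e hab t s M hM hw hw3 hre k1 k2 k3 k4 k5

/-- **Reduction of binary quartic forms.** -/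
theorem quartic_reduce (a b c d e : ℤ) (ha : a ≠ 0)
    (hne : (qi a b c d e) ^ 3 ≠ 27 * (qj a b c d e) ^ 2) (M : ℝ) (hM : 1 ≤ M)
    (hI : |((qi a b c d e : ℤ) : ℝ)| ≤ M) (hJ : |((qj a b c d e : ℤ) : ℝ)| ≤ M) :
    ∃ (a0 b0 c0 d0 e0 u v : ℤ), IsCoprime u v ∧ qi a0 b0 c0 d0 e0 = qi a b c d e ∧
      qj a0 b0 c0 d0 e0 = qj a b c d e ∧
      qu a0 b0 c0 d0 e0 u v = a ∧ hq a0 b0 c0 d0 e0 u v = b ^ 2 - a * c ∧
      tq a0 b0 c0 d0 e0 u v ^ 2 = (a ^ 2 * d - 3 * a * b * c + 2 * b ^ 3) ^ 2 ∧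
      |(a0 : ℝ)| ≤ 1000 * M ^ 3 ∧ |(b0 : ℝ)| ≤ 1000 * M ^ 3 ∧ |(c0 : ℝ)| ≤ 1000 * M ^ 3 ∧
      |(d0 : ℝ)| ≤ 1000 * M ^ 3 ∧ |(e0 : ℝ)| ≤ 1000 * M ^ 3 := by
  have hneR : qi (a : ℝ) b c d e ^ 3 ≠ 27 * qj (a : ℝ) b c d e ^ 2 := by
    intro h0
    apply hne
    have e1 : qi (a : ℝ) b c d e = ((qi a b c d e : ℤ) : ℝ) := by unfold qi; push_cast; ring
    have e2 : qj (a : ℝ) b c d e = ((qj a b c d e : ℤ) : ℝ) := by unfold qj; push_cast; ring
    rw [e1, e2] at h0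
    exact_mod_cast h0
  obtain ⟨z, hz, hz0⟩ := exists_pt (a : ℝ) b c d e (by exact_mod_cast ha) hneR
  obtain ⟨p, q, r, s, w, hdet, hw, hw3, hre, hw1, hrs, hzw⟩ := reduce z hz
  set a0 := qu a b c d e p r with ha0
  set b0 := qb a b c d e p q r s with hb0
  set c0 := qc a b c d e p q r s with hc0
  set d0 := qb a b c d e q p s r with hd0
  set e0 := qu a b c d e q s with he0
  have hi0 : qi a0 b0 c0 d0 e0 = qi a b c d e := by
    rw [ha0, hb0, hc0, hd0, he0, qi_tr, hdet]; ring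
  have hj0 : qj a0 b0 c0 d0 e0 = qj a b c d e := by
    rw [ha0, hb0, hc0, hd0, he0, qj_tr, hdet]; ring
  have hcop : IsCoprime s (-r) := ⟨p, q, by linear_combination hdet⟩
  have hpt : PA (a0 : ℝ) b0 c0 d0 e0 w ∨ PB (a0 : ℝ) b0 c0 d0 e0 w := by
    rcases hz0 with h | h
    · left
      unfold PA at h ⊢
      have etr := qu_tr (a : ℂ) b c d e p q r s w 1
      have h5 : qu (a : ℂ) b c d e ((r * w + s) * z) (r * w + s) = (r * w + s) ^ 4 *
          ((a : ℂ) * z ^ 4 + 4 * b * z ^ 3 + 6 * c * z ^ 2 + 4 * d * z + e) := by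
        unfold qu; ring
      have h6 : qu (a : ℂ) b c d e (p * w + q * 1) (r * w + s * 1) = 0 := by
        rw [mul_one, mul_one, ← hzw, h5]
        have : (a : ℂ) * z ^ 4 + 4 * b * z ^ 3 + 6 * c * z ^ 2 + 4 * d * z + e = 0 := by
          exact_mod_cast h
        rw [this]; ring
      rw [h6] at etr
      rw [← etr, ha0, hb0, hc0, hd0, he0]
      unfold qu qb qc
      push_cast
      ring
    · right
      obtain ⟨A1, B1, C1, A2, B2, C2, h1, h2, h3, h4, h5, h6, h7⟩ := h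
      have hmul : (r * w + s) * z = p * w + q := hzw
      -- the transformed relation
      have key : ∀ A B C : ℝ, A * (z.re ^ 2 + z.im ^ 2) + 2 * B * z.re + C = 0 →
          (A * p ^ 2 + 2 * B * p * r + C * r ^ 2) * (w.re ^ 2 + w.im ^ 2) +
          2 * (A * p * q + B * (p * s + q * r) + C * r * s) * w.re +
          (A * q ^ 2 + 2 * B * q * s + C * s ^ 2) = 0 := by
        intro A B C h0
        have m1 := congrArg Complex.re hmul
        have m2 := congrArg Complex.im hmul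
        simp only [mul_re, mul_im, add_re, add_im, intCast_re, intCast_im] at m1 m2
        have n1 : (r * w.re + s) * z.re - r * w.im * z.im = p * w.re + q := by linarith
        have n2 : (r * w.re + s) * z.im + r * w.im * z.re = p * w.im := by linarith
        have q1 : ((r * w.re + s) ^ 2 + (r * w.im) ^ 2) * (z.re ^ 2 + z.im ^ 2) =
            (p * w.re + q) ^ 2 + (p * w.im) ^ 2 := by
          rw [← n1, ← n2]; ring
        have q2 : ((r * w.re + s) ^ 2 + (r * w.im) ^ 2) * z.re =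
            (p * w.re + q) * (r * w.re + s) + (p * w.im) * (r * w.im) := by
          rw [← n1, ← n2]; ring
        linear_combination ((r * w.re + s) ^ 2 + (r * w.im) ^ 2) * h0 - A * q1 - 2 * B * q2
      refine ⟨A1 * p ^ 2 + 2 * B1 * p * r + C1 * r ^ 2, A1 * p * q + B1 * (p * s + q * r) +
        C1 * r * s, A1 * q ^ 2 + 2 * B1 * q * s + C1 * s ^ 2,
        A2 * p ^ 2 + 2 * B2 * p * r + C2 * r ^ 2, A2 * p * q + B2 * (p * s + q * r) +
        C2 * r * s, A2 * q ^ 2 + 2 * B2 * q * s + C2 * s ^ 2, ?_, ?_, ?_, ?_, ?_,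
        key A1 B1 C1 h6, key A2 B2 C2 h7⟩
      · rw [ha0]; unfold qu; push_cast
        linear_combination (p : ℝ) ^ 4 * h1 + 2 * p ^ 3 * r * h2 + p ^ 2 * r ^ 2 * h3 +
          2 * p * r ^ 3 * h4 + r ^ 4 * h5
      · rw [hb0]; unfold qb; push_cast
        linear_combination 2 * (p : ℝ) ^ 3 * q * h1 + (p ^ 3 * s + 3 * p ^ 2 * q * r) * h2 +
          (p ^ 2 * r * s + p * q * r ^ 2) * h3 + (3 * p * r ^ 2 * s + q * r ^ 3) * h4 +
          2 * r ^ 3 * s * h5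
      · rw [hc0]; unfold qc; push_cast
        linear_combination 6 * (p : ℝ) ^ 2 * q ^ 2 * h1 + 6 * (p ^ 2 * q * s + p * q ^ 2 * r) * h2 +
          (p ^ 2 * s ^ 2 + 4 * p * q * r * s + q ^ 2 * r ^ 2) * h3 +
          6 * (p * r * s ^ 2 + q * r ^ 2 * s) * h4 + 6 * r ^ 2 * s ^ 2 * h5
      · rw [hd0]; unfold qb; push_cast
        linear_combination 2 * (q : ℝ) ^ 3 * p * h1 + (q ^ 3 * r + 3 * q ^ 2 * p * s) * h2 +
          (q ^ 2 * r * s + p * q * s ^ 2) * h3 + (3 * q * s ^ 2 * r + p * s ^ 3) * h4 +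
          2 * s ^ 3 * r * h5
      · rw [he0]; unfold qu; push_cast
        linear_combination (q : ℝ) ^ 4 * h1 + 2 * q ^ 3 * s * h2 + q ^ 2 * s ^ 2 * h3 +
          2 * q * s ^ 3 * h4 + s ^ 4 * h5
  have hbd := bound_pt a0 b0 c0 d0 e0 (by rw [hi0, hj0]; exact hne) M hM (by rw [hi0]; exact hI)
    (by rw [hj0]; exact hJ) w hw hw3 hre hpt
  exact ⟨a0, b0, c0, d0, e0, s, -r, hcop, hi0, hj0, qu_eq_of a b c d e p q r s hdet,
    hq_eq_of a b c d e p q r s hdet, tq_eq_of a b c d e p q r s hdet, hbd.1, hbd.2.1, hbd.2.2.1,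
    hbd.2.2.2.1, hbd.2.2.2.2⟩

end Pool.Agent.NH26.HC
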