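import Mathlib
import Pool.Agent.NH26.HC.Quartic
import Pool.Agent.NH26.HC.Sqf

/-!
Ridout's theorem for values of quartic forms and their sextic covariants.
-/

set_option autoImplicit false

namespace Pool.Agent.NH26.HC

open Polynomial Finset Pool.Agent.Y670.RD

/-- the polynomial of a quartic form -/
noncomputable def gq (a b c d e : ℤ) : ℤ[X] :=
  C a * X ^ 4 + C (4 * b) * X ^ 3 + C (6 * c) * X ^ 2 + C (4 * d) * X + C e

theorem gq_deg (a b c d e : ℤ) (ha : a ≠ 0) : (gq a b c d e).natDegree = 4 := by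
  unfold gq
  compute_degree!

theorem gq_fv (a b c d e s t : ℤ) : fv 4 (gq a b c d e) s t = qu a b c d e s t := by
  unfold fv gq qu
  simp only [sum_range_succ, range_zero, sum_empty, coeff_add, coeff_C_mul, coeff_X_pow, coeff_X,
    coeff_C]
  norm_num
  ring

theorem qi_rev {R : Type*} [CommRing R] (a b c d e : R) : qi e d c b a = qi a b c d e := by
  unfold qi; ring

theorem qj_rev {R : Type*} [CommRing R] (a b c d e : R) : qj e d c b a = qj a b c d e := by
  unfold qj; ring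

/-- shifts do not change the invariants -/
theorem qi_shift {R : Type*} [CommRing R] (a b c d e z : R) :
    qi a (a * z + b) (a * z ^ 2 + 2 * b * z + c) (a * z ^ 3 + 3 * b * z ^ 2 + 3 * c * z + d)
      (a * z ^ 4 + 4 * b * z ^ 3 + 6 * c * z ^ 2 + 4 * d * z + e) = qi a b c d e := by
  unfold qi; ring

theorem qj_shift {R : Type*} [CommRing R] (a b c d e z : R) :
    qj a (a * z + b) (a * z ^ 2 + 2 * b * z + c) (a * z ^ 3 + 3 * b * z ^ 2 + 3 * c * z + d)
      (a * z ^ 4 + 4 * b * z ^ 3 + 6 * c * z ^ 2 + 4 * d * z + e) = qj a b c d e := by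
  unfold qj; ring

theorem disc_cast {a b c d e : ℤ}
    (h : qi (a : ℂ) b c d e ^ 3 = 27 * qj (a : ℂ) b c d e ^ 2) :
    (qi a b c d e) ^ 3 = 27 * (qj a b c d e) ^ 2 := by
  have e1 : qi (a : ℂ) b c d e = ((qi a b c d e : ℤ) : ℂ) := by unfold qi; push_cast; ring
  have e2 : qj (a : ℂ) b c d e = ((qj a b c d e : ℤ) : ℂ) := by unfold qj; push_cast; ring
  rw [e1, e2] at h
  exact_mod_cast h

theorem gq_sqf (a b c d e : ℤ) (h : (qi a b c d e) ^ 3 ≠ 27 * (qj a b c d e) ^ 2) :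
    Squarefree ((gq a b c d e).map (Int.castRingHom ℚ)) := by
  apply sqf_of
  intro z h1 h2
  apply h
  simp only [gq, map_add, map_mul, map_pow, aeval_X, aeval_C, derivative_mul,
    derivative_X_pow, derivative_X, derivative_C] at h1 h2
  simp at h1 h2
  have h3 : (a : ℂ) * z ^ 3 + 3 * b * z ^ 2 + 3 * c * z + d = 0 := by
    linear_combination (1 / 4 : ℂ) * h2
  apply disc_cast
  rw [← qi_shift (a : ℂ) b c d e z, ← qj_shift (a : ℂ) b c d e z, h1, h3]
  unfold qi qj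
  ring

/-- a quartic form of nonzero discriminant does not vanish at some `(1, j)` -/
theorem qu_ne (a b c d e : ℤ) (h : (qi a b c d e) ^ 3 ≠ 27 * (qj a b c d e) ^ 2) :
    ∃ j : ℤ, qu a b c d e 1 j ≠ 0 := by
  by_contra hcon
  push Not at hcon
  have h0 := hcon 0
  have h1 := hcon 1
  have h2 := hcon (-1)
  have h3 := hcon 2
  have h4 := hcon (-2)
  unfold qu at h0 h1 h2 h3 h4
  have ha : a = 0 := by linear_combination h0
  have hb : b = 0 := by omega
  have hc : c = 0 := by omega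
  have hd : d = 0 := by omega
  have he : e = 0 := by omega
  apply h
  rw [ha, hb, hc, hd, he]
  unfold qi qj
  ring

/-- **Ridout for a quartic form** -/
theorem rid_qu (a b c d e : ℤ) (h : (qi a b c d e) ^ 3 ≠ 27 * (qj a b c d e) ^ 2) (T : Finset ℕ)
    (hT : ∀ p ∈ T, p.Prime) (ε : ℝ) (hε : 0 < ε) (hε1 : ε ≤ 2) :
    ∃ κ : ℝ, 0 < κ ∧ ∀ s t : ℤ, IsCoprime s t → qu a b c d e s t ≠ 0 →
      κ * (max |(s : ℝ)| |(t : ℝ)|) ^ (2 - ε) ≤ tp T (qu a b c d e s t) := by
  obtain ⟨j, hj⟩ := qu_ne a b c d e h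
  set a' := qu a b c d e 1 j with ha'
  set b' := qb a b c d e 1 0 j 1 with hb'
  set c' := qc a b c d e 1 0 j 1 with hc'
  set d' := qb a b c d e 0 1 1 j with hd'
  set e' := qu a b c d e 0 1 with he'
  have hdi : (qi a' b' c' d' e') ^ 3 ≠ 27 * (qj a' b' c' d' e') ^ 2 := by
    have h1 := qi_tr a b c d e 1 0 j 1
    have h2 := qj_tr a b c d e 1 0 j 1
    rw [← ha', ← hb', ← hc', ← hd', ← he'] at h1 h2
    rw [h1, h2]
    simpa using h
  obtain ⟨κ, hκ, hb⟩ := rid_form' (gq a' b' c' d' e') (gq_sqf _ _ _ _ _ hdi)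
    (by rw [gq_deg _ _ _ _ _ hj]; norm_num) T hT ε hε
  refine shear_bound T (fun s t => qu a b c d e s t) j (2 - ε) (by linarith) κ hκ ?_
  intro s t hst hne
  have e1 : qu a b c d e s (j * s + t) = qu a' b' c' d' e' s t := by
    have := qu_tr a b c d e 1 0 j 1 s t
    rw [← ha', ← hb', ← hc', ← hd', ← he'] at this
    rw [this]
    congr 1
    ring
    ring
  have := hb s t hst
  rw [gq_deg _ _ _ _ _ hj, gq_fv, ← e1] at this
  have h3 := this hne
  unfold tp
  have e2 : ((4 : ℕ) : ℝ) - 2 - ε = 2 - ε := by norm_num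
  rw [e2] at h3
  exact h3

/-- the polynomial of the sextic covariant -/
noncomputable def gt (a b c d e : ℤ) : ℤ[X] :=
  C (a ^ 2 * d - 3 * a * b * c + 2 * b ^ 3) * X ^ 6 +
    C (a ^ 2 * e + 2 * a * b * d - 9 * a * c ^ 2 + 6 * b ^ 2 * c) * X ^ 5 +
    C (5 * (a * b * e - 3 * a * c * d + 2 * b ^ 2 * d)) * X ^ 4 +
    C (10 * (b ^ 2 * e - a * d ^ 2)) * X ^ 3 +
    C (-(5 * (a * d * e - 3 * b * c * e + 2 * b * d ^ 2))) * X ^ 2 +
    C (-(a * e ^ 2 + 2 * b * d * e - 9 * c ^ 2 * e + 6 * c * d ^ 2)) * X +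
    C (-(b * e ^ 2 - 3 * c * d * e + 2 * d ^ 3))

theorem gt_deg (a b c d e : ℤ) (ha : tq a b c d e 1 0 ≠ 0) : (gt a b c d e).natDegree = 6 := by
  have h1 : a ^ 2 * d - 3 * a * b * c + 2 * b ^ 3 ≠ 0 := by
    intro h0
    apply ha
    unfold tq
    rw [h0]; ring
  unfold gt
  compute_degree!

theorem gt_fv (a b c d e s t : ℤ) : fv 6 (gt a b c d e) s t = tq a b c d e s t := by
  unfold fv gt tq
  simp only [sum_range_succ, range_zero, sum_empty, coeff_add, coeff_C_mul, coeff_X_pow, coeff_X,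
    coeff_C]
  norm_num
  ring

/-- a multiple root of the sextic covariant forces a multiple root of the quartic -/
theorem disc_zero {K : Type*} [Field K] (a b c d e : K)
    (h0 : a ^ 2 * d - 3 * a * b * c + 2 * b ^ 3 = 0)
    (h1 : a ^ 2 * e + 2 * a * b * d - 9 * a * c ^ 2 + 6 * b ^ 2 * c = 0) (h2 : (2 : K) ≠ 0) :
    (qi a b c d e) ^ 3 = 27 * (qj a b c d e) ^ 2 := by
  by_cases ha : a = 0
  · rw [ha] at h0
    have hb : b = 0 := by
      have : 2 * b ^ 3 = 0 := by linear_combination h0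
      rcases mul_eq_zero.1 this with h | h
      · exact absurd h h2
      · exact pow_eq_zero_iff (by norm_num) |>.1 h
    rw [ha, hb]
    unfold qi qj
    ring
  · set H := b ^ 2 - a * c with hH
    have e1 : a ^ 2 * qi a b c d e = 12 * H ^ 2 := by
      rw [hH]; unfold qi
      linear_combination a * h1 - 6 * b * h0
    have e2 : a ^ 3 * qj a b c d e = -8 * H ^ 3 := by
      have := qsyz a b c d e 1 0
      have t1 : tq a b c d e 1 0 = 0 := by unfold tq; linear_combination h0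
      have t2 : hq a b c d e 1 0 = H := by unfold hq; rw [hH]; ring
      have t3 : qu a b c d e 1 0 = a := by unfold qu; ring
      rw [t1, t2, t3] at this
      linear_combination this + (-H) * e1
    have ha6 : a ^ 6 ≠ 0 := pow_ne_zero _ ha
    apply mul_left_cancel₀ ha6
    have f1 : a ^ 6 * qi a b c d e ^ 3 = (a ^ 2 * qi a b c d e) ^ 3 := by ring
    have f2 : a ^ 6 * (27 * qj a b c d e ^ 2) = 27 * (a ^ 3 * qj a b c d e) ^ 2 := by ring
    rw [f1, f2, e1, e2]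
    ring

theorem aeval6 (A0 A1 A2 A3 A4 A5 A6 : ℤ) (z : ℂ) :
    aeval z (C A0 * X ^ 6 + C A1 * X ^ 5 + C A2 * X ^ 4 + C A3 * X ^ 3 + C A4 * X ^ 2 + C A5 * X +
      C A6 : ℤ[X]) =
        A0 * z ^ 6 + A1 * z ^ 5 + A2 * z ^ 4 + A3 * z ^ 3 + A4 * z ^ 2 + A5 * z + A6 ∧
    aeval z (derivative (C A0 * X ^ 6 + C A1 * X ^ 5 + C A2 * X ^ 4 + C A3 * X ^ 3 + C A4 * X ^ 2 +
      C A5 * X + C A6 : ℤ[X])) =
        6 * A0 * z ^ 5 + 5 * A1 * z ^ 4 + 4 * A2 * z ^ 3 + 3 * A3 * z ^ 2 + 2 * A4 * z + A5 := by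
  have k2 : (aeval z) (2 : ℤ[X]) = 2 := map_ofNat _ 2
  have k3 : (aeval z) (3 : ℤ[X]) = 3 := map_ofNat _ 3
  have k4 : (aeval z) (4 : ℤ[X]) = 4 := map_ofNat _ 4
  have k5 : (aeval z) (5 : ℤ[X]) = 5 := map_ofNat _ 5
  have k6 : (aeval z) (6 : ℤ[X]) = 6 := map_ofNat _ 6
  constructor
  · simp
  · simp [k2, k3, k4, k5, k6]
    ring

theorem gt_sqf (a b c d e : ℤ) (h : (qi a b c d e) ^ 3 ≠ 27 * (qj a b c d e) ^ 2) :
    Squarefree ((gt a b c d e).map (Int.castRingHom ℚ)) := by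
  apply sqf_of
  intro z h1 h2
  apply h
  unfold gt at h1 h2
  rw [(aeval6 _ _ _ _ _ _ _ z).1] at h1
  rw [(aeval6 _ _ _ _ _ _ _ z).2] at h2
  push_cast at h1 h2
  apply disc_cast
  rw [← qi_shift (a : ℂ) b c d e z, ← qj_shift (a : ℂ) b c d e z, ← qi_rev, ← qj_rev]
  apply disc_zero _ _ _ _ _ ?_ ?_ (by norm_num)
  · linear_combination -h1
  · linear_combination -h2

/-- the sextic covariant does not vanish at some `(1, j)` -/
theorem tq_ne (a b c d e : ℤ) (h : (qi a b c d e) ^ 3 ≠ 27 * (qj a b c d e) ^ 2) :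
    ∃ j : ℤ, tq a b c d e 1 j ≠ 0 := by
  by_contra hcon
  push Not at hcon
  have h0 := hcon 0
  have h1 := hcon 1
  have h2 := hcon (-1)
  have h3 := hcon 2
  have h4 := hcon (-2)
  have h5 := hcon 3
  have h6 := hcon (-3)
  unfold tq at h0 h1 h2 h3 h4 h5 h6
  set A0 := a ^ 2 * d - 3 * a * b * c + 2 * b ^ 3 with hA0
  set A1 := a ^ 2 * e + 2 * a * b * d - 9 * a * c ^ 2 + 6 * b ^ 2 * c with hA1
  set A2 := a * b * e - 3 * a * c * d + 2 * b ^ 2 * d
  set A3 := b ^ 2 * e - a * d ^ 2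
  set A4 := a * d * e - 3 * b * c * e + 2 * b * d ^ 2
  set A5 := a * e ^ 2 + 2 * b * d * e - 9 * c ^ 2 * e + 6 * c * d ^ 2
  set A6 := b * e ^ 2 - 3 * c * d * e + 2 * d ^ 3
  norm_num at h0 h1 h2 h3 h4 h5 h6
  have k0 : A0 = 0 := by linear_combination h0
  have k1 : A1 = 0 := by
    generalize A0 = B0 at *
    generalize A1 = B1 at *
    generalize A2 = B2 at *
    generalize A3 = B3 at *
    generalize A4 = B4 at *
    generalize A5 = B5 at *
    generalize A6 = B6 at *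
    clear hA0 hA1 hcon
    omega
  apply h
  have key := disc_zero (a : ℚ) b c d e (by exact_mod_cast (hA0.symm.trans k0))
    (by exact_mod_cast (hA1.symm.trans k1)) (by norm_num)
  have e1 : qi (a : ℚ) b c d e = ((qi a b c d e : ℤ) : ℚ) := by unfold qi; push_cast; ring
  have e2 : qj (a : ℚ) b c d e = ((qj a b c d e : ℤ) : ℚ) := by unfold qj; push_cast; ring
  rw [e1, e2] at key
  exact_mod_cast key

/-- covariance of the sextic covariant under shears -/
theorem tq_shear (a b c d e j s t : ℤ) :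
    tq (qu a b c d e 1 j) (qb a b c d e 1 0 j 1) (qc a b c d e 1 0 j 1) (qb a b c d e 0 1 1 j)
      (qu a b c d e 0 1) s t = tq a b c d e s (j * s + t) := by
  unfold tq qu qb qc; ring

/-- **Ridout for the sextic covariant** -/
theorem rid_tq (a b c d e : ℤ) (h : (qi a b c d e) ^ 3 ≠ 27 * (qj a b c d e) ^ 2) (T : Finset ℕ)
    (hT : ∀ p ∈ T, p.Prime) (ε : ℝ) (hε : 0 < ε) (hε1 : ε ≤ 4) :
    ∃ κ : ℝ, 0 < κ ∧ ∀ s t : ℤ, IsCoprime s t → tq a b c d e s t ≠ 0 →
      κ * (max |(s : ℝ)| |(t : ℝ)|) ^ (4 - ε) ≤ tp T (tq a b c d e s t) := by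
  obtain ⟨j, hj⟩ := tq_ne a b c d e h
  set a' := qu a b c d e 1 j with ha'
  set b' := qb a b c d e 1 0 j 1 with hb'
  set c' := qc a b c d e 1 0 j 1 with hc'
  set d' := qb a b c d e 0 1 1 j with hd'
  set e' := qu a b c d e 0 1 with he'
  have hdi : (qi a' b' c' d' e') ^ 3 ≠ 27 * (qj a' b' c' d' e') ^ 2 := by
    have h1 := qi_tr a b c d e 1 0 j 1
    have h2 := qj_tr a b c d e 1 0 j 1
    rw [← ha', ← hb', ← hc', ← hd', ← he'] at h1 h2
    rw [h1, h2]
    simpa using h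
  have hsh : ∀ s t : ℤ, tq a' b' c' d' e' s t = tq a b c d e s (j * s + t) := by
    intro s t
    rw [ha', hb', hc', hd', he']
    exact tq_shear a b c d e j s t
  have hj' : tq a' b' c' d' e' 1 0 ≠ 0 := by
    rw [hsh, mul_one, add_zero]; exact hj
  obtain ⟨κ, hκ, hb⟩ := rid_form' (gt a' b' c' d' e') (gt_sqf _ _ _ _ _ hdi)
    (by rw [gt_deg _ _ _ _ _ hj']; norm_num) T hT ε hε
  refine shear_bound T (fun s t => tq a b c d e s t) j (4 - ε) (by linarith) κ hκ ?_
  intro s t hst hne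
  have := hb s t hst
  rw [gt_deg _ _ _ _ _ hj', gt_fv, hsh] at this
  have h3 := this hne
  unfold tp
  have e2 : ((6 : ℕ) : ℝ) - 2 - ε = 4 - ε := by norm_num
  rw [e2] at h3
  exact h3

end Pool.Agent.NH26.HC
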