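import Mathlib
import Pool.Agent.NH26.HC.Core2
import Pool.Agent.NH26.HC.QuarticRed
import Pool.Agent.NH26.HC.Sqf4

/-!
`y² - x³ = D M³` with `x` prime to `M` and `D` bounded.
-/

set_option autoImplicit false

namespace Pool.Agent.NH26.HC

open Finset

theorem powN {X Y C Z e : ℝ} (N : ℕ) (hN : 0 < N) (hX : 0 ≤ X) (hC : 0 < C) (hZ : 0 ≤ Z)
    (he : 0 ≤ e) (h1 : X ≤ C * Z ^ N) (h2 : Y ≤ C * Z ^ N) :
    (max X Y) ^ (e / N) ≤ C ^ (e / N) * Z ^ e := by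
  have h3 : max X Y ≤ C * Z ^ N := max_le h1 h2
  have hN' : (0 : ℝ) < N := by exact_mod_cast hN
  have h4 := Real.rpow_le_rpow (le_max_of_le_left hX) h3 (by positivity : 0 ≤ e / N)
  rw [Real.mul_rpow hC.le (by positivity), ← Real.rpow_natCast, ← Real.rpow_mul hZ] at h4
  have e1 : (N : ℝ) * (e / N) = e := by field_simp
  rwa [e1] at h4

theorem mono_le (A s t Z : ℝ) (hs : |s| ≤ Z) (ht : |t| ≤ Z) (i j : ℕ) :
    |A * s ^ i * t ^ j| ≤ |A| * Z ^ (i + j) := by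
  have hZ : 0 ≤ Z := (abs_nonneg _).trans hs
  rw [abs_mul, abs_mul, abs_pow, abs_pow, pow_add, mul_assoc]
  exact mul_le_mul_of_nonneg_left (mul_le_mul (pow_le_pow_left₀ (abs_nonneg _) hs i)
    (pow_le_pow_left₀ (abs_nonneg _) ht j) (by positivity) (by positivity)) (abs_nonneg _)

theorem finite_box5 (K : ℝ) : {f : ℤ × ℤ × ℤ × ℤ × ℤ | |(f.1 : ℝ)| ≤ K ∧ |(f.2.1 : ℝ)| ≤ K ∧
    |(f.2.2.1 : ℝ)| ≤ K ∧ |(f.2.2.2.1 : ℝ)| ≤ K ∧ |(f.2.2.2.2 : ℝ)| ≤ K}.Finite := by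
  have key : ∀ n : ℤ, |(n : ℝ)| ≤ K → n ∈ Set.Icc (-⌊K⌋) ⌊K⌋ := by
    intro n hn
    have : ((|n| : ℤ) : ℝ) ≤ K := by push_cast; exact hn
    have h1 : |n| ≤ ⌊K⌋ := Int.le_floor.2 this
    exact ⟨(abs_le.1 h1).1, (abs_le.1 h1).2⟩
  apply Set.Finite.subset ((Set.finite_Icc (-⌊K⌋) ⌊K⌋).prod (finite_box4 K))
  rintro ⟨a, b, c, d, e⟩ ⟨h1, h2, h3, h4, h5⟩
  exact ⟨key _ h1, h2, h3, h4, h5⟩

theorem qu_le (a b c d e s t : ℤ) (K : ℝ) (ha : |(a : ℝ)| ≤ K) (hb : |(b : ℝ)| ≤ K)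
    (hc : |(c : ℝ)| ≤ K) (hd : |(d : ℝ)| ≤ K) (he : |(e : ℝ)| ≤ K) :
    |((qu a b c d e s t : ℤ) : ℝ)| ≤ 16 * K * (max |(s : ℝ)| |(t : ℝ)|) ^ 4 := by
  have hs := le_max_left |(s : ℝ)| |(t : ℝ)|
  have ht := le_max_right |(s : ℝ)| |(t : ℝ)|
  set Z := max |(s : ℝ)| |(t : ℝ)|
  have hZ : 0 ≤ Z := (abs_nonneg _).trans hs
  have m1 := mono_le a s t Z hs ht 4 0
  have m2 := mono_le b s t Z hs ht 3 1
  have m3 := mono_le c s t Z hs ht 2 2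
  have m4 := mono_le d s t Z hs ht 1 3
  have m5 := mono_le e s t Z hs ht 0 4
  have hZ4 : 0 ≤ Z ^ 4 := by positivity
  have n1 := mul_le_mul_of_nonneg_right ha hZ4
  have n2 := mul_le_mul_of_nonneg_right hb hZ4
  have n3 := mul_le_mul_of_nonneg_right hc hZ4
  have n4 := mul_le_mul_of_nonneg_right hd hZ4
  have n5 := mul_le_mul_of_nonneg_right he hZ4
  have k1 := abs_le.1 (m1.trans n1)
  have k2 := abs_le.1 (m2.trans n2)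
  have k3 := abs_le.1 (m3.trans n3)
  have k4 := abs_le.1 (m4.trans n4)
  have k5 := abs_le.1 (m5.trans n5)
  have e0 : ((qu a b c d e s t : ℤ) : ℝ) = a * s ^ 4 * t ^ 0 + 4 * (b * s ^ 3 * t ^ 1) +
    6 * (c * s ^ 2 * t ^ 2) + 4 * (d * s ^ 1 * t ^ 3) + e * s ^ 0 * t ^ 4 := by
    unfold qu; push_cast; ring
  rw [e0, abs_le]
  constructor <;> linarith [k1.1, k1.2, k2.1, k2.2, k3.1, k3.2, k4.1, k4.2, k5.1, k5.2]

theorem hq_le (a b c d e s t : ℤ) (K : ℝ) (ha : |(a : ℝ)| ≤ K) (hb : |(b : ℝ)| ≤ K)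
    (hc : |(c : ℝ)| ≤ K) (hd : |(d : ℝ)| ≤ K) (he : |(e : ℝ)| ≤ K) :
    |((hq a b c d e s t : ℤ) : ℝ)| ≤ 18 * K ^ 2 * (max |(s : ℝ)| |(t : ℝ)|) ^ 4 := by
  have hs := le_max_left |(s : ℝ)| |(t : ℝ)|
  have ht := le_max_right |(s : ℝ)| |(t : ℝ)|
  set Z := max |(s : ℝ)| |(t : ℝ)|
  have hZ : 0 ≤ Z := (abs_nonneg _).trans hs
  have hK : 0 ≤ K := (abs_nonneg _).trans ha
  have pr : ∀ u v : ℤ, |(u : ℝ)| ≤ K → |(v : ℝ)| ≤ K → |(u : ℝ) * v| ≤ K ^ 2 := by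
    intro u v hu hv
    rw [abs_mul, sq]
    exact mul_le_mul hu hv (abs_nonneg _) hK
  have c1 : |(b : ℝ) ^ 2 - a * c| ≤ 2 * K ^ 2 := by
    have h1 := pr b b hb hb
    have h2 := pr a c ha hc
    rw [abs_le] at h1 h2 ⊢
    constructor <;> nlinarith
  have c2 : |(b : ℝ) * c - a * d| ≤ 2 * K ^ 2 := by
    have h1 := pr b c hb hc
    have h2 := pr a d ha hd
    rw [abs_le] at h1 h2 ⊢
    constructor <;> nlinarith
  have c3 : |3 * (c : ℝ) ^ 2 - a * e - 2 * b * d| ≤ 6 * K ^ 2 := by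
    have h1 := pr c c hc hc
    have h2 := pr a e ha he
    have h3 := pr b d hb hd
    rw [abs_le] at h1 h2 h3 ⊢
    constructor <;> nlinarith
  have c4 : |(c : ℝ) * d - b * e| ≤ 2 * K ^ 2 := by
    have h1 := pr c d hc hd
    have h2 := pr b e hb he
    rw [abs_le] at h1 h2 ⊢
    constructor <;> nlinarith
  have c5 : |(d : ℝ) ^ 2 - c * e| ≤ 2 * K ^ 2 := by
    have h1 := pr d d hd hd
    have h2 := pr c e hc he
    rw [abs_le] at h1 h2 ⊢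
    constructor <;> nlinarith
  have m1 := mono_le ((b : ℝ) ^ 2 - a * c) s t Z hs ht 4 0
  have m2 := mono_le ((b : ℝ) * c - a * d) s t Z hs ht 3 1
  have m3 := mono_le (3 * (c : ℝ) ^ 2 - a * e - 2 * b * d) s t Z hs ht 2 2
  have m4 := mono_le ((c : ℝ) * d - b * e) s t Z hs ht 1 3
  have m5 := mono_le ((d : ℝ) ^ 2 - c * e) s t Z hs ht 0 4
  have hZ4 : 0 ≤ Z ^ 4 := by positivity
  have n1 := mul_le_mul_of_nonneg_right c1 hZ4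
  have n2 := mul_le_mul_of_nonneg_right c2 hZ4
  have n3 := mul_le_mul_of_nonneg_right c3 hZ4
  have n4 := mul_le_mul_of_nonneg_right c4 hZ4
  have n5 := mul_le_mul_of_nonneg_right c5 hZ4
  have k1 := abs_le.1 (m1.trans n1)
  have k2 := abs_le.1 (m2.trans n2)
  have k3 := abs_le.1 (m3.trans n3)
  have k4 := abs_le.1 (m4.trans n4)
  have k5 := abs_le.1 (m5.trans n5)
  have e0 : ((hq a b c d e s t : ℤ) : ℝ) = ((b : ℝ) ^ 2 - a * c) * s ^ 4 * t ^ 0 +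
      2 * (((b : ℝ) * c - a * d) * s ^ 3 * t ^ 1) +
      (3 * (c : ℝ) ^ 2 - a * e - 2 * b * d) * s ^ 2 * t ^ 2 +
      2 * (((c : ℝ) * d - b * e) * s ^ 1 * t ^ 3) + ((d : ℝ) ^ 2 - c * e) * s ^ 0 * t ^ 4 := by
    unfold hq; push_cast; ring
  rw [e0, abs_le]
  constructor <;> linarith [k1.1, k1.2, k2.1, k2.2, k3.1, k3.2, k4.1, k4.2, k5.1, k5.2]

/-- the bound of `y` -/
theorem y_leN {x y k : ℤ} {C1 C2 Z : ℝ} (n : ℕ) (h : y ^ 2 - x ^ 3 = k)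
    (h1 : |(x : ℝ)| ≤ C1 * Z ^ n) (h2 : |(k : ℝ)| ≤ C2 * Z ^ (3 * n)) :
    |(x : ℝ)| ^ 3 ≤ (C1 ^ 3 + C2) * Z ^ (3 * n) ∧ (y : ℝ) ^ 2 ≤ (C1 ^ 3 + C2) * Z ^ (3 * n) := by
  have h3 : |(x : ℝ)| ^ 3 ≤ (C1 * Z ^ n) ^ 3 := pow_le_pow_left₀ (abs_nonneg _) h1 3
  have h3' : (C1 * Z ^ n) ^ 3 = C1 ^ 3 * Z ^ (3 * n) := by
    rw [mul_pow, ← pow_mul, mul_comm n 3]
  have h4 : (y : ℝ) ^ 2 = (x : ℝ) ^ 3 + k := by
    have : ((y ^ 2 - x ^ 3 : ℤ) : ℝ) = k := by rw [h]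
    push_cast at this
    linarith
  have h5 : (x : ℝ) ^ 3 ≤ |(x : ℝ)| ^ 3 := by
    rw [← abs_pow]; exact le_abs_self _
  have h6 : (0 : ℝ) ≤ C2 * Z ^ (3 * n) := (abs_nonneg _).trans h2
  have h7 := le_abs_self (k : ℝ)
  constructor <;> nlinarith

/-- **the case of cubes** -/
theorem core3 (T : Finset ℕ) (hT : ∀ p ∈ T, p.Prime) (ε : ℝ) (hε : 0 < ε) (hε1 : ε ≤ 1)
    (B : ℝ) :
    ∃ κ : ℝ, 0 < κ ∧ ∀ x y M D : ℤ, D ≠ 0 → |(D : ℝ)| ≤ B → M ≠ 0 → IsCoprime x M →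
      y ^ 2 - x ^ 3 = D * M ^ 3 →
      κ * (max (|(x : ℝ)| ^ 3) ((y : ℝ) ^ 2)) ^ ((1 - ε) / 6) ≤ tp T M := by
  set Mx : ℝ := 4 * max B 1 with hMx
  set K : ℝ := 1000 * Mx ^ 3 with hK
  have hMx1 : 1 ≤ Mx := by
    have := le_max_right B 1
    rw [hMx]; linarith
  have hK0 : 0 < K := by positivity
  set S : Set (ℤ × ℤ × ℤ × ℤ × ℤ) := {f : ℤ × ℤ × ℤ × ℤ × ℤ | (|(f.1 : ℝ)| ≤ K ∧
    |(f.2.1 : ℝ)| ≤ K ∧ |(f.2.2.1 : ℝ)| ≤ K ∧ |(f.2.2.2.1 : ℝ)| ≤ K ∧ |(f.2.2.2.2 : ℝ)| ≤ K) ∧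
    (qi f.1 f.2.1 f.2.2.1 f.2.2.2.1 f.2.2.2.2) ^ 3 ≠
      27 * (qj f.1 f.2.1 f.2.2.1 f.2.2.2.1 f.2.2.2.2) ^ 2} with hS
  have hSf : S.Finite := (finite_box5 K).subset (fun f hf => hf.1)
  obtain ⟨κ, hκ, hb⟩ := unif hSf (fun κ f => ∀ s t : ℤ, IsCoprime s t →
    qu f.1 f.2.1 f.2.2.1 f.2.2.2.1 f.2.2.2.2 s t ≠ 0 →
      κ * (max |(s : ℝ)| |(t : ℝ)|) ^ (2 - 2 * ε) ≤
        tp T (qu f.1 f.2.1 f.2.2.1 f.2.2.2.1 f.2.2.2.2 s t))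
    (by
      intro c c' f hc' hcc h s t hst hne
      refine le_trans ?_ (h s t hst hne)
      exact mul_le_mul_of_nonneg_right hcc (Real.rpow_nonneg (le_max_of_le_left (abs_nonneg _)) _))
    (fun f hf => rid_qu f.1 f.2.1 f.2.2.1 f.2.2.2.1 f.2.2.2.2 hf.2 T hT (2 * ε) (by linarith)
      (by linarith))
  set C : ℝ := (18 * K ^ 2) ^ 3 + |B| * (16 * K) ^ 3 with hC
  have hC0 : 0 < C := by positivity
  refine ⟨κ * (C ^ ((1 - ε) / 6))⁻¹, by positivity, ?_⟩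
  intro x y M D hD hDB hM hxM h
  obtain ⟨b, c, d, e, e1, e2, e3, e4⟩ := quartic_form hxM hM h
  have hi : qi M b c d e = 0 := by unfold qi; exact e3
  have hj : qj M b c d e = -4 * D := by unfold qj; exact e4
  have hne : (qi M b c d e) ^ 3 ≠ 27 * (qj M b c d e) ^ 2 := by
    rw [hi, hj]
    intro h0
    apply hD
    have : D ^ 2 = 0 := by nlinarith
    exact pow_eq_zero_iff (by norm_num) |>.1 this
  obtain ⟨a0, b0, c0, d0, e0, u, v, huv, hi0, hj0, hcu, hhe, -, k1, k2, k3, k4, k5⟩ :=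
    quartic_reduce M b c d e hM hne Mx hMx1 (by
      rw [hi]; push_cast; rw [abs_zero]; linarith) (by
      rw [hj, hMx]
      push_cast
      rw [abs_mul, abs_neg]
      have : |(4 : ℝ)| = 4 := by norm_num
      rw [this]
      have := le_max_left B 1
      nlinarith)
  have hmem : ((a0, b0, c0, d0, e0) : ℤ × ℤ × ℤ × ℤ × ℤ) ∈ S :=
    ⟨⟨k1, k2, k3, k4, k5⟩, by
      show (qi a0 b0 c0 d0 e0) ^ 3 ≠ 27 * (qj a0 b0 c0 d0 e0) ^ 2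
      rw [hi0, hj0]; exact hne⟩
  have h1 := hb _ hmem u v huv (by show qu a0 b0 c0 d0 e0 u v ≠ 0; rw [hcu]; exact hM)
  have h1' : κ * (max |(u : ℝ)| |(v : ℝ)|) ^ (2 - 2 * ε) ≤ tp T M := by
    have e : qu a0 b0 c0 d0 e0 u v = M := hcu
    rw [← e]
    exact h1
  set Z := max |(u : ℝ)| |(v : ℝ)| with hZ
  have hZ0 : 0 ≤ Z := le_max_of_le_left (abs_nonneg _)
  have hx1 : |(x : ℝ)| ≤ 18 * K ^ 2 * Z ^ 4 := by
    have := hq_le a0 b0 c0 d0 e0 u v K k1 k2 k3 k4 k5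
    rw [hhe, e1] at this
    exact this
  have hM1 : |(M : ℝ)| ≤ 16 * K * Z ^ 4 := by
    have := qu_le a0 b0 c0 d0 e0 u v K k1 k2 k3 k4 k5
    rw [hcu] at this
    exact this
  have hk1 : |((D * M ^ 3 : ℤ) : ℝ)| ≤ |B| * (16 * K) ^ 3 * Z ^ (3 * 4) := by
    push_cast
    rw [abs_mul, abs_pow]
    have h2 : |(M : ℝ)| ^ 3 ≤ (16 * K * Z ^ 4) ^ 3 := pow_le_pow_left₀ (abs_nonneg _) hM1 3
    have h3 : |(D : ℝ)| ≤ |B| := hDB.trans (le_abs_self _)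
    calc |(D : ℝ)| * |(M : ℝ)| ^ 3 ≤ |B| * (16 * K * Z ^ 4) ^ 3 :=
          mul_le_mul h3 h2 (by positivity) (abs_nonneg _)
      _ = |B| * (16 * K) ^ 3 * Z ^ (3 * 4) := by ring
  obtain ⟨hy1, hy2⟩ := y_leN 4 h hx1 hk1
  have h6 := powN (e := 2 - 2 * ε) (3 * 4) (by norm_num) (by positivity) hC0 hZ0 (by linarith)
    hy1 hy2
  have e6 : (2 - 2 * ε) / ((3 * 4 : ℕ) : ℝ) = (1 - ε) / 6 := by push_cast; ring
  rw [e6] at h6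
  calc κ * (C ^ ((1 - ε) / 6))⁻¹ * (max (|(x : ℝ)| ^ 3) ((y : ℝ) ^ 2)) ^ ((1 - ε) / 6)
      ≤ κ * (C ^ ((1 - ε) / 6))⁻¹ * (C ^ ((1 - ε) / 6) * Z ^ (2 - 2 * ε)) :=
        mul_le_mul_of_nonneg_left h6 (by positivity)
    _ = κ * Z ^ (2 - 2 * ε) := by
        have : C ^ ((1 - ε) / 6) ≠ 0 := by positivity
        field_simp
    _ ≤ tp T M := h1'

end Pool.Agent.NH26.HC
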