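import Mathlib
import Pool.Agent.NH26.HC.Sqf

/-!
The part of an integer prime to a finite set of primes.
-/

set_option autoImplicit false

namespace Pool.Agent.NH26.HC

open Finset

theorem tp_mul (T : Finset ℕ) (hT : ∀ p ∈ T, p.Prime) (m n : ℤ) :
    tp T (m * n) = tp T m * tp T n := by
  unfold tp
  push_cast
  rw [abs_mul]
  have h1 : ∏ p ∈ T, (padicNorm p ((m : ℚ) * (n : ℚ)) : ℝ) =
      (∏ p ∈ T, (padicNorm p (m : ℚ) : ℝ)) * ∏ p ∈ T, (padicNorm p (n : ℚ) : ℝ) := by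
    rw [← prod_mul_distrib]
    refine prod_congr rfl fun p hp => ?_
    have := Fact.mk (hT p hp)
    rw [padicNorm.mul]
    push_cast
    ring
  rw [h1]
  ring

theorem prod_nonneg' (T : Finset ℕ) (n : ℤ) : 0 ≤ ∏ p ∈ T, (padicNorm p (n : ℚ) : ℝ) :=
  prod_nonneg fun p _ => by exact_mod_cast padicNorm.nonneg (p := p) _

theorem tp_nonneg (T : Finset ℕ) (n : ℤ) : 0 ≤ tp T n :=
  mul_nonneg (abs_nonneg _) (prod_nonneg' T n)

theorem tp_le (T : Finset ℕ) (hT : ∀ p ∈ T, p.Prime) (n : ℤ) : tp T n ≤ |(n : ℝ)| := by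
  unfold tp
  have h1 : ∏ p ∈ T, (padicNorm p (n : ℚ) : ℝ) ≤ 1 := by
    refine prod_le_one (fun p _ => by exact_mod_cast padicNorm.nonneg (p := p) _) fun p hp => ?_
    have := Fact.mk (hT p hp)
    exact_mod_cast padicNorm.of_int (p := p) n
  calc |(n : ℝ)| * ∏ p ∈ T, (padicNorm p (n : ℚ) : ℝ) ≤ |(n : ℝ)| * 1 :=
        mul_le_mul_of_nonneg_left h1 (abs_nonneg _)
    _ = |(n : ℝ)| := mul_one _

/-- the product formula part -/
theorem tp_eq (T : Finset ℕ) (hT : ∀ p ∈ T, p.Prime) (n : ℤ) (hn : n ≠ 0) :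
    tp T n * ((∏ p ∈ T, p ^ padicValInt p n : ℕ) : ℝ) = |(n : ℝ)| := by
  unfold tp
  push_cast
  rw [mul_assoc, ← prod_mul_distrib]
  have : ∏ p ∈ T, (padicNorm p (n : ℚ) : ℝ) * (p : ℝ) ^ padicValInt p n = 1 := by
    refine prod_eq_one fun p hp => ?_
    have := Fact.mk (hT p hp)
    have hp0 : (p : ℝ) ≠ 0 := by exact_mod_cast (hT p hp).ne_zero
    rw [padicNorm.eq_zpow_of_nonzero (by exact_mod_cast hn), padicValRat.of_int]
    push_cast
    rw [zpow_neg, zpow_natCast]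
    exact inv_mul_cancel₀ (pow_ne_zero _ hp0)
  rw [this, mul_one]

theorem prod_dvd (T : Finset ℕ) (hT : ∀ p ∈ T, p.Prime) (n : ℤ) (hn : n ≠ 0) :
    (∏ p ∈ T, p ^ padicValInt p n) ∣ n.natAbs := by
  apply Finset.prod_dvd_of_isRelPrime
  · intro p hp q hq hpq
    have h1 : Nat.Coprime (p ^ padicValInt p n) (q ^ padicValInt q n) :=
      Nat.Coprime.pow _ _ ((Nat.coprime_primes (hT p hp) (hT q hq)).2 hpq)
    exact Nat.coprime_iff_isRelPrime.1 h1
  · intro p hp
    have := Fact.mk (hT p hp)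
    have := (padicValInt_dvd_iff (p := p) (padicValInt p n) n).2 (Or.inr le_rfl)
    rw [← Int.natCast_pow, Int.natCast_dvd] at this
    exact this

theorem one_le_tp (T : Finset ℕ) (hT : ∀ p ∈ T, p.Prime) (n : ℤ) (hn : n ≠ 0) : 1 ≤ tp T n := by
  have h1 := tp_eq T hT n hn
  have h2 := prod_dvd T hT n hn
  have h3 : (∏ p ∈ T, p ^ padicValInt p n : ℕ) ≤ n.natAbs := Nat.le_of_dvd (Int.natAbs_pos.2 hn) h2
  have h4 : ((∏ p ∈ T, p ^ padicValInt p n : ℕ) : ℝ) ≤ |(n : ℝ)| := by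
    rw [← Int.cast_abs, Int.abs_eq_natAbs]
    exact_mod_cast h3
  have h5 : (0 : ℝ) < ((∏ p ∈ T, p ^ padicValInt p n : ℕ) : ℝ) := by
    have : 0 < (∏ p ∈ T, p ^ padicValInt p n : ℕ) :=
      prod_pos fun p hp => pow_pos (hT p hp).pos _
    exact_mod_cast this
  by_contra hcon
  push Not at hcon
  nlinarith

/-- an integer all of whose prime factors are in `T` -/
def TU (T : Finset ℕ) (n : ℤ) : Prop := ∀ p : ℕ, p.Prime → (p : ℤ) ∣ n → p ∈ T

theorem natAbs_eq_prod (T : Finset ℕ) (hT : ∀ p ∈ T, p.Prime) (n : ℤ) (hn : n ≠ 0)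
    (h : TU T n) : n.natAbs = ∏ p ∈ T, p ^ padicValInt p n := by
  have h1 := Nat.prod_factorization_pow_eq_self (Int.natAbs_ne_zero.2 hn)
  conv_lhs => rw [← h1]
  rw [Finsupp.prod]
  have hsub : n.natAbs.factorization.support ⊆ T := by
    intro p hp
    rw [Nat.support_factorization] at hp
    exact h p (Nat.prime_of_mem_primeFactors hp)
      (Int.natCast_dvd.2 (Nat.dvd_of_mem_primeFactors hp))
  rw [prod_subset hsub]
  · refine prod_congr rfl fun p hp => ?_
    rw [Nat.factorization_def _ (hT p hp)]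
    rfl
  · intro p _ hp
    rw [Finsupp.notMem_support_iff.1 hp, pow_zero]

theorem tp_unit (T : Finset ℕ) (hT : ∀ p ∈ T, p.Prime) (n : ℤ) (hn : n ≠ 0) (h : TU T n) :
    tp T n = 1 := by
  have h1 := tp_eq T hT n hn
  rw [← natAbs_eq_prod T hT n hn h] at h1
  have h2 : ((n.natAbs : ℕ) : ℝ) = |(n : ℝ)| := by
    rw [← Int.cast_abs, Int.abs_eq_natAbs]; rfl
  rw [h2] at h1
  have h3 : |(n : ℝ)| ≠ 0 := by
    rw [abs_ne_zero]; exact_mod_cast hn
  field_simp at h1
  exact h1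

/-- `T`-units modulo `n`-th powers: bounded representatives -/
theorem unit_split (T : Finset ℕ) (hT : ∀ p ∈ T, p.Prime) (n : ℕ) (hn : 1 ≤ n) (hn5 : n ≤ 5)
    (u : ℤ) (hu : u ≠ 0) (h : TU T u) :
    ∃ D t : ℤ, u = D * t ^ n ∧ D ≠ 0 ∧ t ≠ 0 ∧ TU T t ∧ |D| ≤ ((∏ p ∈ T, p : ℕ) : ℤ) ^ 4 ∧
      ∀ p : ℕ, p.Prime → (p : ℤ) ∣ t → (p : ℤ) ^ 5 ∣ u := by
  induction hN : u.natAbs using Nat.strong_induction_on generalizing u with
  | _ N ih =>
    by_cases hp : ∃ p ∈ T, (p : ℤ) ^ 5 ∣ u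
    · obtain ⟨p, hpT, hdvd⟩ := hp
      have hpp := hT p hpT
      have hp0 : (p : ℤ) ≠ 0 := by exact_mod_cast hpp.ne_zero
      have h1 : (p : ℤ) ^ n ∣ u := (pow_dvd_pow _ hn5).trans hdvd
      obtain ⟨u', hu'⟩ := h1
      have hu0 : u' ≠ 0 := by rintro rfl; apply hu; rw [hu', mul_zero]
      have hTU' : TU T u' := fun q hq hqd => h q hq (by rw [hu']; exact hqd.mul_left _)
      have hlt : u'.natAbs < N := by
        rw [← hN, hu', Int.natAbs_mul, Int.natAbs_pow]
        have : 1 < ((p : ℤ).natAbs) ^ n := by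
          rw [Int.natAbs_natCast]
          exact Nat.one_lt_pow (by omega) hpp.one_lt
        have hpos : 0 < u'.natAbs := Int.natAbs_pos.2 hu0
        nlinarith
      obtain ⟨D, t, e1, hD, ht, hTt, hDb, hlast⟩ := ih _ hlt u' hu0 hTU' rfl
      refine ⟨D, p * t, ?_, hD, mul_ne_zero hp0 ht, ?_, hDb, ?_⟩
      · rw [hu', e1]; ring
      · intro q hq hqd
        rcases (Nat.prime_iff_prime_int.1 hq).dvd_or_dvd hqd with h2 | h2
        · have : q = p := by
            have := Int.natCast_dvd_natCast.1 h2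
            exact (Nat.prime_dvd_prime_iff_eq hq hpp).1 this
          rw [this]; exact hpT
        · exact hTt q hq h2
      · intro q hq hqd
        rcases (Nat.prime_iff_prime_int.1 hq).dvd_or_dvd hqd with h2 | h2
        · have : q = p := by
            have := Int.natCast_dvd_natCast.1 h2
            exact (Nat.prime_dvd_prime_iff_eq hq hpp).1 this
          rw [this]; exact hdvd
        · exact (hlast q hq h2).trans (by rw [hu']; exact Dvd.intro_left _ rfl)
    · push Not at hp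
      refine ⟨u, 1, by ring, hu, one_ne_zero, ?_, ?_, ?_⟩
      · intro q hq hqd
        have : (q : ℤ) ∣ 1 := hqd
        have := Int.natCast_dvd_natCast.1 (by exact_mod_cast this : (q : ℤ) ∣ ((1 : ℕ) : ℤ))
        exact absurd (Nat.dvd_one.1 this) hq.one_lt.ne'
      · rw [Int.abs_eq_natAbs, natAbs_eq_prod T hT u hu h]
        rw [← Nat.cast_pow, ← prod_pow]
        apply Int.ofNat_le.2
        refine prod_le_prod' fun p hpT => ?_
        refine Nat.pow_le_pow_right (hT p hpT).pos ?_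
        by_contra hcon
        push Not at hcon
        have := Fact.mk (hT p hpT)
        apply hp p hpT
        exact (padicValInt_dvd_iff (p := p) 5 u).2 (Or.inr hcon)
      · intro q hq hqd
        have : (q : ℤ) ∣ 1 := hqd
        have := Int.natCast_dvd_natCast.1 (by exact_mod_cast this : (q : ℤ) ∣ ((1 : ℕ) : ℤ))
        exact absurd (Nat.dvd_one.1 this) hq.one_lt.ne'

end Pool.Agent.NH26.HC
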