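import Mathlib
import Pool.Agent.NH26.HC.Core3
import Pool.Agent.NH26.HC.Tp

/-!
Squares among the values of binary cubic forms; `y² - x³ = D M⁴`.
-/

set_option autoImplicit false

namespace Pool.Agent.NH26.HC

open Finset

/-- the quartic form of a point of `y² = X³ - 3 h X t² + g t³` -/
theorem quartic_of_point (X1 t1 g0 h g y : ℤ) (hc : IsCoprime X1 t1) (hg0 : g0 ≠ 0) (ht : t1 ≠ 0)
    (hy : y ^ 2 = (g0 * X1) ^ 3 - 3 * h * (g0 * X1) * (g0 * t1) ^ 2 + g * (g0 * t1) ^ 3) :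
    ∃ b c d e : ℤ, b ^ 2 - (g0 ^ 8 * t1) * c = g0 ^ 15 * X1 ∧
      (g0 ^ 8 * t1) ^ 2 * d - 3 * (g0 ^ 8 * t1) * b * c + 2 * b ^ 3 = 2 * g0 ^ 21 * y ∧
      qi (g0 ^ 8 * t1) b c d e = 12 * g0 ^ 14 * h ∧
      qj (g0 ^ 8 * t1) b c d e = -4 * g0 ^ 21 * g := by
  obtain ⟨inv, k', hinv⟩ := (hc.pow_right : IsCoprime X1 (t1 ^ 3))
  set k := -k' with hk
  have E1 : inv * X1 = 1 + t1 ^ 3 * k := by rw [hk]; linear_combination hinv
  set R := y * inv with hR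
  set w := g0 ^ 3 * (X1 * (2 * k + t1 ^ 3 * k ^ 2) - 3 * h * t1 ^ 2 * inv * k + g * inv ^ 2) with hw
  set W := -(3 * h * g0 ^ 3 * inv) + t1 * w with hW
  have RX : R * X1 = y * (1 + t1 ^ 3 * k) := by rw [hR]; linear_combination y * E1
  have R2 : R ^ 2 = g0 ^ 3 * X1 + t1 ^ 2 * W := by
    have e1 : R ^ 2 = y ^ 2 * inv ^ 2 := by rw [hR]; ring
    rw [e1, hy, hW, hw]
    linear_combination (g0 ^ 3 * X1 * (inv * X1 + 1 + t1 ^ 3 * k) - 3 * h * g0 ^ 3 * t1 ^ 2 * inv) *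
      E1
  set b := g0 ^ 6 * R with hb
  set c := g0 ^ 4 * t1 * W with hcc
  set d := g0 ^ 2 * (R * W - 2 * g0 ^ 3 * y * k * t1) with hd
  set e := t1 * W ^ 2 + 4 * g0 ^ 3 * X1 * w - 12 * h * g0 ^ 6 * t1 ^ 2 * k - 8 * g0 ^ 3 * y * k * R
    with he
  have G1 : b ^ 2 - (g0 ^ 8 * t1) * c = g0 ^ 15 * X1 := by
    rw [hb, hcc]; linear_combination g0 ^ 12 * R2
  have G2 : (g0 ^ 8 * t1) ^ 2 * d - 3 * (g0 ^ 8 * t1) * b * c + 2 * b ^ 3 = 2 * g0 ^ 21 * y := by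
    rw [hb, hcc, hd]; linear_combination 2 * g0 ^ 18 * R * R2 + 2 * g0 ^ 21 * RX
  have G3 : qi (g0 ^ 8 * t1) b c d e = 12 * g0 ^ 14 * h := by
    unfold qi
    rw [hb, hcc, hd, he]
    linear_combination (-4 * W * g0 ^ 8) * R2 + 12 * h * g0 ^ 14 * E1
  refine ⟨b, c, d, e, G1, G2, G3, ?_⟩
  have hs := qsyz (g0 ^ 8 * t1) b c d e 1 0
  have s1 : tq (g0 ^ 8 * t1) b c d e 1 0 = 2 * g0 ^ 21 * y := by
    rw [← G2]; unfold tq; ring
  have s2 : hq (g0 ^ 8 * t1) b c d e 1 0 = g0 ^ 15 * X1 := by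
    rw [← G1]; unfold hq; ring
  have s3 : qu (g0 ^ 8 * t1) b c d e 1 0 = g0 ^ 8 * t1 := by unfold qu; ring
  rw [s1, s2, s3, G3] at hs
  have h3 : (g0 ^ 8 * t1) ^ 3 ≠ 0 := pow_ne_zero _ (mul_ne_zero (pow_ne_zero _ hg0) ht)
  apply mul_left_cancel₀ h3
  linear_combination hs - 4 * g0 ^ 42 * hy

/-- squares among the values of a cubic form with nonzero leading coefficient -/
theorem sq_form0 (a b c d : ℤ) (ha : a ≠ 0) (hdi : di a b c d ≠ 0) (T : Finset ℕ)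
    (hT : ∀ p ∈ T, p.Prime) (ε : ℝ) (hε : 0 < ε) (hε1 : ε ≤ 1) :
    ∃ κ : ℝ, 0 < κ ∧ ∀ s t M : ℤ, IsCoprime s t → cu a b c d s t = M ^ 2 → M ≠ 0 →
      κ * (max |(s : ℝ)| |(t : ℝ)|) ^ (1 - ε) ≤ tp T M := by
  set h := b ^ 2 - a * c with hh
  set g := a ^ 2 * d - 3 * a * b * c + 2 * b ^ 3 with hg
  have hsyz : g ^ 2 - 4 * h ^ 3 = a ^ 2 * di a b c d := by
    rw [hg, hh]; unfold di; ring
  -- the size of the invariants
  set A : ℝ := |(a : ℝ)| with hA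
  have hA1 : 1 ≤ A := by
    have := Int.one_le_abs ha
    rw [hA]
    exact_mod_cast this
  set M0 : ℝ := 12 * A ^ 21 * (|(h : ℝ)| + |(g : ℝ)| + 1) with hM0
  have hM01 : 1 ≤ M0 := by
    have h1 : 1 ≤ A ^ 21 := one_le_pow₀ hA1
    have h2 : 1 ≤ |(h : ℝ)| + |(g : ℝ)| + 1 := by
      have := abs_nonneg (h : ℝ)
      have := abs_nonneg (g : ℝ)
      linarith
    rw [hM0]
    nlinarith
  set K : ℝ := 1000 * M0 ^ 3 with hK
  have hK0 : 0 < K := by positivity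
  set S : Set (ℤ × ℤ × ℤ × ℤ × ℤ) := {f : ℤ × ℤ × ℤ × ℤ × ℤ | (|(f.1 : ℝ)| ≤ K ∧
    |(f.2.1 : ℝ)| ≤ K ∧ |(f.2.2.1 : ℝ)| ≤ K ∧ |(f.2.2.2.1 : ℝ)| ≤ K ∧ |(f.2.2.2.2 : ℝ)| ≤ K) ∧
    (qi f.1 f.2.1 f.2.2.1 f.2.2.2.1 f.2.2.2.2) ^ 3 ≠
      27 * (qj f.1 f.2.1 f.2.2.1 f.2.2.2.1 f.2.2.2.2) ^ 2} with hS
  have hSf : S.Finite := (finite_box5 K).subset (fun f hf => hf.1)
  obtain ⟨κ, hκ, hbd⟩ := unif hSf (fun κ f => ∀ s t : ℤ, IsCoprime s t →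
    tq f.1 f.2.1 f.2.2.1 f.2.2.2.1 f.2.2.2.2 s t ≠ 0 →
      κ * (max |(s : ℝ)| |(t : ℝ)|) ^ (4 - 4 * ε) ≤
        tp T (tq f.1 f.2.1 f.2.2.1 f.2.2.2.1 f.2.2.2.2 s t))
    (by
      intro c c' f hc' hcc h s t hst hne
      refine le_trans ?_ (h s t hst hne)
      exact mul_le_mul_of_nonneg_right hcc (Real.rpow_nonneg (le_max_of_le_left (abs_nonneg _)) _))
    (fun f hf => rid_tq f.1 f.2.1 f.2.2.1 f.2.2.2.1 f.2.2.2.2 hf.2 T hT (4 * ε) (by linarith)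
      (by linarith))
  set C : ℝ := 18 * K ^ 2 + |(b : ℝ)| * (16 * K) + 16 * K with hC
  have hC0 : 0 < C := by positivity
  set E : ℝ := 2 * A ^ 22 with hE
  have hE0 : 0 < E := by positivity
  set κ1 : ℝ := κ * (C ^ (1 - ε))⁻¹ * E⁻¹ with hκ1
  have hκ10 : 0 < κ1 := by positivity
  refine ⟨min 1 κ1, lt_min one_pos hκ10, ?_⟩
  intro s t M hst hM hM0'
  have hZs0 : (0 : ℝ) ≤ max |(s : ℝ)| |(t : ℝ)| := le_max_of_le_left (abs_nonneg _)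
  by_cases ht : t = 0
  · -- t = 0
    rw [ht] at hst
    have hs1 : IsUnit s := isCoprime_zero_right.1 hst
    have hs2 : |(s : ℝ)| = 1 := by
      rcases Int.isUnit_iff.1 hs1 with h1 | h1 <;> rw [h1] <;> simp
    have hmax : max |(s : ℝ)| |(t : ℝ)| = 1 := by
      rw [hs2, ht]; simp
    rw [hmax, Real.one_rpow, mul_one]
    exact (min_le_left _ _).trans (one_le_tp T hT M hM0')
  set X := a * s + b * t with hX
  have hrel : (a * M) ^ 2 = X ^ 3 - 3 * h * X * t ^ 2 + g * t ^ 3 := by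
    have : (a * M) ^ 2 = a ^ 2 * cu a b c d s t := by rw [hM]; ring
    rw [this, hX, hh, hg]; unfold cu; ring
  -- the gcd
  obtain ⟨g0, X1, t1, hg0, hXe, hte, hcop⟩ : ∃ g0 X1 t1 : ℤ, g0 ≠ 0 ∧ X = g0 * X1 ∧ t = g0 * t1 ∧
      IsCoprime X1 t1 := by
    have hgne : (Int.gcd X t : ℤ) ≠ 0 := by
      have : Int.gcd X t ≠ 0 := by
        intro h0
        exact ht (Int.gcd_eq_zero_iff.1 h0).2
      exact_mod_cast this
    obtain ⟨X1, h1⟩ := Int.gcd_dvd_left X t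
    obtain ⟨t1, h2⟩ := Int.gcd_dvd_right X t
    refine ⟨Int.gcd X t, X1, t1, hgne, h1, h2, ?_⟩
    obtain ⟨u, v, huv⟩ : ∃ u v : ℤ, (Int.gcd X t : ℤ) = X * u + t * v :=
      ⟨_, _, Int.gcd_eq_gcd_ab X t⟩
    refine ⟨u, v, ?_⟩
    apply mul_left_cancel₀ hgne
    calc (Int.gcd X t : ℤ) * (u * X1 + v * t1) = ((Int.gcd X t : ℤ) * X1) * u +
          ((Int.gcd X t : ℤ) * t1) * v := by ring
      _ = X * u + t * v := by rw [← h1, ← h2]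
      _ = (Int.gcd X t : ℤ) * 1 := by rw [← huv, mul_one]
  have ht1 : t1 ≠ 0 := by
    rintro rfl
    exact ht (by rw [hte, mul_zero])
  have hg0a : g0 ∣ a := by
    have h1 : g0 ∣ a * s := by
      have : a * s = X - b * t := by rw [hX]; ring
      rw [this, hXe, hte]
      exact ⟨X1 - b * t1, by ring⟩
    have h2 : IsCoprime g0 s := by
      obtain ⟨u, v, huv⟩ := hst
      exact ⟨v * t1, u, by rw [hte] at huv; linear_combination huv⟩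
    exact h2.dvd_of_dvd_mul_right h1
  have hg0A : |(g0 : ℝ)| ≤ A := by
    have : |g0| ≤ |a| := Int.le_of_dvd (abs_pos.2 ha) ((abs_dvd_abs _ _).2 hg0a)
    rw [hA]
    exact_mod_cast this
  have hg01 : 1 ≤ |(g0 : ℝ)| := by exact_mod_cast Int.one_le_abs hg0
  obtain ⟨β, γ, δ, ε', q1, q2, q3, q4⟩ := quartic_of_point X1 t1 g0 h g (a * M) hcop hg0 ht1 (by
    rw [← hXe, ← hte]; exact hrel)
  have hlead : g0 ^ 8 * t1 ≠ 0 := mul_ne_zero (pow_ne_zero _ hg0) ht1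
  have hne : (qi (g0 ^ 8 * t1) β γ δ ε') ^ 3 ≠ 27 * (qj (g0 ^ 8 * t1) β γ δ ε') ^ 2 := by
    rw [q3, q4]
    intro h0
    have h1 : 432 * g0 ^ 42 * (g ^ 2 - 4 * h ^ 3) = 0 := by linear_combination -h0
    rw [hsyz] at h1
    have : 432 * g0 ^ 42 * (a ^ 2 * di a b c d) ≠ 0 :=
      mul_ne_zero (mul_ne_zero (by norm_num) (pow_ne_zero _ hg0))
        (mul_ne_zero (pow_ne_zero _ ha) hdi)
    exact this h1
  have pwb : ∀ n : ℕ, n ≤ 21 → |(g0 : ℝ)| ^ n ≤ A ^ 21 := by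
    intro n hn
    exact (pow_le_pow_left₀ (abs_nonneg _) hg0A n).trans (pow_le_pow_right₀ hA1 hn)
  obtain ⟨a0, b0, c0, d0, e0, u, v, huv, hi0, hj0, hcu, hhe, htt, k1, k2, k3, k4, k5⟩ :=
    quartic_reduce (g0 ^ 8 * t1) β γ δ ε' hlead hne M0 hM01 (by
      rw [q3]
      push_cast
      rw [abs_mul, abs_mul, abs_pow]
      have h12 : |(12 : ℝ)| = 12 := by norm_num
      rw [h12, hM0]
      have h1 := pwb 14 (by norm_num)
      have h2 : |(h : ℝ)| ≤ |(h : ℝ)| + |(g : ℝ)| + 1 := by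
        have := abs_nonneg (g : ℝ)
        linarith
      have := mul_le_mul h1 h2 (abs_nonneg _) (by positivity)
      nlinarith) (by
      rw [q4]
      push_cast
      rw [abs_mul, abs_mul, abs_pow, abs_neg]
      have h12 : |(4 : ℝ)| = 4 := by norm_num
      rw [h12, hM0]
      have h1 := pwb 21 (by norm_num)
      have h2 : |(g : ℝ)| ≤ |(h : ℝ)| + |(g : ℝ)| + 1 := by
        have := abs_nonneg (h : ℝ)
        linarith
      have h3 := mul_le_mul h1 h2 (abs_nonneg _) (by positivity)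
      have h4 : 0 ≤ A ^ 21 * (|(h : ℝ)| + |(g : ℝ)| + 1) := by positivity
      nlinarith)
  have hmem : ((a0, b0, c0, d0, e0) : ℤ × ℤ × ℤ × ℤ × ℤ) ∈ S :=
    ⟨⟨k1, k2, k3, k4, k5⟩, by
      show (qi a0 b0 c0 d0 e0) ^ 3 ≠ 27 * (qj a0 b0 c0 d0 e0) ^ 2
      rw [hi0, hj0]; exact hne⟩
  rw [q2] at htt
  have haM : 2 * g0 ^ 21 * (a * M) ≠ 0 :=
    mul_ne_zero (mul_ne_zero (by norm_num) (pow_ne_zero _ hg0)) (mul_ne_zero ha hM0')
  have htne : tq a0 b0 c0 d0 e0 u v ≠ 0 := by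
    intro h0
    rw [h0] at htt
    have : (2 * g0 ^ 21 * (a * M)) ^ 2 = 0 := by rw [← htt]; ring
    exact haM (pow_eq_zero_iff (by norm_num) |>.1 this)
  have h1 := hbd _ hmem u v huv htne
  have htp : tp T (tq a0 b0 c0 d0 e0 u v) = tp T (2 * g0 ^ 21 * (a * M)) := by
    rcases sq_eq_sq_iff_eq_or_eq_neg.1 htt with h2 | h2
    · rw [h2]
    · rw [h2]
      unfold tp
      push_cast
      rw [abs_neg]
      congr 1
      refine prod_congr rfl fun p _ => ?_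
      rw [padicNorm.neg]
  have htp2 : tp T (2 * g0 ^ 21 * (a * M)) ≤ E * tp T M := by
    have e1 : 2 * g0 ^ 21 * (a * M) = (2 * g0 ^ 21 * a) * M := by ring
    rw [e1, tp_mul T hT]
    apply mul_le_mul_of_nonneg_right _ (tp_nonneg T M)
    refine (tp_le T hT _).trans ?_
    push_cast
    rw [abs_mul, abs_mul, abs_pow]
    have h12 : |(2 : ℝ)| = 2 := by norm_num
    rw [h12, hE, ← hA]
    have h3 := pwb 21 (by norm_num)
    calc 2 * |(g0 : ℝ)| ^ 21 * A ≤ 2 * A ^ 21 * A := by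
          apply mul_le_mul_of_nonneg_right _ (by positivity)
          linarith
      _ = 2 * A ^ 22 := by ring
  set Z := max |(u : ℝ)| |(v : ℝ)| with hZ
  have hZ0 : 0 ≤ Z := le_max_of_le_left (abs_nonneg _)
  have h1' : κ * Z ^ (4 - 4 * ε) ≤ E * tp T M := by
    refine le_trans ?_ htp2
    rw [← htp]
    exact h1
  -- sizes of t, X, s
  have hX1 : |(X : ℝ)| ≤ 18 * K ^ 2 * Z ^ 4 := by
    have h2 := hq_le a0 b0 c0 d0 e0 u v K k1 k2 k3 k4 k5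
    rw [hhe, q1] at h2
    refine le_trans ?_ h2
    have e1 : ((g0 ^ 15 * X1 : ℤ) : ℝ) = (g0 : ℝ) ^ 14 * (X : ℝ) := by
      rw [hXe]; push_cast; ring
    rw [e1, abs_mul, abs_pow]
    have h3 : 1 ≤ |(g0 : ℝ)| ^ 14 := one_le_pow₀ hg01
    nlinarith [abs_nonneg (X : ℝ)]
  have ht2 : |(t : ℝ)| ≤ 16 * K * Z ^ 4 := by
    have h2 := qu_le a0 b0 c0 d0 e0 u v K k1 k2 k3 k4 k5
    rw [hcu] at h2
    refine le_trans ?_ h2
    have e1 : ((g0 ^ 8 * t1 : ℤ) : ℝ) = (g0 : ℝ) ^ 7 * (t : ℝ) := by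
      rw [hte]; push_cast; ring
    rw [e1, abs_mul, abs_pow]
    have h3 : 1 ≤ |(g0 : ℝ)| ^ 7 := one_le_pow₀ hg01
    nlinarith [abs_nonneg (t : ℝ)]
  have hZ4 : 0 ≤ Z ^ 4 := by positivity
  have hs2 : |(s : ℝ)| ≤ (18 * K ^ 2 + |(b : ℝ)| * (16 * K)) * Z ^ 4 := by
    have e1 : (a : ℝ) * s = X - b * t := by rw [hX]; push_cast; ring
    have h2 : |(a : ℝ) * s| ≤ |(X : ℝ)| + |(b : ℝ)| * |(t : ℝ)| := by
      rw [e1, ← abs_mul]; exact abs_sub _ _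
    rw [abs_mul] at h2
    have h3 : |(s : ℝ)| ≤ |(a : ℝ)| * |(s : ℝ)| := by
      rw [← hA]; nlinarith [abs_nonneg (s : ℝ)]
    have h4 := mul_le_mul_of_nonneg_left ht2 (abs_nonneg (b : ℝ))
    nlinarith
  have hmax : max |(s : ℝ)| |(t : ℝ)| ≤ C * Z ^ 4 := by
    refine max_le ?_ ?_
    · refine hs2.trans ?_
      apply mul_le_mul_of_nonneg_right _ hZ4
      rw [hC]; nlinarith
    · refine ht2.trans ?_
      apply mul_le_mul_of_nonneg_right _ hZ4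
      rw [hC]
      have : 0 ≤ 18 * K ^ 2 + |(b : ℝ)| * (16 * K) := by positivity
      linarith
  have h5 : (max |(s : ℝ)| |(t : ℝ)|) ^ (1 - ε) ≤ C ^ (1 - ε) * Z ^ (4 - 4 * ε) := by
    have h6 := Real.rpow_le_rpow hZs0 hmax (by linarith : 0 ≤ 1 - ε)
    rw [Real.mul_rpow hC0.le hZ4, ← Real.rpow_natCast, ← Real.rpow_mul hZ0] at h6
    have e1 : ((4 : ℕ) : ℝ) * (1 - ε) = 4 - 4 * ε := by push_cast; ring
    rwa [e1] at h6
  calc min 1 κ1 * (max |(s : ℝ)| |(t : ℝ)|) ^ (1 - ε)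
      ≤ κ1 * (max |(s : ℝ)| |(t : ℝ)|) ^ (1 - ε) :=
        mul_le_mul_of_nonneg_right (min_le_right _ _) (Real.rpow_nonneg hZs0 _)
    _ ≤ κ1 * (C ^ (1 - ε) * Z ^ (4 - 4 * ε)) := mul_le_mul_of_nonneg_left h5 hκ10.le
    _ = E⁻¹ * (κ * Z ^ (4 - 4 * ε)) := by
        have : C ^ (1 - ε) ≠ 0 := by positivity
        rw [hκ1]
        field_simp
    _ ≤ E⁻¹ * (E * tp T M) := mul_le_mul_of_nonneg_left h1' (by positivity)
    _ = tp T M := by field_simp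

end Pool.Agent.NH26.HC
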