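import Mathlib
import Pool.Agent.NH26.HC.Core4

/-!
`y² - x³ = u mⁿ`, `n = 2, 3, 4`, with `u` a product of given primes.
-/

set_option autoImplicit false

namespace Pool.Agent.NH26.HC

open Finset

/-- squares among the values of a cubic form -/
theorem sq_form (a b c d : ℤ) (hdi : di a b c d ≠ 0) (T : Finset ℕ)
    (hT : ∀ p ∈ T, p.Prime) (ε : ℝ) (hε : 0 < ε) (hε1 : ε ≤ 1) :
    ∃ κ : ℝ, 0 < κ ∧ ∀ s t M : ℤ, IsCoprime s t → cu a b c d s t = M ^ 2 → M ≠ 0 →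
      κ * (max |(s : ℝ)| |(t : ℝ)|) ^ (1 - ε) ≤ tp T M := by
  obtain ⟨j, hj⟩ := cu_ne a b c d hdi
  have hdi' : di (cu a b c d 1 j) (cb a b c d 1 0 j 1) (cb a b c d 0 1 1 j) (cu a b c d 0 1) ≠ 0 := by
    have := di_tr a b c d 1 0 j 1
    rw [this]
    simpa using hdi
  obtain ⟨κ, hκ, hb⟩ := sq_form0 _ _ _ _ hj hdi' T hT ε hε hε1
  have hj0 : (0 : ℝ) < 1 + |(j : ℝ)| := by positivity
  refine ⟨κ * ((1 + |(j : ℝ)|) ^ (1 - ε))⁻¹, by positivity, fun s t M hst hM hM0 => ?_⟩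
  have hc : IsCoprime s (t - j * s) := by
    have := (IsCoprime.add_mul_left_right_iff (x := s) (y := t) (z := -j)).2 hst
    rwa [show t + s * -j = t - j * s by ring] at this
  have e1 : cu (cu a b c d 1 j) (cb a b c d 1 0 j 1) (cb a b c d 0 1 1 j) (cu a b c d 0 1) s
      (t - j * s) = M ^ 2 := by
    rw [cu_tr a b c d 1 0 j 1 s (t - j * s), ← hM]
    congr 1
    ring
    ring
  have h2 := hb s (t - j * s) M hc e1 hM0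
  refine le_trans ?_ h2
  have h3 : max |(s : ℝ)| |(t : ℝ)| ≤ (1 + |(j : ℝ)|) * max |(s : ℝ)| |((t - j * s : ℤ) : ℝ)| := by
    have hm1 := le_max_left |(s : ℝ)| |((t - j * s : ℤ) : ℝ)|
    have hm2 := le_max_right |(s : ℝ)| |((t - j * s : ℤ) : ℝ)|
    set m := max |(s : ℝ)| |((t - j * s : ℤ) : ℝ)|
    have hm0 : 0 ≤ m := (abs_nonneg _).trans hm1
    refine max_le ?_ ?_
    · nlinarith [abs_nonneg (j : ℝ)]
    · have : (t : ℝ) = ((t - j * s : ℤ) : ℝ) + j * s := by push_cast; ring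
      rw [this]
      calc |((t - j * s : ℤ) : ℝ) + j * s| ≤ |((t - j * s : ℤ) : ℝ)| + |(j : ℝ) * s| := abs_add_le _ _
        _ = |((t - j * s : ℤ) : ℝ)| + |(j : ℝ)| * |(s : ℝ)| := by rw [abs_mul]
        _ ≤ m + |(j : ℝ)| * m := by
          have := mul_le_mul_of_nonneg_left hm1 (abs_nonneg (j : ℝ))
          linarith
        _ = (1 + |(j : ℝ)|) * m := by ring
  have h4 := Real.rpow_le_rpow (le_max_of_le_left (abs_nonneg _)) h3 (by linarith : 0 ≤ 1 - ε)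
  rw [Real.mul_rpow hj0.le (le_max_of_le_left (abs_nonneg _))] at h4
  calc κ * ((1 + |(j : ℝ)|) ^ (1 - ε))⁻¹ * (max |(s : ℝ)| |(t : ℝ)|) ^ (1 - ε)
      ≤ κ * ((1 + |(j : ℝ)|) ^ (1 - ε))⁻¹ * ((1 + |(j : ℝ)|) ^ (1 - ε) *
        (max |(s : ℝ)| |((t - j * s : ℤ) : ℝ)|) ^ (1 - ε)) := by
        apply mul_le_mul_of_nonneg_left h4 (by positivity)
    _ = κ * (max |(s : ℝ)| |((t - j * s : ℤ) : ℝ)|) ^ (1 - ε) := by
        have : (1 + |(j : ℝ)|) ^ (1 - ε) ≠ 0 := by positivity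
        field_simp

/-- **the case of fourth powers** -/
theorem core4 (T : Finset ℕ) (hT : ∀ p ∈ T, p.Prime) (ε : ℝ) (hε : 0 < ε) (hε1 : ε ≤ 1)
    (B : ℝ) :
    ∃ κ : ℝ, 0 < κ ∧ ∀ x y M D : ℤ, D ≠ 0 → |(D : ℝ)| ≤ B → M ≠ 0 → IsCoprime x M →
      y ^ 2 - x ^ 3 = D * M ^ 4 →
      κ * (max (|(x : ℝ)| ^ 3) ((y : ℝ) ^ 2)) ^ ((1 - ε) / 6) ≤ tp T M := by
  set Mx : ℝ := 4 * max B 1 with hMx
  set K : ℝ := 1000 * Mx ^ 3 with hK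
  have hMx0 : 0 < Mx := by positivity
  have hK0 : 0 < K := by positivity
  set S : Set (ℤ × ℤ × ℤ × ℤ) := {f : ℤ × ℤ × ℤ × ℤ | (|(f.1 : ℝ)| ≤ K ∧ |(f.2.1 : ℝ)| ≤ K ∧
    |(f.2.2.1 : ℝ)| ≤ K ∧ |(f.2.2.2 : ℝ)| ≤ K) ∧ di f.1 f.2.1 f.2.2.1 f.2.2.2 ≠ 0} with hS
  have hSf : S.Finite := (finite_box4 K).subset (fun f hf => hf.1)
  obtain ⟨κ, hκ, hb⟩ := unif hSf (fun κ f => ∀ s t M : ℤ, IsCoprime s t →
    cu f.1 f.2.1 f.2.2.1 f.2.2.2 s t = M ^ 2 → M ≠ 0 →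
      κ * (max |(s : ℝ)| |(t : ℝ)|) ^ (1 - ε) ≤ tp T M)
    (by
      intro c c' f hc' hcc h s t M hst hM hne
      refine le_trans ?_ (h s t M hst hM hne)
      exact mul_le_mul_of_nonneg_right hcc (Real.rpow_nonneg (le_max_of_le_left (abs_nonneg _)) _))
    (fun f hf => sq_form f.1 f.2.1 f.2.2.1 f.2.2.2 hf.2 T hT ε hε hε1)
  set C : ℝ := (6 * K ^ 2) ^ 3 + |B| * (8 * K) ^ 2 with hC
  have hC0 : 0 < C := by positivity
  refine ⟨κ * (C ^ ((1 - ε) / 6))⁻¹, by positivity, ?_⟩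
  intro x y M D hD hDB hM hxM h
  have hM2 : M ^ 2 ≠ 0 := pow_ne_zero _ hM
  have h' : y ^ 2 - x ^ 3 = D * (M ^ 2) ^ 2 := by rw [h]; ring
  obtain ⟨b, c, d, e1, e2, e3⟩ := cubic_form (hxM.pow_right : IsCoprime x (M ^ 2)) hM2 h'
  have hdi : di (M ^ 2) b c d = 4 * D := by unfold di; exact e3
  have hdi0 : di (M ^ 2) b c d ≠ 0 := by rw [hdi]; omega
  obtain ⟨a0, b0, c0, d0, u, v, huv, hdisc, hcu, hhe, k1, k2, k3, k4⟩ :=
    cubic_reduce (M ^ 2) b c d hdi0 Mx (by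
      rw [hdi, hMx]
      push_cast
      rw [abs_mul]
      have : |(4 : ℝ)| = 4 := by norm_num
      rw [this]
      have := le_max_left B 1
      nlinarith)
  have hmem : ((a0, b0, c0, d0) : ℤ × ℤ × ℤ × ℤ) ∈ S :=
    ⟨⟨k1, k2, k3, k4⟩, by show di a0 b0 c0 d0 ≠ 0; rw [hdisc]; exact hdi0⟩
  have h1' := hb _ hmem u v M huv hcu hM
  set Z := max |(u : ℝ)| |(v : ℝ)| with hZ
  have hZ0 : 0 ≤ Z := le_max_of_le_left (abs_nonneg _)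
  have hx1 : |(x : ℝ)| ≤ 6 * K ^ 2 * Z ^ 2 := by
    have := he_le a0 b0 c0 d0 u v K k1 k2 k3 k4
    rw [hhe, e1] at this
    exact this
  have hM1 : |((M ^ 2 : ℤ) : ℝ)| ≤ 8 * K * Z ^ 3 := by
    have := cu_le a0 b0 c0 d0 u v K k1 k2 k3 k4
    rw [hcu] at this
    exact this
  have hk1 : |((D * M ^ 4 : ℤ) : ℝ)| ≤ |B| * (8 * K) ^ 2 * Z ^ (3 * 2) := by
    have e5 : ((D * M ^ 4 : ℤ) : ℝ) = (D : ℝ) * (((M ^ 2 : ℤ) : ℝ)) ^ 2 := by push_cast; ring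
    rw [e5, abs_mul, abs_pow]
    have h2 : |((M ^ 2 : ℤ) : ℝ)| ^ 2 ≤ (8 * K * Z ^ 3) ^ 2 :=
      pow_le_pow_left₀ (abs_nonneg _) hM1 2
    have h3 : |(D : ℝ)| ≤ |B| := hDB.trans (le_abs_self _)
    calc |(D : ℝ)| * |((M ^ 2 : ℤ) : ℝ)| ^ 2 ≤ |B| * (8 * K * Z ^ 3) ^ 2 :=
          mul_le_mul h3 h2 (by positivity) (abs_nonneg _)
      _ = |B| * (8 * K) ^ 2 * Z ^ (3 * 2) := by ring
  obtain ⟨hy1, hy2⟩ := y_leN 2 h hx1 hk1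
  have h6 := powN (e := 1 - ε) (3 * 2) (by norm_num) (by positivity) hC0 hZ0 (by linarith) hy1 hy2
  have e6 : (1 - ε) / ((3 * 2 : ℕ) : ℝ) = (1 - ε) / 6 := by push_cast; ring
  rw [e6] at h6
  calc κ * (C ^ ((1 - ε) / 6))⁻¹ * (max (|(x : ℝ)| ^ 3) ((y : ℝ) ^ 2)) ^ ((1 - ε) / 6)
      ≤ κ * (C ^ ((1 - ε) / 6))⁻¹ * (C ^ ((1 - ε) / 6) * Z ^ (1 - ε)) :=
        mul_le_mul_of_nonneg_left h6 (by positivity)
    _ = κ * Z ^ (1 - ε) := by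
        have : C ^ ((1 - ε) / 6) ≠ 0 := by positivity
        field_simp
    _ ≤ tp T M := h1'

/-- the three cases together -/
theorem core (n : ℕ) (hn : n = 2 ∨ n = 3 ∨ n = 4) (T : Finset ℕ) (hT : ∀ p ∈ T, p.Prime) (ε : ℝ)
    (hε : 0 < ε) (hε1 : ε ≤ 1) (B : ℝ) :
    ∃ κ : ℝ, 0 < κ ∧ ∀ x y M D : ℤ, D ≠ 0 → |(D : ℝ)| ≤ B → M ≠ 0 → IsCoprime x M →
      y ^ 2 - x ^ 3 = D * M ^ n →
      κ * (max (|(x : ℝ)| ^ 3) ((y : ℝ) ^ 2)) ^ ((1 - ε) / 6) ≤ tp T M := by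
  rcases hn with rfl | rfl | rfl
  · exact core2 T hT ε hε hε1 B
  · exact core3 T hT ε hε hε1 B
  · exact core4 T hT ε hε hε1 B

theorem TU_mul {T : Finset ℕ} {m n : ℤ} (hm : TU T m) (hn : TU T n) : TU T (m * n) := by
  intro p hp h
  rcases (Nat.prime_iff_prime_int.1 hp).dvd_or_dvd h with h1 | h1
  · exact hm p hp h1
  · exact hn p hp h1

theorem TU_pow {T : Finset ℕ} {m : ℤ} (hm : TU T m) (n : ℕ) : TU T (m ^ n) := by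
  intro p hp h
  exact hm p hp ((Nat.prime_iff_prime_int.1 hp).dvd_of_dvd_pow h)

/-- splitting off the part composed of primes of `T` -/
theorem split_T (T : Finset ℕ) (hT : ∀ p ∈ T, p.Prime) (m : ℤ) (hm : m ≠ 0) :
    ∃ w m' : ℤ, m = w * m' ∧ w ≠ 0 ∧ m' ≠ 0 ∧ TU T w ∧ ∀ p ∈ T, ¬ (p : ℤ) ∣ m' := by
  induction hN : m.natAbs using Nat.strong_induction_on generalizing m with
  | _ N ih =>
    by_cases hp : ∃ p ∈ T, (p : ℤ) ∣ m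
    · obtain ⟨p, hpT, m1, hm1⟩ := hp
      have hpp := hT p hpT
      have hp0 : (p : ℤ) ≠ 0 := by exact_mod_cast hpp.ne_zero
      have hm10 : m1 ≠ 0 := by rintro rfl; apply hm; rw [hm1, mul_zero]
      have hlt : m1.natAbs < N := by
        rw [← hN, hm1, Int.natAbs_mul, Int.natAbs_natCast]
        have hpos : 0 < m1.natAbs := Int.natAbs_pos.2 hm10
        have := hpp.one_lt
        nlinarith
      obtain ⟨w, m', e1, hw, hm', hTw, hlast⟩ := ih _ hlt m1 hm10 rfl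
      refine ⟨p * w, m', by rw [hm1, e1]; ring, mul_ne_zero hp0 hw, hm', ?_, hlast⟩
      apply TU_mul _ hTw
      intro q hq hqd
      have : q = p := (Nat.prime_dvd_prime_iff_eq hq hpp).1 (Int.natCast_dvd_natCast.1 hqd)
      rw [this]; exact hpT
    · push Not at hp
      refine ⟨1, m, by ring, one_ne_zero, hm, ?_, hp⟩
      intro q hq hqd
      have := Int.natCast_dvd_natCast.1 (by exact_mod_cast hqd : (q : ℤ) ∣ ((1 : ℕ) : ℤ))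
      exact absurd (Nat.dvd_one.1 this) hq.one_lt.ne'

/-- coprimality from the absence of common primes -/
theorem coprime_of {x m : ℤ} (hm : m ≠ 0) (h : ∀ p : ℕ, p.Prime → (p : ℤ) ∣ x → ¬ (p : ℤ) ∣ m) :
    IsCoprime x m := by
  rw [Int.isCoprime_iff_gcd_eq_one]
  by_contra hcon
  obtain ⟨p, hp, hpd⟩ := Nat.exists_prime_and_dvd hcon
  have h1 : (p : ℤ) ∣ (Int.gcd x m : ℤ) := Int.natCast_dvd_natCast.2 hpd
  exact h p hp (h1.trans (Int.gcd_dvd_left x m)) (h1.trans (Int.gcd_dvd_right x m))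

/-- the exponent of a common prime of a minimal pair -/
theorem not_pow5 {x y : ℤ} {p : ℕ} (hp : p.Prime) (hx : (p : ℤ) ∣ x) (hy : (p : ℤ) ∣ y)
    (hmin : ¬ ((p : ℤ) ^ 2 ∣ x ∧ (p : ℤ) ^ 3 ∣ y)) : ¬ (p : ℤ) ^ 5 ∣ y ^ 2 - x ^ 3 := by
  intro h
  have hpi := Nat.prime_iff_prime_int.1 hp
  have hp0 : (p : ℤ) ≠ 0 := by exact_mod_cast hp.ne_zero
  obtain ⟨x1, hx1⟩ := hx
  obtain ⟨y1, hy1⟩ := hy
  obtain ⟨k, hk⟩ := h
  -- p | y1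
  have e1 : y1 ^ 2 = p * (x1 ^ 3 + p ^ 2 * k) := by
    apply mul_left_cancel₀ (pow_ne_zero 2 hp0)
    rw [hx1, hy1] at hk
    linear_combination hk
  obtain ⟨y2, hy2⟩ := hpi.dvd_of_dvd_pow (⟨_, e1⟩ : (p : ℤ) ∣ y1 ^ 2)
  have e2 : x1 ^ 3 = p * (y2 ^ 2 - p * k) := by
    apply mul_left_cancel₀ hp0
    rw [hy2] at e1
    linear_combination -e1
  obtain ⟨x2, hx2⟩ := hpi.dvd_of_dvd_pow (⟨_, e2⟩ : (p : ℤ) ∣ x1 ^ 3)
  have e3 : y2 ^ 2 = p * (p * x2 ^ 3 + k) := by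
    apply mul_left_cancel₀ hp0
    rw [hx2] at e2
    linear_combination -e2
  obtain ⟨y3, hy3⟩ := hpi.dvd_of_dvd_pow (⟨_, e3⟩ : (p : ℤ) ∣ y2 ^ 2)
  apply hmin
  refine ⟨⟨x2, by rw [hx1, hx2]; ring⟩, ⟨y3, by rw [hy1, hy2, hy3]; ring⟩⟩

/-- **minimal pairs** -/
theorem main1 (n : ℕ) (hn : n = 2 ∨ n = 3 ∨ n = 4) (T : Finset ℕ) (hT : ∀ p ∈ T, p.Prime) (ε : ℝ)
    (hε : 0 < ε) (hε1 : ε ≤ 1) :
    ∃ κ : ℝ, 0 < κ ∧ ∀ x y u m : ℤ, u ≠ 0 → m ≠ 0 → TU T u → (∀ p ∈ T, ¬ (p : ℤ) ∣ m) →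
      (∀ p : ℕ, p.Prime → (p : ℤ) ∣ x → (p : ℤ) ∣ y → p ∈ T) →
      (∀ p : ℕ, p.Prime → ¬ ((p : ℤ) ^ 2 ∣ x ∧ (p : ℤ) ^ 3 ∣ y)) →
      y ^ 2 - x ^ 3 = u * m ^ n →
      κ * (max (|(x : ℝ)| ^ 3) ((y : ℝ) ^ 2)) ^ ((1 - ε) / 6) ≤ |(m : ℝ)| := by
  have hn1 : 1 ≤ n := by omega
  have hn5 : n ≤ 5 := by omega
  obtain ⟨κ, hκ, hb⟩ := core n hn T hT ε hε hε1 ((((∏ p ∈ T, p : ℕ) : ℤ) ^ 4 : ℤ) : ℝ)
  refine ⟨κ, hκ, ?_⟩
  intro x y u m hu hm hTU hmT hgcd hmin h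
  obtain ⟨D, t, e1, hD, ht, hTt, hDb, hlast⟩ := unit_split T hT n hn1 hn5 u hu hTU
  have h1 : y ^ 2 - x ^ 3 = D * (t * m) ^ n := by rw [h, e1]; ring
  have hc : IsCoprime x (t * m) := by
    apply coprime_of (mul_ne_zero ht hm)
    intro p hp hpx hptm
    have hpi := Nat.prime_iff_prime_int.1 hp
    have hpy : (p : ℤ) ∣ y := by
      have h2 : (p : ℤ) ∣ y ^ 2 := by
        have : y ^ 2 = x * x ^ 2 + D * (t * m) ^ n := by linear_combination h1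
        rw [this]
        exact dvd_add (hpx.mul_right _) ((hptm.trans (dvd_pow_self _ (by omega))).mul_left _)
      exact hpi.dvd_of_dvd_pow h2
    have hpT := hgcd p hp hpx hpy
    rcases hpi.dvd_or_dvd hptm with h3 | h3
    · have h4 := hlast p hp h3
      apply not_pow5 hp hpx hpy (hmin p hp)
      rw [h]
      exact h4.mul_right _
    · exact hmT p hpT h3
  have h2 := hb x y (t * m) D hD (by exact_mod_cast hDb) (mul_ne_zero ht hm) hc h1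
  refine h2.trans ?_
  rw [tp_mul T hT, tp_unit T hT t ht hTt, one_mul]
  exact tp_le T hT m

end Pool.Agent.NH26.HC
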